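import Pool.Agent.Royle.Last

/-!
# Identification with `AG(3,2)`
-/

set_option autoImplicit false

open Set
open scoped Matroid

namespace Pool.Agent.Royle

/-- the binary digits of a number below 8 -/
def ph (n : Fin 8) : Fin 3 → ZMod 2 :=
  ![(n.val : ZMod 2), ((n.val / 2 : ℕ) : ZMod 2), ((n.val / 4 : ℕ) : ZMod 2)]

lemma planes_sum : ∀ P ∈ planes, (P.card : ZMod 2) = 0 ∧ ∑ n ∈ P, ph n = 0 ∧ P.Nonempty := by
  decide +kernel

lemma exists_plane : ∀ T : Finset (Fin 8), T.Nonempty → (T.card : ZMod 2) = 0 →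
    ∑ n ∈ T, ph n = 0 → ∃ P ∈ planes, P ⊆ T := by
  decide +kernel

lemma ph_bij : Function.Bijective ph := by decide +kernel

lemma zmod2_eq_one {a : ZMod 2} (h : a ≠ 0) : a = 1 := by
  revert a; decide

theorem ag_of_labels {α : Type*} {M : Matroid α} (g : Fin 8 → α) (hinj : Function.Injective g)
    (hE : M.E = Set.range g) (h1 : ∀ P ∈ planes, M.IsCircuit (g '' (P : Set (Fin 8))))
    (h2 : ∀ U, M.IsCircuit U → ∃ P ∈ planes, U = g '' (P : Set (Fin 8))) :
    ∃ f : α → (Fin 3 → ZMod 2), Set.BijOn f M.E Set.univ ∧ ∀ I : Set α, I ⊆ M.E →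
      (M.Indep I ↔ AffineIndependent (ZMod 2) (fun x : I => f x)) := by
  classical
  have hinv : ∀ n, Function.invFun g (g n) = n := Function.leftInverse_invFun hinj
  have hinv' : ∀ x ∈ M.E, g (Function.invFun g x) = x := by
    intro x hx
    rw [hE] at hx
    obtain ⟨n, rfl⟩ := hx
    rw [hinv]
  refine ⟨fun x => ph (Function.invFun g x), ⟨fun _ _ => Set.mem_univ _, ?_, ?_⟩, ?_⟩
  · intro x hx y hy hxy
    have := ph_bij.1 hxy
    rw [← hinv' x hx, ← hinv' y hy, this]
  · intro v _
    obtain ⟨n, rfl⟩ := ph_bij.2 v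
    refine ⟨g n, by rw [hE]; exact ⟨n, rfl⟩, ?_⟩
    simp only [hinv]
  intro I hI
  rw [affineIndependent_iff]
  constructor
  · intro hind s w hw0 hw1
    by_contra hcon
    push Not at hcon
    obtain ⟨e, he, hwe⟩ := hcon
    set s' := s.filter (fun e => w e ≠ 0) with hs'
    set T : Finset (Fin 8) := s'.image (fun e : I => Function.invFun g (e : α)) with hT
    have hinjOn : Set.InjOn (fun e : I => Function.invFun g (e : α)) (s' : Set I) := by
      intro a _ b _ hab
      have hab' : Function.invFun g (a : α) = Function.invFun g (b : α) := hab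
      apply Subtype.ext
      rw [← hinv' a (hI a.2), ← hinv' b (hI b.2), hab']
    have hTne : T.Nonempty := ⟨Function.invFun g (e : α), by
      rw [hT, Finset.mem_image]
      exact ⟨e, by rw [hs', Finset.mem_filter]; exact ⟨he, hwe⟩, rfl⟩⟩
    have hw1' : ∀ e ∈ s', w e = 1 := by
      intro e he
      rw [hs', Finset.mem_filter] at he
      exact zmod2_eq_one he.2
    have hTcard : (T.card : ZMod 2) = 0 := by
      rw [hT, Finset.card_image_of_injOn hinjOn]
      have : ((s'.card : ℕ) : ZMod 2) = ∑ e ∈ s', w e := by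
        rw [Finset.sum_congr rfl hw1']
        simp
      rw [this, hs', Finset.sum_filter_ne_zero]
      exact hw0
    have hTsum : ∑ n ∈ T, ph n = 0 := by
      rw [hT, Finset.sum_image hinjOn]
      rw [← hw1]
      have : ∑ e ∈ s', ph (Function.invFun g (e : α)) =
          ∑ e ∈ s', w e • ph (Function.invFun g (e : α)) := by
        refine Finset.sum_congr rfl fun e he => ?_
        rw [hw1' e he, one_smul]
      rw [this, hs']
      refine Finset.sum_filter_of_ne ?_
      intro e _ hne hwe
      exact hne (by rw [hwe, zero_smul])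
    obtain ⟨P, hP, hPT⟩ := exists_plane T hTne hTcard hTsum
    refine (h1 P hP).not_indep (hind.subset ?_)
    rintro x ⟨n, hn, rfl⟩
    have := hPT (Finset.mem_coe.1 hn)
    rw [hT, Finset.mem_image] at this
    obtain ⟨e, -, he⟩ := this
    rw [← he, hinv' e (hI e.2)]
    exact e.2
  · intro haff
    rw [Matroid.indep_iff_forall_subset_not_isCircuit hI]
    intro U hUI hU
    obtain ⟨P, hP, rfl⟩ := h2 U hU
    obtain ⟨hc, hs, hne⟩ := planes_sum P hP
    have hmem : ∀ n ∈ P, g n ∈ I := fun n hn => hUI ⟨n, Finset.mem_coe.2 hn, rfl⟩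
    set emb : {n // n ∈ P} ↪ I := ⟨fun n => ⟨g n, hmem n n.2⟩, by
      intro a b hab
      apply Subtype.ext
      exact hinj (Subtype.ext_iff.1 hab)⟩ with hemb
    have key := haff (P.attach.map emb) (fun _ => 1) (by
      rw [Finset.sum_map, Finset.sum_const, Finset.card_attach]
      simpa using hc) (by
      rw [Finset.sum_map]
      have : ∑ x ∈ P.attach, (1 : ZMod 2) • ph (Function.invFun g ((emb x : I) : α)) =
          ∑ x ∈ P.attach, ph x := by
        refine Finset.sum_congr rfl fun x _ => ?_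
        rw [one_smul]
        congr 1
        exact hinv x
      rw [this, Finset.sum_attach P ph]
      exact hs)
    obtain ⟨n, hn⟩ := hne
    have := key (emb ⟨n, hn⟩) (by simp)
    exact one_ne_zero this

end Pool.Agent.Royle
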