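import Mathlib

/-!
# Basic matroid facts for the proof of Royle's conjecture (MP_363d14_co)

Weighted sums over sets, the relation of lying in a common circuit, circuits and cocircuits of
minors, and the rooted version of Tutte's theorem that deleting or contracting an element keeps
a connected matroid connected.
-/

set_option autoImplicit false

open Set
open scoped Matroid

namespace Pool.Agent.Royle

open Classical in
/-- The total weight of a set. -/
noncomputable def W {α : Type*} [Fintype α] (v : α → ℝ) (S : Set α) : ℝ :=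
  ∑ x, if x ∈ S then v x else 0

section W

variable {α : Type*} [Fintype α] {v w : α → ℝ} {S T : Set α}

lemma W_mono_set (hv : ∀ x ∈ T, 0 ≤ v x) (h : S ⊆ T) : W v S ≤ W v T := by
  classical
  unfold W
  refine Finset.sum_le_sum fun x _ => ?_
  by_cases hx : x ∈ S
  · simp [hx, h hx]
  · by_cases hx' : x ∈ T
    · simp [hx, hx', hv x hx']
    · simp [hx, hx']

lemma W_mono_fun (h : ∀ x ∈ S, v x ≤ w x) : W v S ≤ W w S := by
  classical
  unfold W
  refine Finset.sum_le_sum fun x _ => ?_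
  by_cases hx : x ∈ S
  · simp [hx, h x hx]
  · simp [hx]

lemma W_congr (h : ∀ x ∈ S, v x = w x) : W v S = W w S :=
  le_antisymm (W_mono_fun fun x hx => (h x hx).le) (W_mono_fun fun x hx => (h x hx).ge)

lemma W_nonneg (hv : ∀ x ∈ S, 0 ≤ v x) : 0 ≤ W v S := by
  classical
  unfold W
  refine Finset.sum_nonneg fun x _ => ?_
  by_cases hx : x ∈ S
  · simp [hx, hv x hx]
  · simp [hx]

@[simp] lemma W_empty : W v (∅ : Set α) = 0 := by
  simp [W]

@[simp] lemma W_singleton (x : α) : W v {x} = v x := by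
  classical
  unfold W
  simp

lemma W_union (h : Disjoint S T) : W v (S ∪ T) = W v S + W v T := by
  classical
  unfold W
  rw [← Finset.sum_add_distrib]
  refine Finset.sum_congr rfl fun x _ => ?_
  by_cases hx : x ∈ S
  · have : x ∉ T := fun h' => (Set.disjoint_left.1 h hx h')
    simp [hx, this]
  · simp [hx]

lemma W_diff_add (h : S ⊆ T) : W v (T \ S) + W v S = W v T := by
  rw [← W_union disjoint_sdiff_left, Set.sdiff_union_of_subset h]

lemma W_diff (h : S ⊆ T) : W v (T \ S) = W v T - W v S := by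
  linarith [W_diff_add (v := v) h]

lemma W_insert {x : α} (h : x ∉ S) : W v (insert x S) = v x + W v S := by
  rw [Set.insert_eq, W_union (by simpa using h), W_singleton]

lemma W_inter_add_diff (S T : Set α) : W v (S ∩ T) + W v (S \ T) = W v S := by
  rw [← W_union (Set.disjoint_sdiff_inter.symm), Set.inter_union_sdiff]

lemma W_one (S : Set α) : W (fun _ => 1) S = (S.ncard : ℝ) := by
  classical
  unfold W
  rw [Set.ncard_eq_toFinset_card' S, Finset.sum_ite]
  simp [Set.toFinset]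

lemma W_const (c : ℝ) (S : Set α) : W (fun _ => c) S = (S.ncard : ℝ) * c := by
  rw [← W_one]
  unfold W
  rw [Finset.sum_mul]
  refine Finset.sum_congr rfl fun x _ => ?_
  split_ifs <;> simp

lemma W_const_of {c : ℝ} (h : ∀ x ∈ S, v x = c) : W v S = (S.ncard : ℝ) * c := by
  rw [← W_const]
  exact W_congr h

lemma W_mul_left (c : ℝ) (S : Set α) : W (fun x => c * v x) S = c * W v S := by
  unfold W
  rw [Finset.mul_sum]
  refine Finset.sum_congr rfl fun x _ => ?_
  split_ifs <;> simp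

lemma W_div_const (c : ℝ) (S : Set α) : W (fun x => v x / c) S = W v S / c := by
  unfold W
  rw [Finset.sum_div]
  refine Finset.sum_congr rfl fun x _ => ?_
  split_ifs <;> simp

lemma W_add (S : Set α) : W (fun x => v x + w x) S = W v S + W w S := by
  unfold W
  rw [← Finset.sum_add_distrib]
  refine Finset.sum_congr rfl fun x _ => ?_
  split_ifs <;> simp

lemma le_W_of_mem {x : α} (hv : ∀ x ∈ S, 0 ≤ v x) (h : x ∈ S) : v x ≤ W v S := by
  rw [← W_singleton (v := v) x]
  exact W_mono_set hv (by simpa using h)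

/-- two sets with the same positive weight, one inside the other, are equal -/
lemma eq_of_W_eq (hv : ∀ x ∈ T, 0 < v x) (h : S ⊆ T) (hW : W v T ≤ W v S) : S = T := by
  refine h.antisymm fun x hx => ?_
  by_contra hxS
  have h1 : v x ≤ W v (T \ S) := le_W_of_mem (fun y hy => (hv y hy.1).le) ⟨hx, hxS⟩
  have h2 := hv x hx
  rw [W_diff h] at h1
  linarith

end W

section Matroid

variable {α : Type*} {M N R : Matroid α} {C D X Y Z U : Set α} {e f g x y z : α}

/-- `x` and `y` lie in a common circuit of `M`. -/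
def Cn (M : Matroid α) (x y : α) : Prop := ∃ C, M.IsCircuit C ∧ x ∈ C ∧ y ∈ C

lemma Cn.symm (h : Cn M x y) : Cn M y x := by
  obtain ⟨C, hC, hx, hy⟩ := h
  exact ⟨C, hC, hy, hx⟩

lemma Cn.refl_left (h : Cn M x y) : Cn M x x := by
  obtain ⟨C, hC, hx, hy⟩ := h
  exact ⟨C, hC, hx, hx⟩

lemma Cn.refl_right (h : Cn M x y) : Cn M y y := h.symm.refl_left

lemma Cn.mem_left (h : Cn M x y) : x ∈ M.E := by
  obtain ⟨C, hC, hx, hy⟩ := h
  exact hC.subset_ground hx

lemma Cn.mem_right (h : Cn M x y) : y ∈ M.E := h.symm.mem_left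

lemma cn_trans_aux [Finite α] (n : ℕ) : ∀ (C₁ C₂ : Set α), (C₁ ∪ C₂).ncard ≤ n →
    M.IsCircuit C₁ → M.IsCircuit C₂ → x ∈ C₁ → z ∈ C₂ → (C₁ ∩ C₂).Nonempty → Cn M x z := by
  induction n with
  | zero =>
    intro C₁ C₂ hn hC₁ hC₂ hx hz hne
    have : (C₁ ∪ C₂) = ∅ := by
      rw [← Set.ncard_eq_zero (Set.toFinite _)]; omega
    have hx' : x ∈ C₁ ∪ C₂ := Or.inl hx
    simp [this] at hx'
  | succ n ih =>
    intro C₁ C₂ hn hC₁ hC₂ hx hz hne
    by_contra hcon
    have hx2 : x ∉ C₂ := fun h => hcon ⟨C₂, hC₂, h, hz⟩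
    have hz1 : z ∉ C₁ := fun h => hcon ⟨C₁, hC₁, hx, h⟩
    obtain ⟨y, hy1, hy2⟩ := hne
    obtain ⟨C₃, hC₃s, hC₃, hx3⟩ := hC₁.strong_elimination hC₂ hy1 hy2 hx hx2
    obtain ⟨C₄, hC₄s, hC₄, hz4⟩ := hC₂.strong_elimination hC₁ hy2 hy1 hz hz1
    have h32 : (C₃ ∩ C₂).Nonempty := by
      by_contra h
      rw [Set.not_nonempty_iff_eq_empty] at h
      have hsub : C₃ ⊆ C₁ \ {y} := by
        intro a ha
        have := hC₃s ha
        refine ⟨?_, this.2⟩
        rcases this.1 with h' | h'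
        · exact h'
        · exact absurd (show a ∈ C₃ ∩ C₂ from ⟨ha, h'⟩) (by simp [h])
      have : C₃ = C₁ := hC₃.eq_of_subset_isCircuit hC₁ (hsub.trans Set.sdiff_subset)
      rw [this] at hsub
      exact (hsub hy1).2 rfl
    have h41 : (C₄ ∩ C₁).Nonempty := by
      by_contra h
      rw [Set.not_nonempty_iff_eq_empty] at h
      have hsub : C₄ ⊆ C₂ \ {y} := by
        intro a ha
        have := hC₄s ha
        refine ⟨?_, this.2⟩
        rcases this.1 with h' | h'
        · exact h'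
        · exact absurd (show a ∈ C₄ ∩ C₁ from ⟨ha, h'⟩) (by simp [h])
      have : C₄ = C₂ := hC₄.eq_of_subset_isCircuit hC₂ (hsub.trans Set.sdiff_subset)
      rw [this] at hsub
      exact (hsub hy2).2 rfl
    have hfin : (C₁ ∪ C₂).Finite := Set.toFinite _
    -- C₃ ∪ C₂ = C₁ ∪ C₂
    have hA : C₁ \ C₂ ⊆ C₃ := by
      by_contra hnot
      have hss : C₃ ∪ C₂ ⊂ C₁ ∪ C₂ := by
        refine ⟨Set.union_subset (hC₃s.trans Set.sdiff_subset) Set.subset_union_right, fun hsub => hnot ?_⟩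
        intro a ha
        rcases hsub (Or.inl ha.1) with h' | h'
        · exact h'
        · exact absurd h' ha.2
      have hlt := Set.ncard_lt_ncard hss hfin
      exact hcon (ih C₃ C₂ (by omega) hC₃ hC₂ hx3 hz h32)
    obtain ⟨a, ha4, ha1⟩ := h41
    have ha1' : a ∈ C₃ ∩ C₄ ∨ a ∈ C₂ := by
      by_cases h : a ∈ C₂
      · exact Or.inr h
      · exact Or.inl ⟨hA ⟨ha1, h⟩, ha4⟩
    -- C₄ meets C₁ \ C₂
    have h4' : (C₄ ∩ (C₁ \ C₂)).Nonempty := by
      by_contra h
      rw [Set.not_nonempty_iff_eq_empty] at h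
      have hsub : C₄ ⊆ C₂ \ {y} := by
        intro a ha
        have := hC₄s ha
        refine ⟨?_, this.2⟩
        by_contra h2
        rcases this.1 with h' | h'
        · exact h2 h'
        · exact absurd (show a ∈ C₄ ∩ (C₁ \ C₂) from ⟨ha, h', h2⟩) (by simp [h])
      have : C₄ = C₂ := hC₄.eq_of_subset_isCircuit hC₂ (hsub.trans Set.sdiff_subset)
      rw [this] at hsub
      exact (hsub hy2).2 rfl
    obtain ⟨b, hb4, hb1⟩ := h4'
    have hss : C₃ ∪ C₄ ⊂ C₁ ∪ C₂ := by
      refine ⟨Set.union_subset (hC₃s.trans Set.sdiff_subset)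
        (hC₄s.trans (Set.sdiff_subset.trans (by rw [Set.union_comm]))), fun hsub => ?_⟩
      rcases hsub (Or.inl hy1) with h' | h'
      · exact (hC₃s h').2 rfl
      · exact (hC₄s h').2 rfl
    have hlt := Set.ncard_lt_ncard hss hfin
    exact hcon (ih C₃ C₄ (by omega) hC₃ hC₄ hx3 hz4 ⟨b, hA hb1, hb4⟩)

lemma Cn.trans [Finite α] (h1 : Cn M x y) (h2 : Cn M y z) : Cn M x z := by
  obtain ⟨C₁, hC₁, hx, hy⟩ := h1
  obtain ⟨C₂, hC₂, hy', hz⟩ := h2
  exact cn_trans_aux _ C₁ C₂ le_rfl hC₁ hC₂ hx hz ⟨y, hy, hy'⟩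

/-- every element of a circuit that is not contracted lies in a circuit of the contraction
inside the rest of the circuit. -/
lemma exists_circuit_contract (hC : M.IsCircuit C) (hx : x ∈ C) (hxX : x ∉ X) :
    ∃ U, (M ／ X).IsCircuit U ∧ x ∈ U ∧ U ⊆ C \ X := by
  have hcl : x ∈ (M ／ X).closure ((C \ X) \ {x}) := by
    rw [Matroid.contract_closure_eq]
    refine ⟨?_, hxX⟩
    have := hC.mem_closure_sdiff_singleton_of_mem hx
    refine M.closure_subset_closure ?_ this
    intro a ha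
    by_cases haX : a ∈ X
    · exact Or.inr haX
    · exact Or.inl ⟨⟨ha.1, haX⟩, ha.2⟩
  obtain ⟨U, hUs, hU, hxU⟩ := Matroid.exists_isCircuit_of_mem_closure hcl (by simp)
  refine ⟨U, hU, hxU, hUs.trans ?_⟩
  rintro a (rfl | ha)
  · exact ⟨hx, hxX⟩
  · exact ha.1

lemma exists_circuit_of_contract (hC : (M ／ X).IsCircuit C) :
    ∃ C', M.IsCircuit C' ∧ C ⊆ C' ∧ C' ⊆ C ∪ X := hC.exists_subset_isCircuit_of_contract

lemma cocircuit_contract_iff : (M ／ X).IsCocircuit D ↔ M.IsCocircuit D ∧ Disjoint D X :=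
  Matroid.contract_isCocircuit_iff

lemma exists_cocircuit_of_delete (hD : (M ＼ X).IsCocircuit D) :
    ∃ D', M.IsCocircuit D' ∧ D ⊆ D' ∧ D' ⊆ D ∪ X := by
  rw [Matroid.isCocircuit_def, Matroid.dual_delete] at hD
  exact exists_circuit_of_contract hD

lemma exists_cocircuit_delete (hD : M.IsCocircuit D) (hx : x ∈ D) (hxX : x ∉ X) :
    ∃ U, (M ＼ X).IsCocircuit U ∧ x ∈ U ∧ U ⊆ D \ X := by
  simp only [Matroid.isCocircuit_def, Matroid.dual_delete] at *
  exact exists_circuit_contract hD hx hxX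

/-- a circuit and a cocircuit with a common element have another common element -/
lemma exists_ne_mem_inter (hC : M.IsCircuit C) (hD : M.IsCocircuit D) (hxC : x ∈ C)
    (hxD : x ∈ D) : ∃ y, y ≠ x ∧ y ∈ C ∧ y ∈ D := by
  obtain ⟨y, ⟨hyC, hyD⟩, hyx⟩ := (hC.isCocircuit_inter_nontrivial hD ⟨x, hxC, hxD⟩).exists_ne x
  exact ⟨y, hyx, hyC, hyD⟩

/-- for two elements of a circuit there is a cocircuit meeting the circuit exactly there -/
lemma exists_cocircuit_pair (hC : M.IsCircuit C) (he : e ∈ C) (hf : f ∈ C) (hne : e ≠ f) :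
    ∃ D, M.IsCocircuit D ∧ D ∩ C = {e, f} := by
  have hI : M.Indep (C \ {f}) := hC.sdiff_singleton_indep hf
  obtain ⟨K, hK, hKI⟩ := hI.exists_isCocircuit_inter_eq_mem (e := e) ⟨he, hne⟩
  have heK : e ∈ K := by
    have : e ∈ K ∩ (C \ {f}) := by rw [hKI]; rfl
    exact this.1
  refine ⟨K, hK, ?_⟩
  have hsub : K ∩ C ⊆ {e, f} := by
    intro a ha
    by_cases haf : a = f
    · right; exact haf
    · left
      have : a ∈ K ∩ (C \ {f}) := ⟨ha.1, ha.2, haf⟩
      rw [hKI] at this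
      exact this
  refine hsub.antisymm ?_
  obtain ⟨y, hy, hyC, hyK⟩ := exists_ne_mem_inter hC hK he heK
  have hyf : y = f := by
    rcases hsub ⟨hyK, hyC⟩ with h | h
    · exact absurd h hy
    · exact h
  subst hyf
  intro a ha
  rcases ha with rfl | rfl
  · exact ⟨heK, he⟩
  · exact ⟨hyK, hyC⟩

lemma exists_circuit_pair (hD : M.IsCocircuit D) (he : e ∈ D) (hf : f ∈ D) (hne : e ≠ f) :
    ∃ C, M.IsCircuit C ∧ C ∩ D = {e, f} := by
  obtain ⟨C, hC, h⟩ := exists_cocircuit_pair (M := M✶) hD.isCircuit he hf hne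
  refine ⟨C, ?_, h⟩
  rwa [Matroid.isCocircuit_def, Matroid.dual_dual] at hC

/-- elements of a cocircuit lie in a common circuit -/
lemma cn_of_cocircuit (hD : M.IsCocircuit D) (he : e ∈ D) (hf : f ∈ D) (hne : e ≠ f) :
    Cn M e f := by
  obtain ⟨C, hC, h⟩ := exists_circuit_pair hD he hf hne
  have h1 : e ∈ C ∩ D := by rw [h]; simp
  have h2 : f ∈ C ∩ D := by rw [h]; simp
  exact ⟨C, hC, h1.1, h2.1⟩

lemma cocircuit_strong_elimination {C₁ C₂ : Set α} (hC₁ : M.IsCocircuit C₁)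
    (hC₂ : M.IsCocircuit C₂) (heC₁ : e ∈ C₁)
    (heC₂ : e ∈ C₂) (hfC₁ : f ∈ C₁) (hfC₂ : f ∉ C₂) :
    ∃ C ⊆ (C₁ ∪ C₂) \ {e}, M.IsCocircuit C ∧ f ∈ C :=
  Matroid.IsCircuit.strong_elimination (M := M✶) hC₁ hC₂ heC₁ heC₂ hfC₁ hfC₂

/-- `R` is connected with root `e`: every other element lies in a circuit with `e`. -/
def RConn (R : Matroid α) (e : α) : Prop := ∀ f ∈ R.E, f ≠ e → Cn R e f

/-- The single-element lemma. -/
lemma RConn.delete_or_contract [Finite α] (hR : RConn R e) (hg : g ≠ e) :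
    RConn (R ＼ {g}) e ∨ RConn (R ／ {g}) e := by
  by_contra hcon
  push Not at hcon
  obtain ⟨h1, h2⟩ := hcon
  unfold RConn at h1 h2
  push Not at h1 h2
  obtain ⟨y, hyE, hye, hy⟩ := h1
  obtain ⟨y', hyE', hye', hy'⟩ := h2
  rw [Matroid.delete_ground] at hyE
  rw [Matroid.contract_ground] at hyE'
  -- a circuit through e and y contains g
  obtain ⟨Z, hZ, heZ, hyZ⟩ := hR y hyE.1 hye
  have hgZ : g ∈ Z := by
    by_contra hgZ
    exact hy ⟨Z, by rwa [← Matroid.circuit_iff_delete_of_disjoint (by simpa using hgZ)], heZ, hyZ⟩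
  have hZnt : Z.Nontrivial := ⟨g, hgZ, e, heZ, hg⟩
  have hZg : (R ／ {g}).IsCircuit (Z \ {g}) := hZ.contractElem_isCircuit hZnt hgZ
  -- a circuit through e and y' avoids g
  obtain ⟨Z', hZ', heZ', hyZ'⟩ := hR y' hyE'.1 hye'
  have hgZ' : g ∉ Z' := by
    intro hgZ'
    have hZnt' : Z'.Nontrivial := ⟨g, hgZ', e, heZ', hg⟩
    exact hy' ⟨Z' \ {g}, hZ'.contractElem_isCircuit hZnt' hgZ', ⟨heZ', by simpa using hg.symm⟩,
      ⟨hyZ', hyE'.2⟩⟩
  have hZd : (R ＼ {g}).IsCircuit Z' := by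
    rwa [← Matroid.circuit_iff_delete_of_disjoint (by simpa using hgZ')]
  obtain ⟨W', hW', hyW', hW's⟩ := exists_circuit_contract hZ' hyZ' hyE'.2
  obtain ⟨Ŵ, hŴ, hW'Ŵ, hŴs⟩ := exists_circuit_of_contract hW'
  have heW' : e ∉ W' := fun h => hy' ⟨W', hW', h, hyW'⟩
  have hgŴ : g ∈ Ŵ := by
    by_contra hgŴ
    have hsub : Ŵ ⊆ W' := by
      intro a ha
      rcases hŴs ha with h | h
      · exact h
      · rw [Set.mem_singleton_iff] at h
        exact absurd (h ▸ ha) hgŴ
    have : Ŵ = Z' := hŴ.eq_of_subset_isCircuit hZ' ((hsub.trans hW's).trans Set.sdiff_subset)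
    rw [this] at hsub
    exact heW' (hsub heZ')
  -- y ∉ Ŵ
  have hyW : y ∉ Ŵ := by
    intro hyW
    have hyg : y ≠ g := fun h => hyE.2 (by simpa using h)
    have : y ∈ W' := by
      rcases hŴs hyW with h | h
      · exact h
      · exact absurd h (by simpa using hyg)
    refine hy' (Cn.trans (M := R ／ {g}) (y := y) ⟨Z \ {g}, hZg, ⟨heZ, by simpa using hg.symm⟩, ⟨hyZ, by simpa using hyg⟩⟩ ⟨W', hW', this, hyW'⟩)
  obtain ⟨Z₂, hZ₂s, hZ₂, hyZ₂⟩ := hZ.strong_elimination hŴ hgZ hgŴ hyZ hyW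
  have hgZ₂ : g ∉ Z₂ := fun h => (hZ₂s h).2 rfl
  have hZ₂d : (R ＼ {g}).IsCircuit Z₂ := by
    rwa [← Matroid.circuit_iff_delete_of_disjoint (by simpa using hgZ₂)]
  have hsub : Z₂ ⊆ Z := by
    intro a ha
    rcases (hZ₂s ha).1 with h | h
    · exact h
    · exfalso
      have hag : a ≠ g := fun h' => hgZ₂ (h' ▸ ha)
      have haW' : a ∈ W' := by
        rcases hŴs h with h | h
        · exact h
        · exact absurd h (by simpa using hag)
      have haZ' : a ∈ Z' := (hW's haW').1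
      exact hy (Cn.trans (y := a) ⟨Z', hZd, heZ', haZ'⟩ ⟨Z₂, hZ₂d, ha, hyZ₂⟩)
  have : Z₂ = Z := hZ₂.eq_of_subset_isCircuit hZ hsub
  exact hgZ₂ (this ▸ hgZ)

/-- connected minors: for `X` avoiding the root there is a minor with ground set `E \ X` that is
still connected with root `e`. -/
lemma RConn.exists_minor [Finite α] (hR : RConn R e) (X : Set α) (heX : e ∉ X) :
    ∃ R' : Matroid α, R'.E = R.E \ X ∧ RConn R' e ∧
      (∀ C, R'.IsCircuit C → ∃ C', R.IsCircuit C' ∧ C ⊆ C' ∧ C' ⊆ C ∪ X) ∧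
      (∀ D, R'.IsCocircuit D → ∃ D', R.IsCocircuit D' ∧ D ⊆ D' ∧ D' ⊆ D ∪ X) := by
  induction X, Set.toFinite X using Set.Finite.induction_on with
  | empty =>
    exact ⟨R, by simp, hR, fun C hC => ⟨C, hC, subset_rfl, by simp⟩,
      fun D hD => ⟨D, hD, subset_rfl, by simp⟩⟩
  | @insert g X hgX hXf ih =>
    rw [Set.mem_insert_iff, not_or] at heX
    obtain ⟨R', hE, hR', hC', hD'⟩ := ih heX.2
    have hge : g ≠ e := fun h => heX.1 h.symm
    rcases hR'.delete_or_contract hge with h | h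
    · refine ⟨R' ＼ {g}, ?_, h, ?_, ?_⟩
      · rw [Matroid.delete_ground, hE]; ext a; simp; tauto
      · intro C hC
        obtain ⟨C', h1, h2, h3⟩ := hC' C hC.of_delete
        exact ⟨C', h1, h2, h3.trans (Set.union_subset_union_right _ (Set.subset_insert _ _))⟩
      · intro D hD
        obtain ⟨D₁, h1, h2, h3⟩ := exists_cocircuit_of_delete hD
        obtain ⟨D', h1', h2', h3'⟩ := hD' D₁ h1
        refine ⟨D', h1', h2.trans h2', h3'.trans ?_⟩
        rintro a (ha | ha)
        · rcases h3 ha with h | h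
          · exact Or.inl h
          · right; left; exact h
        · right; right; exact ha
    · refine ⟨R' ／ {g}, ?_, h, ?_, ?_⟩
      · rw [Matroid.contract_ground, hE]; ext a; simp; tauto
      · intro C hC
        obtain ⟨C₁, h1, h2, h3⟩ := exists_circuit_of_contract hC
        obtain ⟨C', h1', h2', h3'⟩ := hC' C₁ h1
        refine ⟨C', h1', h2.trans h2', h3'.trans ?_⟩
        rintro a (ha | ha)
        · rcases h3 ha with h | h
          · exact Or.inl h
          · right; left; exact h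
        · right; right; exact ha
      · intro D hD
        obtain ⟨D', h1, h2, h3⟩ := hD' D (cocircuit_contract_iff.1 hD).1
        exact ⟨D', h1, h2, h3.trans (Set.union_subset_union_right _ (Set.subset_insert _ _))⟩

end Matroid

end Pool.Agent.Royle
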