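import Pool.Agent.Royle.Rooted

/-!
# Bridges of a circuit through the root of an extremal rooted matroid
-/

set_option autoImplicit false
set_option linter.unusedSectionVars false

open Set
open scoped Matroid

namespace Pool.Agent.Royle

variable {α : Type*} [Fintype α] {M N R : Matroid α} {C D X Y Z U P : Set α} {e f g h x y z : α}
  {v w : α → ℝ}

lemma W_eq_pointwise {S : Set α} (h : ∀ x ∈ S, v x ≤ w x) (hW : W w S ≤ W v S) :
    ∀ x ∈ S, v x = w x := by
  classical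
  intro x hx
  by_contra hne
  have hlt : v x < w x := lt_of_le_of_ne (h x hx) hne
  have : W v S < W w S := by
    unfold W
    refine Finset.sum_lt_sum (fun y _ => ?_) ⟨x, Finset.mem_univ _, ?_⟩
    · by_cases hy : y ∈ S
      · simp [hy, h y hy]
      · simp [hy]
    · simp [hx, hlt]
  linarith

lemma W_double (P Q : Set α) (r : α → α → Prop) (u v : α → ℝ) :
    W (fun f => v f * W u {x | x ∈ Q ∧ r x f}) P =
      W (fun x => u x * W v {f | f ∈ P ∧ r x f}) Q := by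
  classical
  have h1 : ∀ f : α, (if f ∈ P then v f * W u {x | x ∈ Q ∧ r x f} else 0)
      = ∑ x, (if f ∈ P ∧ x ∈ Q ∧ r x f then v f * u x else 0) := by
    intro f
    unfold W
    by_cases hf : f ∈ P
    · simp only [hf, if_true, true_and, Finset.mul_sum]
      refine Finset.sum_congr rfl fun x _ => ?_
      by_cases hx : x ∈ Q ∧ r x f
      · simp [hx]
      · simp [hx]
    · simp [hf]
  have h2 : ∀ x : α, (if x ∈ Q then u x * W v {f | f ∈ P ∧ r x f} else 0)
      = ∑ f, (if f ∈ P ∧ x ∈ Q ∧ r x f then v f * u x else 0) := by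
    intro x
    unfold W
    by_cases hx : x ∈ Q
    · simp only [hx, if_true, true_and, Finset.mul_sum]
      refine Finset.sum_congr rfl fun f _ => ?_
      by_cases hf : f ∈ P ∧ r x f
      · simp [hf, mul_comm]
      · simp [hf]
    · simp [hx]
  have e1 : W (fun f => v f * W u {x | x ∈ Q ∧ r x f}) P =
      ∑ f, (if f ∈ P then v f * W u {x | x ∈ Q ∧ r x f} else 0) := by
    conv_lhs => unfold W
    refine Finset.sum_congr rfl fun f _ => ?_
    split_ifs <;> rfl
  have e2 : W (fun x => u x * W v {f | f ∈ P ∧ r x f}) Q =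
      ∑ x, (if x ∈ Q then u x * W v {f | f ∈ P ∧ r x f} else 0) := by
    conv_lhs => unfold W
    refine Finset.sum_congr rfl fun f _ => ?_
    split_ifs <;> rfl
  rw [e1, e2, Finset.sum_congr rfl fun f _ => h1 f, Finset.sum_congr rfl fun x _ => h2 x]
  exact Finset.sum_comm

/-- given a circuit meeting `Z` and a point of it outside of `Z`, there is a circuit through
this point meeting `Z` whose part outside of `Z` is a circuit of `R ／ Z`. -/
lemma exists_ear (hU : R.IsCircuit U) (hx : x ∈ U) (hxZ : x ∉ Z) (hne : (U ∩ Z).Nonempty) :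
    ∃ U', R.IsCircuit U' ∧ x ∈ U' ∧ (U' ∩ Z).Nonempty ∧ (R ／ Z).IsCircuit (U' \ Z) := by
  obtain ⟨W', hW', hxW', hW's⟩ := exists_circuit_contract hU hx hxZ
  obtain ⟨U', hU', h1, h2⟩ := exists_circuit_of_contract hW'
  have hdisj : ∀ a ∈ W', a ∉ Z := fun a ha => (hW's ha).2
  have hUZ : U' \ Z = W' := by
    ext a
    constructor
    · rintro ⟨ha, haZ⟩
      rcases h2 ha with h | h
      · exact h
      · exact absurd h haZ
    · intro ha
      exact ⟨h1 ha, hdisj a ha⟩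
  refine ⟨U', hU', h1 hxW', ?_, by rwa [hUZ]⟩
  by_contra hemp
  rw [Set.not_nonempty_iff_eq_empty] at hemp
  have hsub : U' ⊆ U := by
    intro a ha
    rcases h2 ha with h | h
    · exact (hW's h).1
    · exact absurd (show a ∈ U' ∩ Z from ⟨ha, h⟩) (by simp [hemp])
  have : U' = U := hU'.eq_of_subset_isCircuit hU hsub
  rw [this] at hemp
  rw [hemp] at hne
  exact Set.not_nonempty_empty hne

/-- a circuit not inside `Z` whose part outside `Z` is contained in a circuit of `R ／ Z` -/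
lemma diff_eq_of_subset (hU : R.IsCircuit U) (hP : (R ／ Z).IsCircuit P) (hUZ : ¬ U ⊆ Z)
    (hsub : U \ Z ⊆ P) : U \ Z = P := by
  obtain ⟨y, hy, hyZ⟩ := Set.not_subset.1 hUZ
  obtain ⟨W', hW', hyW', hW's⟩ := exists_circuit_contract hU hy hyZ
  have : W' = P := hW'.eq_of_subset_isCircuit hP (hW's.trans hsub)
  rw [this] at hW's
  exact hsub.antisymm hW's

/-- given an ear `P` attached to the circuit `Z`, and `k ∈ U ∩ Z` for a circuit `U` with
`U \ Z = P`, and `e ∈ Z \ U`, there is a circuit through `e` avoiding `k` with the same ear. -/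
lemma exists_swap (hZ : R.IsCircuit Z) (hU : R.IsCircuit U) (hP : (R ／ Z).IsCircuit (U \ Z))
    {k : α} (hkU : k ∈ U) (hkZ : k ∈ Z) (heZ : e ∈ Z) (heU : e ∉ U) :
    ∃ U', R.IsCircuit U' ∧ e ∈ U' ∧ k ∉ U' ∧ U' \ Z = U \ Z := by
  obtain ⟨U', hU's, hU', heU'⟩ := hZ.strong_elimination hU hkZ hkU heZ heU
  have hk : k ∉ U' := fun h => (hU's h).2 rfl
  refine ⟨U', hU', heU', hk, ?_⟩
  refine diff_eq_of_subset hU' hP ?_ ?_
  · intro hsub
    have : U' = Z := hU'.eq_of_subset_isCircuit hZ hsub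
    exact hk (this ▸ hkZ)
  · rintro a ⟨ha, haZ⟩
    rcases (hU's ha).1 with h | h
    · exact absurd h haZ
    · exact ⟨h, haZ⟩

lemma exists_root_ear (hZ : R.IsCircuit Z) (he : e ∈ Z) (hx : x ∈ S R e) (hxZ : x ∉ Z) :
    ∃ U, R.IsCircuit U ∧ e ∈ U ∧ x ∈ U ∧ (R ／ Z).IsCircuit (U \ Z) := by
  obtain ⟨U₀, hU₀, heU₀, hxU₀⟩ := hx.2
  obtain ⟨U, hU, hxU, ⟨k, hkU, hkZ⟩, hP⟩ := exists_ear (Z := Z) hU₀ hxU₀ hxZ ⟨e, heU₀, he⟩
  by_cases heU : e ∈ U
  · exact ⟨U, hU, heU, hxU, hP⟩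
  · obtain ⟨U', hU', heU', hk, hd⟩ := exists_swap hZ hU hP hkU hkZ he heU
    refine ⟨U', hU', heU', ?_, by rwa [hd]⟩
    have : x ∈ U' \ Z := by rw [hd]; exact ⟨hxU, hxZ⟩
    exact this.1

/-- Contract all of the circuit `Z` except `e` and `f`. -/
abbrev Q (R : Matroid α) (Z : Set α) (e f : α) : Matroid α := R ／ (Z \ {e, f})

lemma Q_pair (hZ : R.IsCircuit Z) (he : e ∈ Z) (hf : f ∈ Z) : (Q R Z e f).IsCircuit {e, f} :=
  hZ.contract_sdiff_isCircuit ⟨e, by simp⟩ (by rintro a (rfl | rfl) <;> assumption)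

lemma Q_contract (he : e ∈ Z) (hf : f ∈ Z) : (Q R Z e f) ／ {e, f} = R ／ Z := by
  unfold Q
  rw [Matroid.contract_contract]
  congr 1
  ext a
  constructor
  · rintro (h | rfl | rfl)
    · exact h.1
    · exact he
    · exact hf
  · intro ha
    by_cases h : a ∈ ({e, f} : Set α)
    · exact Or.inr h
    · exact Or.inl ⟨ha, h⟩

lemma Q_circuit (hZ : R.IsCircuit Z) (he : e ∈ Z) (hf : f ∈ Z) (hfe : f ≠ e)
    (hU : (Q R Z e f).IsCircuit U) (heU : e ∈ U) :
    U = {e, f} ∨ (f ∉ U ∧ (R ／ Z).IsCircuit (U \ {e})) := by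
  have hpair := Q_pair hZ he hf
  by_cases hfU : f ∈ U
  · left
    exact (hpair.eq_of_subset_isCircuit hU (by rintro a (rfl | rfl) <;> assumption)).symm
  right
  refine ⟨hfU, ?_⟩
  have hUnt : U.Nontrivial := by
    by_contra hnt
    rw [Set.not_nontrivial_iff] at hnt
    have hUe : U = {e} := hnt.eq_singleton_of_mem heU
    have : U = {e, f} := hU.eq_of_subset_isCircuit hpair (by rw [hUe]; simp)
    exact hfU (this ▸ (by simp))
  have h1 : ((Q R Z e f) ／ {e}).IsCircuit (U \ {e}) := hU.contractElem_isCircuit hUnt heU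
  have h2 : ((Q R Z e f) ／ {e}).IsCircuit {f} := by
    have := hpair.contractElem_isCircuit ⟨e, by simp, f, by simp, hfe.symm⟩ (show e ∈ _ by simp)
    have hs : ({e, f} : Set α) \ {e} = {f} := by
      ext a
      simp only [Set.mem_sdiff, Set.mem_insert_iff, Set.mem_singleton_iff]
      constructor
      · rintro ⟨h | h, h'⟩
        · exact absurd h h'
        · exact h
      · rintro rfl
        exact ⟨Or.inr rfl, hfe⟩
    rwa [hs] at this
  have h3 : ((Q R Z e f) ／ {e}) ／ {f} = ((Q R Z e f) ／ {e}) ＼ {f} := by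
    refine Matroid.contract_eq_delete_of_subset_loops ?_
    rw [Matroid.singleton_isCircuit] at h2
    simpa using h2
  have h4 : (((Q R Z e f) ／ {e}) ＼ {f}).IsCircuit (U \ {e}) := by
    rw [← Matroid.circuit_iff_delete_of_disjoint]
    · exact h1
    · rw [Set.disjoint_singleton_right]
      exact fun h => hfU h.1
  rw [← h3, Matroid.contract_contract] at h4
  rwa [← Q_contract he hf, Set.insert_eq]

lemma Q_insert (hZ : R.IsCircuit Z) (he : e ∈ Z) (hf : f ∈ Z) (hU : R.IsCircuit U)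
    (heU : e ∈ U) (hfU : f ∉ U) (hP : (R ／ Z).IsCircuit (U \ Z)) :
    (Q R Z e f).IsCircuit (insert e (U \ Z)) := by
  have hfe : f ≠ e := fun h => hfU (h ▸ heU)
  obtain ⟨W', hW', heW', hW's⟩ := exists_circuit_contract (X := Z \ {e, f}) hU heU (by simp)
  have hfW' : f ∉ W' := fun h => hfU (hW's h).1
  rcases Q_circuit hZ he hf hfe hW' heW' with h | ⟨-, h⟩
  · exact absurd (h ▸ (by simp : f ∈ ({e, f} : Set α))) hfW'
  · have hsub : W' \ {e} ⊆ U \ Z := by
      rintro a ⟨ha, hae⟩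
      have h1 := hW's ha
      refine ⟨h1.1, fun haZ => h1.2 ⟨haZ, ?_⟩⟩
      rintro (h | h)
      · exact hae h
      · exact hfU (h ▸ h1.1)
    have heq : W' \ {e} = U \ Z := h.eq_of_subset_isCircuit hP hsub
    rw [← heq, Set.insert_sdiff_singleton, Set.insert_eq_of_mem heW']
    exact hW'

lemma Q_lift (hZ : R.IsCircuit Z) (he : e ∈ Z) (hf : f ∈ Z) (hfe : f ≠ e)
    (hU : (Q R Z e f).IsCircuit U) (heU : e ∈ U) (hUne : U ≠ {e, f}) :
    ∃ U', R.IsCircuit U' ∧ e ∈ U' ∧ f ∉ U' ∧ U' \ Z = U \ {e} ∧ (R ／ Z).IsCircuit (U' \ Z) := by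
  obtain ⟨hfU, hP⟩ := (Q_circuit hZ he hf hfe hU heU).resolve_left hUne
  obtain ⟨U', hU', h1, h2⟩ := exists_circuit_of_contract hU
  have hfU' : f ∉ U' := by
    intro h
    rcases h2 h with h' | h'
    · exact hfU h'
    · exact h'.2 (by simp)
  have hUZ : ∀ a ∈ U, a ∈ Z → a = e := by
    intro a ha haZ
    by_contra hae
    have := hU.subset_ground ha
    rw [Matroid.contract_ground] at this
    refine this.2 ⟨haZ, ?_⟩
    rintro (h | h)
    · exact hae h
    · exact hfU (h ▸ ha)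
  have hd : U' \ Z = U \ {e} := by
    ext a
    constructor
    · rintro ⟨ha, haZ⟩
      rcases h2 ha with h | h
      · exact ⟨h, fun h' => haZ (h' ▸ he)⟩
      · exact absurd h.1 haZ
    · rintro ⟨ha, hae⟩
      exact ⟨h1 ha, fun haZ => hae (hUZ a ha haZ)⟩
  exact ⟨U', hU', h1 heU, hfU', hd, by rwa [hd]⟩

/-- The attachment set of (the bridge of) `x`. -/
def Att (R : Matroid α) (Z : Set α) (e x : α) : Set α :=
  {f | (f ∈ Z ∧ f ≠ e) ∧ x ∈ S (Q R Z e f) e}

lemma diff_subset_Att (hZ : R.IsCircuit Z) (he : e ∈ Z) (hU : R.IsCircuit U)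
    (heU : e ∈ U) (hP : (R ／ Z).IsCircuit (U \ Z)) (hx : x ∈ U \ Z) : Z \ U ⊆ Att R Z e x := by
  rintro f ⟨hf, hfU⟩
  refine ⟨⟨hf, fun h => hfU (h ▸ heU)⟩, fun h => hx.2 (h ▸ he), _, Q_insert hZ he hf hU heU hfU hP,
    by simp, Or.inr hx⟩

lemma Att_subset_of_circuit (he : e ∈ Z) (hP : (R ／ Z).IsCircuit P) (hx : x ∈ P) (hy : y ∈ P) :
    Att R Z e x ⊆ Att R Z e y := by
  rintro f ⟨⟨hf, hfe⟩, hxS⟩
  refine ⟨⟨hf, hfe⟩, ?_⟩
  rw [← Q_contract he hf] at hP
  obtain ⟨P', hP', h1, h2⟩ := exists_circuit_of_contract hP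
  have hye : y ≠ e := by
    rintro rfl
    have := hP.subset_ground hy
    rw [Matroid.contract_ground] at this
    exact this.2 (by simp)
  exact mem_S_trans hxS ⟨P', hP', h1 hx, h1 hy⟩ hye

lemma Att_eq_of_circuit (he : e ∈ Z) (hP : (R ／ Z).IsCircuit P) (hx : x ∈ P) (hy : y ∈ P) :
    Att R Z e x = Att R Z e y :=
  (Att_subset_of_circuit he hP hx hy).antisymm (Att_subset_of_circuit he hP hy hx)

lemma Att_self (hZ : R.IsCircuit Z) (he : e ∈ Z) (hf : f ∈ Z) (hfe : f ≠ e) :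
    Att R Z e f = {f} := by
  ext h
  constructor
  · rintro ⟨⟨hh, hhe⟩, hfS⟩
    have := S_subset_ground hfS
    rw [Matroid.contract_ground] at this
    by_contra hne
    refine this.2 ⟨hf, ?_⟩
    rintro (h' | h')
    · exact hfe h'
    · exact hne h'.symm
  · rintro rfl
    exact ⟨⟨hf, hfe⟩, hfe, _, Q_pair hZ he hf, by simp, by simp⟩

lemma S_Q_subset (hxS : x ∈ S (Q R Z e f) e) : x ∈ S R e := by
  obtain ⟨hxe, U, hU, heU, hxU⟩ := hxS
  obtain ⟨U', hU', h1, h2⟩ := exists_circuit_of_contract hU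
  exact ⟨hxe, U', hU', h1 heU, h1 hxU⟩

lemma S_Q_diff (hf : f ∈ Z) (hfe : f ≠ e) :
    S (Q R Z e f) e \ {e, f} = {x | x ∈ S R e \ Z ∧ f ∈ Att R Z e x} := by
  ext x
  constructor
  · rintro ⟨hx, hxef⟩
    have hg := S_subset_ground hx
    rw [Matroid.contract_ground] at hg
    exact ⟨⟨S_Q_subset hx, fun hxZ => hg.2 ⟨hxZ, hxef⟩⟩, ⟨hf, hfe⟩, hx⟩
  · rintro ⟨⟨h1, h2⟩, -, h3⟩
    refine ⟨h3, ?_⟩
    rintro (h | h)
    · exact h1.1 h
    · exact h2 (h ▸ hf)

lemma Att_subset (R : Matroid α) (Z : Set α) (e x : α) : Att R Z e x ⊆ Z \ {e} :=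
  fun _ hf => ⟨hf.1.1, hf.1.2⟩

lemma Att_nonempty (hZ : R.IsCircuit Z) (he : e ∈ Z) (hx : x ∈ S R e) (hxZ : x ∉ Z) :
    (Att R Z e x).Nonempty := by
  obtain ⟨U, hU, heU, hxU, hP⟩ := exists_root_ear hZ he hx hxZ
  have : ¬ Z ⊆ U := fun hsub => by
    have := hZ.eq_of_subset_isCircuit hU hsub
    exact hxZ (this ▸ hxU)
  obtain ⟨f, hf, hfU⟩ := Set.not_subset.1 this
  exact ⟨f, diff_subset_Att hZ he hU heU hP ⟨hxU, hxZ⟩ ⟨hf, hfU⟩⟩

lemma Ext.ear_eq (h : Ext R e v) (hZ : R.IsCircuit Z) (he : e ∈ Z) (hne : (Z \ {e}).Nonempty)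
    (hU : R.IsCircuit U) (heU : e ∈ U) (hUne : (U \ Z).Nonempty) :
    W v (U \ Z) = W v (Z \ U) := by
  have hUne' : (U \ {e}).Nonempty := by
    obtain ⟨a, ha, haZ⟩ := hUne
    exact ⟨a, ha, fun h => haZ (h ▸ he)⟩
  have h1 := h.circ_eq hZ he hne
  have h2 := h.circ_eq hU heU hUne'
  have h3 := W_inter_add_diff (v := v) (U \ {e}) Z
  have h4 := W_inter_add_diff (v := v) (Z \ {e}) U
  have h5 : (U \ {e}) \ Z = U \ Z := by
    ext a
    simp only [Set.mem_sdiff, Set.mem_singleton_iff]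
    constructor
    · rintro ⟨⟨h1, h2⟩, h3⟩
      exact ⟨h1, h3⟩
    · rintro ⟨h1, h2⟩
      exact ⟨⟨h1, fun h => h2 (h ▸ he)⟩, h2⟩
  have h6 : (Z \ {e}) \ U = Z \ U := by
    ext a
    simp only [Set.mem_sdiff, Set.mem_singleton_iff]
    constructor
    · rintro ⟨⟨h1, h2⟩, h3⟩
      exact ⟨h1, h3⟩
    · rintro ⟨h1, h2⟩
      exact ⟨⟨h1, fun h => h2 (h ▸ heU)⟩, h2⟩
  have h7 : (U \ {e}) ∩ Z = (Z \ {e}) ∩ U := by
    ext a
    simp only [Set.mem_sdiff, Set.mem_singleton_iff, Set.mem_inter_iff]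
    tauto
  rw [h5, h7] at h3
  rw [h6] at h4
  linarith

/-- **Bridge theorem**: contracting all but two elements `e`, `f` of a circuit through the root
of an extremal rooted matroid gives again an extremal rooted matroid, for the rescaled weights,
and every bridge has exactly two classes of attachments. -/
theorem bridge (h : Ext R e v) (hZ : R.IsCircuit Z) (he : e ∈ Z) (hne : (Z \ {e}).Nonempty) :
    (∀ f ∈ Z, f ≠ e → Ext (Q R Z e f) e (fun x => v x / W v (Att R Z e x))) ∧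
    (∀ U, R.IsCircuit U → e ∈ U → (R ／ Z).IsCircuit (U \ Z) → ∀ x ∈ U \ Z,
      Z \ U = Att R Z e x) := by
  set v' : α → ℝ := fun x => v x / W v (Att R Z e x) with hv'
  have hvZ : ∀ x ∈ Z \ {e}, 0 < v x := fun x hx => h.pos x (mem_S_of_circuit hZ he hx.1 hx.2)
  have hWnn : ∀ T : Set α, 0 ≤ W v T := fun T => W_nonneg fun x _ => h.nonneg x
  have hWA : ∀ x, (Att R Z e x).Nonempty → 0 < W v (Att R Z e x) := by
    rintro x ⟨f, hf⟩
    have := le_W_of_mem (v := v) (S := Att R Z e x) (fun y _ => h.nonneg y) hf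
    exact lt_of_lt_of_le (hvZ f (Att_subset _ _ _ _ hf)) this
  have hv'nn : ∀ x, 0 ≤ v' x := fun x => div_nonneg (h.nonneg x) (hWnn _)
  -- weights of circuits through e in the contraction
  have hcirc : ∀ f ∈ Z, f ≠ e → ∀ U, (Q R Z e f).IsCircuit U → e ∈ U → W v' (U \ {e}) ≤ 1 := by
    intro f hf hfe U hU heU
    by_cases hUef : U = {e, f}
    · have hs : U \ {e} = {f} := by
        rw [hUef]
        ext a
        simp only [Set.mem_sdiff, Set.mem_insert_iff, Set.mem_singleton_iff]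
        constructor
        · rintro ⟨h | h, h'⟩
          · exact absurd h h'
          · exact h
        · rintro rfl
          exact ⟨Or.inr rfl, hfe⟩
      rw [hs, W_singleton, hv']
      simp only
      rw [Att_self hZ he hf hfe, W_singleton, div_self]
      exact (hvZ f ⟨hf, hfe⟩).ne'
    · obtain ⟨U', hU', heU', hfU', hd, hP⟩ := Q_lift hZ he hf hfe hU heU hUef
      rw [← hd]
      obtain ⟨x, hx⟩ := hP.nonempty
      have hA : ∀ y ∈ U' \ Z, v' y = v y / W v (Att R Z e x) := by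
        intro y hy
        simp only [hv']
        rw [Att_eq_of_circuit he hP hy hx]
      rw [W_congr hA, W_div_const, h.ear_eq hZ he hne hU' heU' hP.nonempty]
      refine div_le_one_of_le₀ ?_ (hWnn _)
      exact W_mono_set (fun y _ => h.nonneg y) (diff_subset_Att hZ he hU' heU' hP hx)
  -- the total weight
  have hSZ : S R e ∩ Z = Z \ {e} := by
    ext a
    constructor
    · rintro ⟨h1, h2⟩
      exact ⟨h2, h1.1⟩
    · rintro ⟨h1, h2⟩
      exact ⟨mem_S_of_circuit hZ he h1 h2, h1⟩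
  have hT : W v (S R e) = 1 + W v (S R e \ Z) := by
    have := W_inter_add_diff (v := v) (S R e) Z
    rw [hSZ, h.circ_eq hZ he hne] at this
    linarith
  have hle : ∀ f ∈ Z \ {e}, 1 + W v' {x | x ∈ S R e \ Z ∧ f ∈ Att R Z e x} ≤ W v (S R e) := by
    rintro f ⟨hf, hfe⟩
    have hfe' : f ≠ e := hfe
    obtain ⟨D, hD, heD, hDW⟩ := rt_plus hv'nn (hcirc f hf hfe') (Q_pair hZ he hf) (by simp)
      ⟨f, by simp, hfe⟩
    rw [S_Q_diff hf hfe'] at hDW
    exact hDW.trans (h.cocirc D (cocircuit_contract_iff.1 hD).1 heD)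
  -- double counting
  have hdc : W (fun f => v f * W v' {x | x ∈ S R e \ Z ∧ f ∈ Att R Z e x}) (Z \ {e}) =
      W v (S R e \ Z) := by
    rw [W_double (Z \ {e}) (S R e \ Z) (fun x f => f ∈ Att R Z e x) v' v]
    refine W_congr fun x hx => ?_
    have hs : {f | f ∈ Z \ {e} ∧ f ∈ Att R Z e x} = Att R Z e x := by
      ext f
      exact ⟨fun h => h.2, fun h => ⟨Att_subset _ _ _ _ h, h⟩⟩
    rw [hs]
    simp only [hv']
    rw [div_mul_cancel₀]
    exact (hWA x (Att_nonempty hZ he hx.1 hx.2)).ne'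
  have hsum : W (fun f => v f * (1 + W v' {x | x ∈ S R e \ Z ∧ f ∈ Att R Z e x})) (Z \ {e}) =
      W v (S R e) := by
    have : (fun f => v f * (1 + W v' {x | x ∈ S R e \ Z ∧ f ∈ Att R Z e x})) =
        fun f => v f + v f * W v' {x | x ∈ S R e \ Z ∧ f ∈ Att R Z e x} := by
      funext f; ring
    rw [this, W_add, hdc, h.circ_eq hZ he hne, hT]
  have heq : ∀ f ∈ Z \ {e}, v f * (1 + W v' {x | x ∈ S R e \ Z ∧ f ∈ Att R Z e x}) =
      v f * W v (S R e) := by
    refine W_eq_pointwise (fun f hf => mul_le_mul_of_nonneg_left (hle f hf) (h.nonneg f)) ?_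
    rw [hsum]
    have : (fun f => v f * W v (S R e)) = fun f => W v (S R e) * v f := by
      funext f; ring
    rw [this, W_mul_left, h.circ_eq hZ he hne, mul_one]
  have heq' : ∀ f ∈ Z, f ≠ e → W v' (S (Q R Z e f) e) = W v (S R e) := by
    intro f hf hfe
    have h1 := mul_left_cancel₀ (hvZ f ⟨hf, hfe⟩).ne' (heq f ⟨hf, hfe⟩)
    rw [← S_Q_diff hf hfe] at h1
    rw [← h1, ← W_inter_add_diff (v := v') (S (Q R Z e f) e) {e, f}]
    congr 1
    have : S (Q R Z e f) e ∩ {e, f} = {f} := by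
      ext a
      constructor
      · rintro ⟨h1, h2 | h2⟩
        · exact absurd h2 h1.1
        · exact h2
      · rintro rfl
        exact ⟨mem_S_of_circuit (Q_pair hZ he hf) (by simp) (by simp) hfe, by simp⟩
    rw [this, W_singleton]
    simp only [hv']
    rw [Att_self hZ he hf hfe, W_singleton, div_self (hvZ f ⟨hf, hfe⟩).ne']
  have hExt : ∀ f ∈ Z, f ≠ e → Ext (Q R Z e f) e v' := by
    intro f hf hfe
    refine ⟨hv'nn, ?_, hcirc f hf hfe, ?_⟩
    · intro x hx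
      have hfA : f ∈ Att R Z e x := ⟨⟨hf, hfe⟩, hx⟩
      exact div_pos (h.pos x (S_Q_subset hx)) (hWA x ⟨f, hfA⟩)
    · intro D hD heD
      rw [heq' f hf hfe]
      exact h.cocirc D (cocircuit_contract_iff.1 hD).1 heD
  refine ⟨hExt, ?_⟩
  intro U hU heU hP x hx
  have hsub := diff_subset_Att hZ he hU heU hP hx
  have : ¬ Z ⊆ U := fun hsub => by
    have := hZ.eq_of_subset_isCircuit hU hsub
    exact hx.2 (this ▸ hx.1)
  obtain ⟨f, hf, hfU⟩ := Set.not_subset.1 this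
  have hfe : f ≠ e := fun h => hfU (h ▸ heU)
  have hQ := Q_insert hZ he hf hU heU hfU hP
  have hxe : x ≠ e := fun h => hx.2 (h ▸ he)
  have h1 := (hExt f hf hfe).circ_eq hQ (by simp) ⟨x, by right; exact hx, hxe⟩
  have hs : insert e (U \ Z) \ {e} = U \ Z := by
    ext a
    simp only [Set.mem_sdiff, Set.mem_insert_iff, Set.mem_singleton_iff]
    constructor
    · rintro ⟨h | h, h'⟩
      · exact absurd h h'
      · exact h
    · intro h
      exact ⟨Or.inr h, fun h' => h.2 (h' ▸ he)⟩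
  have hA : ∀ y ∈ U \ Z, v' y = v y / W v (Att R Z e x) := by
    intro y hy
    simp only [hv']
    rw [Att_eq_of_circuit he hP hy hx]
  rw [hs, W_congr hA, W_div_const, h.ear_eq hZ he hne hU heU hP.nonempty] at h1
  have hpos := hWA x ⟨f, hsub ⟨hf, hfU⟩⟩
  rw [div_eq_one_iff_eq hpos.ne'] at h1
  exact eq_of_W_eq (fun y hy => hvZ y (Att_subset _ _ _ _ hy)) hsub h1.ge

end Pool.Agent.Royle
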