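import Pool.Agent.Royle.Bridge

/-!
# Parallel pairs in extremal rooted matroids
-/

set_option autoImplicit false
set_option linter.unusedSectionVars false

open Set
open scoped Matroid

namespace Pool.Agent.Royle

variable {α : Type*} [Fintype α] {M N R : Matroid α} {C D X Y Z U P : Set α} {e f g h x y z : α}
  {v w : α → ℝ}

/-- A bridge consisting of one element which is a loop of `R ／ Z`: the element is parallel to an
element of `Z`. -/
theorem loop_parallel (h : Ext R e v) (hZ : R.IsCircuit Z) (he : e ∈ Z)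
    (hne : (Z \ {e}).Nonempty) (hx : x ∈ S R e) (hxZ : x ∉ Z) (hloop : (R ／ Z).IsCircuit {x})
    (hv : ∀ f ∈ Att R Z e x, v f = v x) : ∃ f ∈ Z, f ≠ e ∧ R.IsCircuit {x, f} := by
  obtain ⟨-, hB⟩ := bridge h hZ he hne
  obtain ⟨U, hU, heU, hxU, hP⟩ := exists_root_ear hZ he hx hxZ
  have hUZ : U \ Z = {x} :=
    (hloop.eq_of_subset_isCircuit hP (by simpa using ⟨hxU, hxZ⟩)).symm
  have hW := h.ear_eq hZ he hne hU heU hP.nonempty
  have hAtt := hB U hU heU hP x ⟨hxU, hxZ⟩
  rw [hUZ, W_singleton, hAtt, W_const_of hv] at hW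
  have hpos := h.pos x hx
  have hcard : (Att R Z e x).ncard = 1 := by
    have : ((Att R Z e x).ncard : ℝ) = 1 := by
      have h2 : (((Att R Z e x).ncard : ℝ) - 1) * v x = 0 := by linarith
      rcases mul_eq_zero.1 h2 with h3 | h3
      · linarith
      · exact absurd h3 hpos.ne'
    exact_mod_cast this
  obtain ⟨f, hf⟩ := Set.ncard_eq_one.1 hcard
  have hfA : f ∈ Att R Z e x := by rw [hf]; rfl
  have hfZ := Att_subset _ _ _ _ hfA
  refine ⟨f, hfZ.1, hfZ.2, ?_⟩
  obtain ⟨U₁, hU₁s, hU₁, hxU₁⟩ := hU.strong_elimination hZ heU he hxU hxZ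
  have heU₁ : e ∉ U₁ := fun h => (hU₁s h).2 rfl
  have hU₁Z : U₁ \ Z = {x} := by
    refine diff_eq_of_subset hU₁ hloop (fun hs => hxZ (hs hxU₁)) ?_
    rintro a ⟨ha, haZ⟩
    rcases (hU₁s ha).1 with h' | h'
    · have : a ∈ U \ Z := ⟨h', haZ⟩
      rwa [hUZ] at this
    · exact absurd h' haZ
  have hin : ∀ k ∈ U₁, k ∈ Z → k = f := by
    intro k hk hkZ
    obtain ⟨U₂, hU₂, heU₂, hkU₂, hd⟩ := exists_swap hZ hU₁ (by rwa [hU₁Z]) hk hkZ he heU₁
    rw [hU₁Z] at hd
    have h2 := hB U₂ hU₂ heU₂ (by rwa [hd]) x (by rw [hd]; rfl)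
    have h3 : k ∈ Z \ U₂ := ⟨hkZ, hkU₂⟩
    rw [h2, hf] at h3
    exact h3
  have hsub : U₁ ⊆ {x, f} := by
    intro a ha
    by_cases haZ : a ∈ Z
    · right; exact hin a ha haZ
    · left
      have : a ∈ U₁ \ Z := ⟨ha, haZ⟩
      rwa [hU₁Z] at this
  have hfU₁ : f ∈ U₁ := by
    by_contra hfU₁
    have hU₁x : U₁ = {x} := by
      refine Set.Subset.antisymm (fun a ha => ?_) (by simpa using hxU₁)
      rcases hsub ha with h' | h'
      · exact h'
      · exact absurd (h' ▸ ha) hfU₁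
    have : U₁ = U := hU₁.eq_of_subset_isCircuit hU (by rw [hU₁x]; simpa using hxU)
    exact heU₁ (this ▸ heU)
  have : U₁ = {x, f} := hsub.antisymm (by rintro a (rfl | rfl) <;> assumption)
  rwa [← this]

/-- no element of a nontrivial class is a loop -/
lemma not_loop_of_class (hx : ∃ y, y ≠ x ∧ Cn N x y) (hg : Cn N x g) : ¬ N.IsCircuit {g} := by
  intro hl
  obtain ⟨C, hC, hxC, hgC⟩ := hg
  have h1 : {g} = C := hl.eq_of_subset_isCircuit hC (by simpa using hgC)
  have hxg : x = g := by rw [← h1] at hxC; exact hxC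
  subst hxg
  obtain ⟨y, hyx, C', hC', hxC', hyC'⟩ := hx
  have h2 : {x} = C' := hl.eq_of_subset_isCircuit hC' (by simpa using hxC')
  rw [← h2] at hyC'
  exact hyx hyC'

lemma Q_contract_root (hZ : R.IsCircuit Z) (he : e ∈ Z) (hf : f ∈ Z) (hfe : f ≠ e) :
    (Q R Z e f) ／ {e} ＼ {f} = R ／ Z ∧ ((Q R Z e f) ／ {e}).IsCircuit {f} := by
  have hpair := Q_pair hZ he hf
  have h2 : ((Q R Z e f) ／ {e}).IsCircuit {f} := by
    have := hpair.contractElem_isCircuit ⟨e, by simp, f, by simp, hfe.symm⟩ (show e ∈ _ by simp)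
    have hs : ({e, f} : Set α) \ {e} = {f} := by
      ext a
      simp only [Set.mem_sdiff, Set.mem_insert_iff, Set.mem_singleton_iff]
      constructor
      · rintro ⟨h | h, h'⟩
        · exact absurd h h'
        · exact h
      · rintro rfl
        exact ⟨Or.inr rfl, hfe⟩
    rwa [hs] at this
  refine ⟨?_, h2⟩
  have h3 : ((Q R Z e f) ／ {e}) ／ {f} = ((Q R Z e f) ／ {e}) ＼ {f} := by
    refine Matroid.contract_eq_delete_of_subset_loops ?_
    rw [Matroid.singleton_isCircuit] at h2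
    simpa using h2
  rw [← h3, Matroid.contract_contract, ← Set.insert_eq, Q_contract he hf]

lemma cn_Q_iff (hZ : R.IsCircuit Z) (he : e ∈ Z) (hf : f ∈ Z) (hfe : f ≠ e) (hx : x ≠ f) :
    Cn ((Q R Z e f) ／ {e}) x y ↔ Cn (R ／ Z) x y := by
  obtain ⟨h1, h2⟩ := Q_contract_root hZ he hf hfe
  rw [← h1]
  constructor
  · rintro ⟨C, hC, hxC, hyC⟩
    have hfC : f ∉ C := by
      intro hfC
      have : {f} = C := h2.eq_of_subset_isCircuit hC (by simpa using hfC)
      rw [← this] at hxC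
      exact hx hxC
    exact ⟨C, by rwa [← Matroid.circuit_iff_delete_of_disjoint (by simpa using hfC)], hxC, hyC⟩
  · rintro ⟨C, hC, hxC, hyC⟩
    exact ⟨C, hC.of_delete, hxC, hyC⟩

/-- The statement of the parallel pair lemma. -/
def S3 (R : Matroid α) : Prop := ∀ (e : α) (v : α → ℝ), Ext R e v → ∀ x ∈ S R e,
  (∃ y, y ≠ x ∧ Cn (R ／ {e}) x y) → (∀ y, Cn (R ／ {e}) x y → v y = v x) →
  (∀ D, R.IsCocircuit D → D.ncard ≠ 2) →
  ∃ g h, g ≠ h ∧ R.IsCircuit {g, h} ∧ Cn (R ／ {e}) x g ∧ Cn (R ／ {e}) x h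

theorem bridge_parallel (hS3 : ∀ f ∈ Z, f ≠ e → S3 (Q R Z e f)) (hE : Ext R e v)
    (hZ : R.IsCircuit Z) (he : e ∈ Z) (hx : x ∈ S R e) (hxZ : x ∉ Z)
    (hne : (Z \ {e}).Nonempty)
    (hcl : ∃ y, y ≠ x ∧ Cn (R ／ Z) x y) (hv : ∀ y, Cn (R ／ Z) x y → v y = v x)
    (hco : ∀ D, R.IsCocircuit D → D.ncard ≠ 2) :
    ∃ g h, g ≠ h ∧ R.IsCircuit {g, h} ∧ Cn (R ／ Z) x g ∧ Cn (R ／ Z) x h := by
  obtain ⟨hExt, hB⟩ := bridge hE hZ he hne
  obtain ⟨f, hfA⟩ := Att_nonempty hZ he hx hxZ
  obtain ⟨hfZ, hfe⟩ := Att_subset _ _ _ _ hfA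
  have hfe' : f ≠ e := hfe
  have hxf : x ≠ f := fun h => hxZ (h ▸ hfZ)
  have hxQ : x ∈ S (Q R Z e f) e := hfA.2
  have hAtt : ∀ y, Cn (R ／ Z) x y → Att R Z e y = Att R Z e x := by
    rintro y ⟨C, hC, hxC, hyC⟩
    exact Att_eq_of_circuit he hC hyC hxC
  obtain ⟨g, h, hgh, hC, hg, hh⟩ := hS3 f hfZ hfe' e _ (hExt f hfZ hfe') x hxQ
    (by
      obtain ⟨y, hyx, hy⟩ := hcl
      exact ⟨y, hyx, (cn_Q_iff hZ he hfZ hfe' hxf).2 hy⟩)
    (by
      intro y hy
      rw [cn_Q_iff hZ he hfZ hfe' hxf] at hy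
      rw [hv y hy, hAtt y hy])
    (by
      intro D hD
      exact hco D (cocircuit_contract_iff.1 hD).1)
  rw [cn_Q_iff hZ he hfZ hfe' hxf] at hg hh
  refine ⟨g, h, hgh, ?_, hg, hh⟩
  have hgZ : g ∉ Z := by
    have := hg.mem_right
    rw [Matroid.contract_ground] at this
    exact this.2
  have hhZ : h ∉ Z := by
    have := hh.mem_right
    rw [Matroid.contract_ground] at this
    exact this.2
  -- {g, h} is a circuit of R ／ Z
  have hPgh : (R ／ Z).IsCircuit {g, h} := by
    have hge : g ∉ ({e, f} : Set α) := by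
      rintro (h' | h')
      · exact hgZ (h' ▸ he)
      · exact hgZ (h' ▸ hfZ)
    obtain ⟨W', hW', hgW', hW's⟩ := exists_circuit_contract (X := {e, f}) hC (by simp) hge
    rw [Q_contract he hfZ] at hW'
    have hhW' : h ∈ W' := by
      by_contra hhW'
      have : W' = {g} := by
        refine Set.Subset.antisymm (fun a ha => ?_) (by simpa using hgW')
        rcases (hW's ha).1 with h' | h'
        · exact h'
        · exact absurd (h' ▸ ha) hhW'
      exact not_loop_of_class hcl hg (this ▸ hW')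
    have : W' = {g, h} :=
      Set.Subset.antisymm (fun a ha => (hW's ha).1) (by rintro a (rfl | rfl) <;> assumption)
    rwa [← this]
  obtain ⟨V, hV, h1, h2⟩ := exists_circuit_of_contract hC
  have heV : e ∉ V := by
    intro heV
    rcases h2 heV with h' | h'
    · rcases h' with h' | h'
      · exact hgZ (h' ▸ he)
      · exact hhZ (h' ▸ he)
    · exact h'.2 (by simp)
  have hVZ : V \ Z = {g, h} := by
    refine Set.Subset.antisymm ?_ ?_
    · rintro a ⟨ha, haZ⟩
      rcases h2 ha with h' | h'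
      · exact h'
      · exact absurd h'.1 haZ
    · rintro a ha
      refine ⟨h1 ha, ?_⟩
      rcases ha with rfl | rfl <;> assumption
  by_cases hVZe : (V ∩ Z) = ∅
  · have : V = {g, h} := by
      rw [← hVZ]
      refine Set.Subset.antisymm (fun a ha => ⟨ha, fun haZ => ?_⟩) Set.sdiff_subset
      exact absurd (show a ∈ V ∩ Z from ⟨ha, haZ⟩) (by simp [hVZe])
    rwa [← this]
  exfalso
  obtain ⟨k, hkV, hkZ⟩ := Set.nonempty_iff_ne_empty.2 hVZe
  obtain ⟨U', hU', heU', hkU', hd⟩ := exists_swap hZ hV (by rwa [hVZ]) hkV hkZ he heV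
  rw [hVZ] at hd
  have hg' : g ∈ U' \ Z := by rw [hd]; simp
  have h3 := hB U' hU' heU' (by rwa [hd]) g hg'
  rw [hAtt g hg] at h3
  have hfU' : f ∉ U' := by
    rw [← h3] at hfA
    exact hfA.2
  have hQi := Q_insert hZ he hfZ hU' heU' hfU' (by rwa [hd])
  rw [hd] at hQi
  have : ({g, h} : Set α) = insert e {g, h} := hC.eq_of_subset_isCircuit hQi (Set.subset_insert _ _)
  have heg : e ∈ ({g, h} : Set α) := by rw [this]; simp
  rcases heg with h' | h'
  · exact hgZ (h' ▸ he)
  · exact hhZ (h' ▸ he)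

lemma cn_of_contract (h : Cn (M ／ X) x y) : Cn M x y := by
  obtain ⟨C, hC, hx, hy⟩ := h
  obtain ⟨C', hC', h1, h2⟩ := exists_circuit_of_contract hC
  exact ⟨C', hC', h1 hx, h1 hy⟩

lemma cn_contract_of_subset (hXY : X ⊆ Y) (h : Cn (M ／ Y) x y) : Cn (M ／ X) x y := by
  have : M ／ Y = M ／ X ／ (Y \ X) := by
    rw [Matroid.contract_contract, Set.union_sdiff_cancel hXY]
  rw [this] at h
  exact cn_of_contract h

/-- **Parallel pair lemma.** -/
theorem parallel_pair (n : ℕ) : ∀ R : Matroid α, R.E.ncard ≤ n → S3 R := by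
  induction n with
  | zero =>
    intro R hn e v hE x hx
    have : R.E = ∅ := by
      rw [← Set.ncard_eq_zero (Set.toFinite _)]; omega
    have h := S_subset_ground hx
    simp [this] at h
  | succ n ih =>
    intro R hn e v hE x hx hcl hv hco
    obtain ⟨hxe, Z, hZ, heZ, hxZ⟩ := hx
    have hx : x ∈ S R e := ⟨hxe, Z, hZ, heZ, hxZ⟩
    have hne : (Z \ {e}).Nonempty := ⟨x, hxZ, hxe⟩
    have hZnt : Z.Nontrivial := ⟨x, hxZ, e, heZ, hxe⟩
    have hP : (R ／ {e}).IsCircuit (Z \ {e}) := hZ.contractElem_isCircuit hZnt heZ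
    have hZcl : ∀ f ∈ Z, f ≠ e → Cn (R ／ {e}) x f := fun f hf hfe =>
      ⟨Z \ {e}, hP, ⟨hxZ, hxe⟩, hf, hfe⟩
    by_cases hA : ∀ y, Cn (R ／ {e}) x y → y ∈ Z
    · exfalso
      obtain ⟨y, hyx, hy⟩ := hcl
      have hyZ := hA y hy
      have hye : y ≠ e := by
        have := hy.mem_right
        rw [Matroid.contract_ground] at this
        exact fun h => this.2 (by simp [h])
      obtain ⟨Dx, hDx, hDxZ⟩ := exists_cocircuit_pair hZ heZ hxZ hxe.symm
      obtain ⟨Dy, hDy, hDyZ⟩ := exists_cocircuit_pair hZ heZ hyZ hye.symm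
      have h1 : e ∈ Dx ∩ Z := by rw [hDxZ]; simp
      have h2 : e ∈ Dy ∩ Z := by rw [hDyZ]; simp
      have h3 : x ∈ Dx ∩ Z := by rw [hDxZ]; simp
      have h4 : x ∉ Dy := by
        intro h
        have : x ∈ Dy ∩ Z := ⟨h, hxZ⟩
        rw [hDyZ] at this
        rcases this with h' | h'
        · exact hxe h'
        · exact hyx h'.symm
      obtain ⟨D, hDs, hD, hxD⟩ := cocircuit_strong_elimination hDx hDy h1.1 h2.1 h3.1 h4
      have heD : e ∉ D := fun h => (hDs h).2 rfl
      have hDc : (R ／ {e}).IsCocircuit D :=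
        cocircuit_contract_iff.2 ⟨hD, by simpa using heD⟩
      have hDZ : D ⊆ Z := by
        intro a ha
        by_cases hax : a = x
        · rw [hax]; exact hxZ
        · exact hA a (cn_of_cocircuit hDc hxD ha (fun h => hax h.symm))
      have hDsub : D ⊆ {x, y} := by
        intro a ha
        rcases (hDs ha).1 with h' | h'
        · have : a ∈ Dx ∩ Z := ⟨h', hDZ ha⟩
          rw [hDxZ] at this
          rcases this with h'' | h''
          · exact absurd (h'' ▸ ha) heD
          · left; exact h''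
        · have : a ∈ Dy ∩ Z := ⟨h', hDZ ha⟩
          rw [hDyZ] at this
          rcases this with h'' | h''
          · exact absurd (h'' ▸ ha) heD
          · right; exact h''
      obtain ⟨b, hbx, hbZ, hbD⟩ := exists_ne_mem_inter hZ hD hxZ hxD
      have hby : b = y := by
        rcases hDsub hbD with h' | h'
        · exact absurd h' hbx
        · exact h'
      subst hby
      have : D = {x, b} := hDsub.antisymm (by rintro a (rfl | rfl) <;> assumption)
      exact hco D hD (by rw [this]; exact Set.ncard_pair hbx.symm)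
    · push Not at hA
      obtain ⟨x', hx', hx'Z⟩ := hA
      have hx'e : x' ≠ e := fun h => hx'Z (h ▸ heZ)
      have hx'S : x' ∈ S R e := mem_S_trans hx (cn_of_contract hx') hx'e
      have hcomp : ∀ y, Cn (R ／ Z) x' y → Cn (R ／ {e}) x y := by
        intro y hy
        exact hx'.trans (cn_contract_of_subset (by simpa using heZ) hy)
      by_cases hcl' : ∃ y, y ≠ x' ∧ Cn (R ／ Z) x' y
      · have hS3 : ∀ f ∈ Z, f ≠ e → S3 (Q R Z e f) := by
          intro f hf hfe
          apply ih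
          have hlt : (Q R Z e f).E.ncard < R.E.ncard := by
            refine Set.ncard_lt_ncard ?_ (Set.toFinite _)
            rw [Matroid.contract_ground]
            refine ⟨Set.sdiff_subset, fun hsub => ?_⟩
            -- Z \ {e, f} is nonempty
            obtain ⟨y, hyx, hy⟩ := id hcl
            have hZf : ¬ Z ⊆ {e, f} := by
              intro hZs
              have hZe : Z \ {e} = {f} := by
                refine Set.Subset.antisymm ?_ (by simpa using ⟨hf, hfe⟩)
                rintro a ⟨ha, hae⟩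
                rcases hZs ha with h' | h'
                · exact absurd h' hae
                · exact h'
              rw [hZe] at hP
              exact not_loop_of_class hcl (hZcl f hf hfe) hP
            obtain ⟨a, ha, ha'⟩ := Set.not_subset.1 hZf
            exact (hsub (hZ.subset_ground ha)).2 ⟨ha, ha'⟩
          omega
        obtain ⟨g, h, hgh, hC, hg, hh⟩ := bridge_parallel hS3 hE hZ heZ hx'S hx'Z hne hcl'
          (fun y hy => by rw [hv y (hcomp y hy), hv x' hx']) hco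
        exact ⟨g, h, hgh, hC, hcomp g hg, hcomp h hh⟩
      · push Not at hcl'
        obtain ⟨U, hU, heU, hx'U, hPU⟩ := exists_root_ear hZ heZ hx'S hx'Z
        have hUZ : U \ Z = {x'} := by
          refine Set.Subset.antisymm ?_ (by simpa using ⟨hx'U, hx'Z⟩)
          intro a ha
          by_contra hax
          exact hcl' a hax ⟨U \ Z, hPU, ⟨hx'U, hx'Z⟩, ha⟩
        rw [hUZ] at hPU
        obtain ⟨f, hf, hfe, hC⟩ := loop_parallel hE hZ heZ hne hx'S hx'Z hPU (by
          intro f hf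
          have hf' := Att_subset _ _ _ _ hf
          rw [hv f (hZcl f hf'.1 hf'.2), hv x' hx'])
        exact ⟨x', f, fun h => hx'Z (h ▸ hf), hC, hx', hZcl f hf hfe⟩

theorem s3 (R : Matroid α) : S3 R := parallel_pair _ R le_rfl

end Pool.Agent.Royle
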