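import Pool.Agent.Royle.Ears
import Pool.Agent.Royle.Parallel

/-!
# Components of `M ／ C` for a largest circuit `C`, tight pairs and skew ears
-/

set_option autoImplicit false
set_option linter.unusedSectionVars false

open Set
open scoped Matroid

namespace Pool.Agent.Royle

variable {α : Type*} [Fintype α] {M N R : Matroid α} {C D X Y Z U P q : Set α}
  {e f g h i j k x y z : α} {v w lam : α → ℝ}

/-- The hypotheses on `M` and the largest circuit `C`. -/
structure Setup (M : Matroid α) (C : Set α) (d : ℕ) : Prop where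
  circ : M.IsCircuit C
  max : ∀ Z, M.IsCircuit Z → Z.ncard ≤ C.ncard
  conn : ∀ x ∈ M.E, ∀ y ∈ M.E, x ≠ y → Cn M x y
  simple : ∀ Z, M.IsCircuit Z → 3 ≤ Z.ncard
  cosimple : ∀ D, M.IsCocircuit D → 3 ≤ D.ncard
  cocirc : ∀ D, M.IsCocircuit D → D.ncard ≤ d
  big : C.ncard * d ≤ 2 * M.E.ncard

/-- The component of `M ／ C` of `x`. -/
def K (M : Matroid α) (C : Set α) (x : α) : Set α := {y | Cn (M ／ C) x y}

lemma K_eq (h : y ∈ K M C x) : K M C y = K M C x := by
  ext z
  constructor
  · intro hz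
    exact Cn.trans h hz
  · intro hz
    exact Cn.trans (Cn.symm h) hz

lemma K_notMem (h : y ∈ K M C x) : y ∉ C := by
  have := Cn.mem_right h
  rw [Matroid.contract_ground] at this
  exact this.2

lemma K_ground (h : y ∈ K M C x) : y ∈ M.E := by
  have := Cn.mem_right h
  rw [Matroid.contract_ground] at this
  exact this.1

/-- Nontrivial ears. -/
def NT (M : Matroid α) (C P : Set α) : Prop :=
  (M ／ C).IsCircuit P ∧ ∃ i ∈ C, ∃ j ∈ C, i ≠ j ∧ Sep M C P i j

lemma circuit_subset_K (hP : (M ／ C).IsCircuit P) (hx : x ∈ P) : P ⊆ K M C x :=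
  fun _ hy => ⟨P, hP, hx, hy⟩

lemma nt_of_circuit (hC : M.IsCircuit C) (hU : M.IsCircuit U) (hne : (U ∩ C).Nonempty)
    (hP : (M ／ C).IsCircuit (U \ C)) : NT M C (U \ C) := by
  obtain ⟨k, hkU, hkC⟩ := hne
  have : ¬ C ⊆ U := by
    intro hs
    have hCU := hC.eq_of_subset_isCircuit hU hs
    obtain ⟨x, hx⟩ := hP.nonempty
    rw [hCU] at hx
    exact hx.2 hx.1
  obtain ⟨l, hlC, hlU⟩ := Set.not_subset.1 this
  exact ⟨hP, k, hkC, l, hlC, fun h => hlU (h ▸ hkU), Q_insert hC hkC hlC hU hkU hlU hP⟩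

lemma Setup.exists_nt {d : ℕ} (h : Setup M C d) (hx : x ∈ M.E) (hxC : x ∉ C) :
    ∃ P, NT M C P ∧ x ∈ P := by
  obtain ⟨i, hi⟩ := h.circ.nonempty
  obtain ⟨U, hU, hxU, hiU⟩ := h.conn x hx i (h.circ.subset_ground hi) (fun h => hxC (h ▸ hi))
  obtain ⟨U', hU', hxU', hne, hP⟩ := exists_ear (Z := C) hU hxU hxC ⟨i, hiU, hi⟩
  exact ⟨U' \ C, nt_of_circuit h.circ hU' hne hP, hxU', hxC⟩

lemma Setup.mem_K_self {d : ℕ} (h : Setup M C d) (hx : x ∈ M.E) (hxC : x ∉ C) :
    x ∈ K M C x := by
  obtain ⟨P, hP, hxP⟩ := h.exists_nt hx hxC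
  exact ⟨P, hP.1, hxP, hxP⟩

open Classical in
/-- A largest nontrivial ear inside of `L`. -/
noncomputable def best (M : Matroid α) (C L : Set α) : Set α :=
  if h : {P | NT M C P ∧ P ⊆ L}.Nonempty then
    (Set.exists_max_image {P | NT M C P ∧ P ⊆ L} Set.ncard (Set.toFinite _) h).choose else ∅

lemma Setup.best_spec {d : ℕ} (h : Setup M C d) (hx : x ∈ M.E) (hxC : x ∉ C) :
    NT M C (best M C (K M C x)) ∧ best M C (K M C x) ⊆ K M C x ∧
      ∀ P, NT M C P → P ⊆ K M C x → P.ncard ≤ (best M C (K M C x)).ncard := by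
  have hne : {P | NT M C P ∧ P ⊆ K M C x}.Nonempty := by
    obtain ⟨P, hP, hxP⟩ := h.exists_nt hx hxC
    exact ⟨P, hP, circuit_subset_K hP.1 hxP⟩
  have := (Set.exists_max_image {P | NT M C P ∧ P ⊆ K M C x} Set.ncard
    (Set.toFinite _) hne).choose_spec
  unfold best
  rw [dif_pos hne]
  exact ⟨this.1.1, this.1.2, fun P h1 h2 => this.2 P ⟨h1, h2⟩⟩

lemma Setup.exists_reps {d : ℕ} (h : Setup M C d) : ∃ Y : Set α,
    (∀ y ∈ Y, y ∈ M.E ∧ y ∉ C ∧ y ∈ best M C (K M C y)) ∧
    (∀ x ∈ M.E, x ∉ C → ∃ y ∈ Y, K M C y = K M C x) ∧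
    (∀ y ∈ Y, ∀ y' ∈ Y, K M C y = K M C y' → y = y') := by
  obtain ⟨i₀, -⟩ := h.circ.nonempty
  have : Nonempty α := ⟨i₀⟩
  set r : Set α → α := fun L => Classical.epsilon (fun y => y ∈ best M C L) with hr
  have hrx : ∀ x ∈ M.E, x ∉ C → r (K M C x) ∈ best M C (K M C x) := by
    intro x hx hxC
    have h1 := (h.best_spec hx hxC).1.1.nonempty
    exact Classical.epsilon_spec h1
  have hrK : ∀ x ∈ M.E, x ∉ C → K M C (r (K M C x)) = K M C x := by
    intro x hx hxC
    exact K_eq ((h.best_spec hx hxC).2.1 (hrx x hx hxC))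
  refine ⟨{y | ∃ x ∈ M.E, x ∉ C ∧ y = r (K M C x)}, ?_, ?_, ?_⟩
  · rintro y ⟨x, hx, hxC, rfl⟩
    have h1 := (h.best_spec hx hxC).2.1 (hrx x hx hxC)
    refine ⟨K_ground h1, K_notMem h1, ?_⟩
    rw [hrK x hx hxC]
    exact hrx x hx hxC
  · intro x hx hxC
    exact ⟨_, ⟨x, hx, hxC, rfl⟩, hrK x hx hxC⟩
  · rintro y ⟨x, hx, hxC, rfl⟩ y' ⟨x', hx', hxC', rfl⟩ heq
    rw [hrK x hx hxC, hrK x' hx' hxC'] at heq
    rw [heq]

/-- The weight `1 / p` of an element, where `p` is the size of a largest nontrivial ear of its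
component. -/
noncomputable def wt (M : Matroid α) (C : Set α) (x : α) : ℝ :=
  1 / ((best M C (K M C x)).ncard : ℝ)

open Classical in
/-- The same with weight `1` on `C`. -/
noncomputable def wt' (M : Matroid α) (C : Set α) (x : α) : ℝ := if x ∈ C then 1 else wt M C x

lemma wt_nonneg : 0 ≤ wt M C x := by unfold wt; positivity

lemma wt'_nonneg : 0 ≤ wt' M C x := by
  unfold wt'; split_ifs
  · norm_num
  · exact wt_nonneg

lemma Setup.best_pos {d : ℕ} (h : Setup M C d) (hx : x ∈ M.E) (hxC : x ∉ C) :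
    0 < (best M C (K M C x)).ncard := by
  rw [Set.ncard_pos (Set.toFinite _)]
  exact (h.best_spec hx hxC).1.1.nonempty

lemma Setup.wt_pos {d : ℕ} (h : Setup M C d) (hx : x ∈ M.E) (hxC : x ∉ C) : 0 < wt M C x := by
  unfold wt
  have := h.best_pos hx hxC
  positivity

lemma wt_eq_of_mem (h : y ∈ K M C x) : wt M C y = wt M C x := by
  unfold wt; rw [K_eq h]

lemma W_wt_of_subset (hS : Z ⊆ K M C x) : W (wt M C) Z = (Z.ncard : ℝ) * wt M C x :=
  W_const_of fun _ hy => wt_eq_of_mem (hS hy)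

lemma wt'_of_notMem (h : x ∉ C) : wt' M C x = wt M C x := by simp [wt', h]
lemma wt'_of_mem (h : x ∈ C) : wt' M C x = 1 := by simp [wt', h]

lemma Setup.W_ear_le {d : ℕ} (h : Setup M C d) (hP : NT M C P) : W (wt M C) P ≤ 1 := by
  obtain ⟨x, hx⟩ := hP.1.nonempty
  have hPK := circuit_subset_K hP.1 hx
  have hxE := K_ground (hPK hx)
  have hxC := K_notMem (hPK hx)
  rw [W_wt_of_subset hPK]
  have h1 := (h.best_spec hxE hxC).2.2 P hP hPK
  have h2 := h.best_pos hxE hxC
  unfold wt
  rw [mul_one_div, div_le_one (by exact_mod_cast h2)]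
  exact_mod_cast h1

lemma Setup.W_circ_le {d : ℕ} (h : Setup M C d) (hi : i ∈ C) (hj : j ∈ C) (hij : i ≠ j) :
    ∀ Z, (Q M C i j).IsCircuit Z → i ∈ Z → W (wt' M C) (Z \ {i}) ≤ 1 := by
  intro Z hZ hiZ
  rcases Q_circuit h.circ hi hj hij.symm hZ hiZ with hZ' | ⟨hjZ, hP⟩
  · have : Z \ {i} = {j} := by
      rw [hZ']
      ext a
      simp only [Set.mem_sdiff, Set.mem_insert_iff, Set.mem_singleton_iff]
      constructor
      · rintro ⟨h | h, h'⟩
        · exact absurd h h'
        · exact h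
      · rintro rfl
        exact ⟨Or.inr rfl, hij.symm⟩
    rw [this, W_singleton, wt'_of_mem hj]
  · have hNT : NT M C (Z \ {i}) := by
      refine ⟨hP, i, hi, j, hj, hij, ?_⟩
      unfold Sep
      rwa [Set.insert_sdiff_singleton, Set.insert_eq_of_mem hiZ]
    have hc : W (wt' M C) (Z \ {i}) = W (wt M C) (Z \ {i}) := by
      refine W_congr fun x hx => wt'_of_notMem ?_
      have := hP.subset_ground hx
      rw [Matroid.contract_ground] at this
      exact this.2
    rw [hc]
    exact h.W_ear_le hNT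

/-- The set of elements outside of `C` separating `i` and `j`. -/
def Sp (M : Matroid α) (C : Set α) (i j : α) : Set α := S (Q M C i j) i \ {j}

lemma Sp_notMem (hx : x ∈ Sp M C i j) : x ∉ C := by
  intro hxC
  have := S_subset_ground hx.1
  rw [Matroid.contract_ground] at this
  refine this.2 ⟨hxC, ?_⟩
  rintro (h | h)
  · exact hx.1.1 h
  · exact hx.2 h

lemma Sp_ground (hx : x ∈ Sp M C i j) : x ∈ M.E := by
  have := S_subset_ground hx.1
  rw [Matroid.contract_ground] at this
  exact this.1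

lemma W_Sp : W (wt' M C) (Sp M C i j) = W (wt M C) (Sp M C i j) :=
  W_congr fun _ hx => wt'_of_notMem (Sp_notMem hx)

lemma Setup.K_subset_Sp {d : ℕ} (_h : Setup M C d) (hi : i ∈ C) (hj : j ∈ C)
    (hP : (M ／ C).IsCircuit P) (hsep : Sep M C P i j) (hx : x ∈ P) : K M C x ⊆ Sp M C i j := by
  intro z hz
  have hzC := K_notMem hz
  obtain ⟨T, hT, hxT, hzT⟩ := hz
  rw [← Q_contract hi hj] at hT
  obtain ⟨T', hT', h1, h2⟩ := exists_circuit_of_contract hT
  have hxi : x ≠ i := by
    rintro rfl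
    have := hP.subset_ground hx
    rw [Matroid.contract_ground] at this
    exact this.2 hi
  have hxS : x ∈ S (Q M C i j) i := mem_S_of_circuit hsep (by simp) (Or.inr hx) hxi
  refine ⟨mem_S_trans hxS ⟨T', hT', h1 hxT, h1 hzT⟩ (fun h => hzC (h ▸ hi)), ?_⟩
  exact fun h => hzC (h ▸ hj)

lemma Setup.cocirc_le {d : ℕ} (h : Setup M C d) (hD : (Q M C i j).IsCocircuit D) (hi : i ∈ D) :
    ((D \ {i}).ncard : ℝ) ≤ (d : ℝ) - 1 := by
  have h1 := h.cocirc D (cocircuit_contract_iff.1 hD).1
  have h2 := Set.ncard_sdiff_singleton_add_one hi (Set.toFinite _)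
  have h3 : (D \ {i}).ncard + 1 ≤ d := by omega
  have : ((D \ {i}).ncard : ℝ) + 1 ≤ d := by exact_mod_cast h3
  linarith

/-- the rooted bound for a pair -/
lemma Setup.W_Sp_le {d : ℕ} (h : Setup M C d) (hi : i ∈ C) (hj : j ∈ C) (hij : i ≠ j) :
    W (wt M C) (Sp M C i j) ≤ (d : ℝ) - 2 := by
  obtain ⟨D, hD, hiD, hDW⟩ := rt_plus (v := wt' M C) (fun _ => wt'_nonneg)
    (h.W_circ_le hi hj hij) (Q_pair h.circ hi hj) (by simp) ⟨j, by simp, hij.symm⟩
  have h1 := h.cocirc_le hD hiD
  have h2 : S (Q M C i j) i \ {i, j} = Sp M C i j := by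
    ext a
    constructor
    · rintro ⟨h1, h2⟩
      exact ⟨h1, fun h => h2 (by right; exact h)⟩
    · rintro ⟨h1, h2⟩
      refine ⟨h1, ?_⟩
      rintro (h | h)
      · exact h1.1 h
      · exact h2 h
  rw [h2, W_Sp] at hDW
  linarith

/-- the improved rooted bound for a pair separated by a short ear -/
lemma Setup.W_Sp_le' {d : ℕ} (h : Setup M C d) (hi : i ∈ C) (hj : j ∈ C) (hij : i ≠ j)
    (hq : (M ／ C).IsCircuit q) (hsep : Sep M C q i j) :
    W (wt M C) (Sp M C i j) + (1 - W (wt M C) q) ≤ (d : ℝ) - 2 := by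
  have hqC : ∀ a ∈ q, a ∉ C := by
    intro a ha
    have := hq.subset_ground ha
    rw [Matroid.contract_ground] at this
    exact this.2
  obtain ⟨a, ha⟩ := hq.nonempty
  have hai : a ≠ i := fun h => hqC a ha (h ▸ hi)
  have hsep' : (Q M C i j).IsCircuit (insert i q) := hsep
  obtain ⟨D, hD, hiD, hDW⟩ := rt_plus (v := wt' M C) (fun _ => wt'_nonneg)
    (h.W_circ_le hi hj hij) hsep' (by simp) ⟨a, Or.inr ha, hai⟩
  have h1 := h.cocirc_le hD hiD
  have hqS : q ⊆ Sp M C i j := by
    intro b hb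
    exact h.K_subset_Sp hi hj hq hsep ha (circuit_subset_K hq ha hb)
  have h2 : S (Q M C i j) i \ (insert i q) = insert j (Sp M C i j \ q) := by
    ext b
    constructor
    · rintro ⟨h1, h2⟩
      by_cases hbj : b = j
      · left; exact hbj
      · right; exact ⟨⟨h1, hbj⟩, fun h => h2 (by right; exact h)⟩
    · rintro (rfl | ⟨h1, h2⟩)
      · refine ⟨mem_S_of_circuit (Q_pair h.circ hi hj) (by simp) (by simp) hij.symm, ?_⟩
        rintro (h' | h')
        · exact hij h'.symm
        · exact hqC b h' hj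
      · refine ⟨h1.1, ?_⟩
        rintro (h' | h')
        · exact h1.1.1 h'
        · exact h2 h'
  have h3 : j ∉ Sp M C i j \ q := fun h => h.1.2 rfl
  have h4 : W (wt' M C) (Sp M C i j \ q) = W (wt M C) (Sp M C i j \ q) :=
    W_congr fun _ hx => wt'_of_notMem (Sp_notMem hx.1)
  rw [h2, W_insert h3, wt'_of_mem hj, h4, W_diff hqS] at hDW
  linarith

lemma W_biUnion {T : Set α} {L : α → Set α}
    (hd : ∀ x ∈ T, ∀ y ∈ T, x ≠ y → Disjoint (L x) (L y)) :
    W (fun y => W v (L y)) T = W v (⋃ y ∈ T, L y) := by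
  induction T, Set.toFinite T using Set.Finite.induction_on with
  | empty => simp
  | @insert a T haT _ ih =>
    rw [W_insert haT, ih (fun x hx y hy => hd x (Or.inr hx) y (Or.inr hy)),
      Set.biUnion_insert, W_union]
    rw [Set.disjoint_iUnion₂_right]
    intro b hb
    exact hd a (by simp) b (Or.inr hb) (fun h => haT (h ▸ hb))

/-- The setup together with representatives of the components. -/
structure Setup' (M : Matroid α) (C : Set α) (d : ℕ) (Y : Set α) : Prop extends Setup M C d where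
  mem : ∀ y ∈ Y, y ∈ M.E ∧ y ∉ C ∧ y ∈ best M C (K M C y)
  cover : ∀ x ∈ M.E, x ∉ C → ∃ y ∈ Y, K M C y = K M C x
  inj : ∀ y ∈ Y, ∀ y' ∈ Y, K M C y = K M C y' → y = y'

variable {d : ℕ}

lemma Setup'.K_disj (h : Setup' M C d Y) : ∀ x ∈ Y, ∀ y ∈ Y, x ≠ y →
    Disjoint (K M C x) (K M C y) := by
  intro x hx y hy hxy
  rw [Set.disjoint_left]
  intro a ha hb
  exact hxy (h.inj x hx y hy ((K_eq ha).symm.trans (K_eq hb)))

lemma Setup'.P_sub (h : Setup' M C d Y) (hy : y ∈ Y) : best M C (K M C y) ⊆ K M C y :=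
  (h.best_spec (h.mem y hy).1 (h.mem y hy).2.1).2.1

lemma Setup'.P_NT (h : Setup' M C d Y) (hy : y ∈ Y) : NT M C (best M C (K M C y)) :=
  (h.best_spec (h.mem y hy).1 (h.mem y hy).2.1).1

lemma Setup'.sum_K (h : Setup' M C d Y) :
    W (fun y => ((K M C y).ncard : ℝ)) Y = ((M.E \ C).ncard : ℝ) := by
  rw [W_ncard_biUnion h.K_disj]
  congr 2
  ext a
  simp only [Set.mem_iUnion, exists_prop]
  constructor
  · rintro ⟨y, hy, ha⟩
    exact ⟨K_ground ha, K_notMem ha⟩
  · rintro ⟨h1, h2⟩
    obtain ⟨y, hy, hK⟩ := h.cover a h1 h2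
    exact ⟨y, hy, hK ▸ h.mem_K_self h1 h2⟩

lemma Setup'.W_K (h : Setup' M C d Y) (hy : y ∈ Y) :
    W (wt M C) (K M C y) * ((best M C (K M C y)).ncard : ℝ) = ((K M C y).ncard : ℝ) := by
  rw [W_wt_of_subset subset_rfl]
  unfold wt
  have := h.best_pos (h.mem y hy).1 (h.mem y hy).2.1
  field_simp

lemma Setup'.circ_in_class (_h : Setup' M C d Y) {T : Set α} (hT : (M ／ C).IsCircuit T)
    (hx : x ∈ T) (hxK : x ∈ K M C y) : T ⊆ K M C y := by
  rw [← K_eq hxK]
  exact circuit_subset_K hT hx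

lemma Setup.C_nontrivial (h : Setup M C d) : C.Nontrivial := by
  have := h.simple C h.circ
  exact Set.one_lt_ncard_iff_nontrivial.1 (by omega)

/-- the basic sum over the components separated by their ears -/
lemma Setup'.sum_sep_le (h : Setup' M C d Y) (hi : i ∈ C) (hj : j ∈ C) (_hij : i ≠ j) :
    W (fun y => W (wt M C) (K M C y)) {y | y ∈ Y ∧ Sep M C (best M C (K M C y)) i j} ≤
      W (wt M C) (Sp M C i j) := by
  rw [W_biUnion (fun x hx y hy hxy => h.K_disj x hx.1 y hy.1 hxy)]
  refine W_mono_set (fun x _ => wt_nonneg) ?_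
  intro a ha
  obtain ⟨y, ⟨hy, hsep⟩, hay⟩ := Set.mem_iUnion₂.1 ha
  exact h.K_subset_Sp hi hj (h.P_NT hy).1 hsep (h.mem y hy).2.2 hay

lemma Setup.ncard_E (h : Setup M C d) : (M.E.ncard : ℝ) = ((M.E \ C).ncard : ℝ) + C.ncard := by
  have := Set.ncard_sdiff_add_ncard_of_subset h.circ.subset_ground (Set.toFinite _)
  exact_mod_cast this.symm

lemma Setup.big' (h : Setup M C d) :
    ((d : ℝ) - 2) * (C.ncard : ℝ) ≤ 2 * ((M.E \ C).ncard : ℝ) := by
  have h1 : ((C.ncard : ℝ)) * d ≤ 2 * M.E.ncard := by exact_mod_cast h.big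
  rw [h.ncard_E] at h1
  linarith

lemma Setup'.skew (h : Setup' M C d Y) : ∀ T, (M ／ C).IsCircuit T →
    T ⊆ ⋃ y ∈ Y, best M C (K M C y) → ∃ y ∈ Y, T = best M C (K M C y) := by
  intro T hT hTs
  obtain ⟨t, ht⟩ := hT.nonempty
  obtain ⟨y, hy, hty⟩ := Set.mem_iUnion₂.1 (hTs ht)
  refine ⟨y, hy, hT.eq_of_subset_isCircuit (h.P_NT hy).1 ?_⟩
  have hTK := h.circ_in_class hT ht (h.P_sub hy hty)
  intro a ha
  obtain ⟨y', hy', hay'⟩ := Set.mem_iUnion₂.1 (hTs ha)
  by_cases hyy : y = y'
  · rwa [hyy]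
  · exact absurd (h.P_sub hy' hay') (Set.disjoint_left.1 (h.K_disj y hy y' hy' hyy) (hTK ha))

open Classical in
/-- **Tight pairs**: every component has a tight pair separated by its chosen ear. -/
theorem Setup'.tight (h : Setup' M C d Y) (hy : y ∈ Y) :
    ∃ i ∈ C, ∃ j ∈ C, i ≠ j ∧ Sep M C (best M C (K M C y)) i j ∧
      W (wt M C) (Sp M C i j) = (d : ℝ) - 2 := by
  by_contra hcon
  push Not at hcon
  -- a positive lower bound for the gaps
  have hgap : ∃ η : ℝ, 0 < η ∧ ∀ i ∈ C, ∀ j ∈ C, i ≠ j → Sep M C (best M C (K M C y)) i j →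
      W (wt M C) (Sp M C i j) + η ≤ (d : ℝ) - 2 := by
    set I : Set (α × α) := {p | p.1 ∈ C ∧ p.2 ∈ C ∧ p.1 ≠ p.2 ∧
      Sep M C (best M C (K M C y)) p.1 p.2} with hI
    obtain ⟨-, i, hi, j, hj, hij, hsep⟩ := h.P_NT hy
    obtain ⟨p, hp, hmin⟩ := Set.exists_min_image I
      (fun p => (d : ℝ) - 2 - W (wt M C) (Sp M C p.1 p.2)) (Set.toFinite _)
      ⟨(i, j), hi, hj, hij, hsep⟩
    refine ⟨(d : ℝ) - 2 - W (wt M C) (Sp M C p.1 p.2), ?_, ?_⟩
    · have h1 := hcon p.1 hp.1 p.2 hp.2.1 hp.2.2.1 hp.2.2.2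
      have h2 := h.W_Sp_le hp.1 hp.2.1 hp.2.2.1
      have := lt_of_le_of_ne h2 h1
      linarith
    · intro i hi j hj hij hsep
      have := hmin (i, j) ⟨hi, hj, hij, hsep⟩
      simp only at this
      linarith
  obtain ⟨η, hη, hgap⟩ := hgap
  have hmain := ears_ineq h.circ h.max h.C_nontrivial Y (fun y => best M C (K M C y))
    (fun y hy => (h.mem y hy).2.2) (fun y hy => (h.P_NT hy).1)
    (fun x hx z hz hxz => (h.K_disj x hx z hz hxz).mono (h.P_sub hx) (h.P_sub hz))
    h.skew (fun y hy => (h.P_NT hy).2)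
    (fun z => W (wt M C) (K M C z) + (if z = y then η else 0))
    (by
      intro z hz
      have : 0 ≤ W (wt M C) (K M C z) := W_nonneg fun _ _ => wt_nonneg
      split_ifs <;> linarith)
    (δ := (d : ℝ) - 2)
    (by
      intro i hi j hj hij
      rw [W_add]
      have h1 := h.sum_sep_le hi hj hij
      by_cases hsep : Sep M C (best M C (K M C y)) i j
      · have h2 := hgap i hi j hj hij hsep
        have h3 : W (fun z => if z = y then η else 0)
            {z | z ∈ Y ∧ Sep M C (best M C (K M C z)) i j} ≤ η := by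
          have : W (fun z => if z = y then η else 0)
              {z | z ∈ Y ∧ Sep M C (best M C (K M C z)) i j} =
              W (fun z => if z = y then η else 0) {y} := by
            rw [← W_diff_add (v := fun z => if z = y then η else 0) (S := {y})
              (T := {z | z ∈ Y ∧ Sep M C (best M C (K M C z)) i j})
              (by simpa using ⟨hy, hsep⟩)]
            have : W (fun z => if z = y then η else 0)
                ({z | z ∈ Y ∧ Sep M C (best M C (K M C z)) i j} \ {y}) = 0 := by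
              rw [W_const_of (c := 0)]
              · simp
              · rintro z ⟨-, hz⟩
                have : z ≠ y := hz
                simp [this]
            rw [this, zero_add]
          rw [this, W_singleton]
          simp
        linarith
      · have h2 := h.W_Sp_le hi hj hij
        have h3 : W (fun z => if z = y then η else 0)
            {z | z ∈ Y ∧ Sep M C (best M C (K M C z)) i j} = 0 := by
          rw [W_const_of (c := 0)]
          · simp
          · rintro z ⟨-, hz⟩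
            have : z ≠ y := fun h => hsep (h ▸ hz)
            simp [this]
        rw [h3]
        linarith)
  have hsum : W (fun z => (W (wt M C) (K M C z) + (if z = y then η else 0)) *
      ((best M C (K M C z)).ncard : ℝ)) Y =
      ((M.E \ C).ncard : ℝ) + η * ((best M C (K M C y)).ncard : ℝ) := by
    have h1 : W (fun z => (W (wt M C) (K M C z) + (if z = y then η else 0)) *
      ((best M C (K M C z)).ncard : ℝ)) Y = W (fun z => ((K M C z).ncard : ℝ) +
        (if z = y then η * ((best M C (K M C y)).ncard : ℝ) else 0)) Y := by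
      refine W_congr fun z hz => ?_
      rw [add_mul, h.W_K hz]
      congr 1
      split_ifs with hzy
      · rw [hzy]
      · ring
    rw [h1, W_add, h.sum_K]
    congr 1
    rw [← W_diff_add (v := fun z => if z = y then η * ((best M C (K M C y)).ncard : ℝ) else 0)
      (S := {y}) (T := Y) (by simpa using hy), W_singleton]
    have : W (fun z => if z = y then η * ((best M C (K M C y)).ncard : ℝ) else 0) (Y \ {y})
        = 0 := by
      rw [W_const_of (c := 0)]
      · simp
      · rintro z ⟨-, hz⟩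
        have : z ≠ y := hz
        simp [this]
    rw [this]
    simp
  rw [hsum] at hmain
  have h1 := h.big'
  have h2 := h.best_pos (h.mem y hy).1 (h.mem y hy).2.1
  have h3 : 0 < η * ((best M C (K M C y)).ncard : ℝ) := by positivity
  linarith

open Classical in
/-- **Skew ears**: no shorter nontrivial ear is skew to the chosen ear of a component. -/
theorem Setup'.no_skew (h : Setup' M C d Y) (hy : y ∈ Y) (hq : NT M C q)
    (hqK : q ⊆ K M C y) (hlt : q.ncard < (best M C (K M C y)).ncard)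
    (hdisj : Disjoint (best M C (K M C y)) q)
    (hsk : ∀ T, (M ／ C).IsCircuit T → T ⊆ best M C (K M C y) ∪ q →
      T = best M C (K M C y) ∨ T = q) : False := by
  obtain ⟨z, hz⟩ := hq.1.nonempty
  have hzK := hqK hz
  have hzY : z ∉ Y := by
    intro hzY
    have : z = y := h.inj z hzY y hy (K_eq hzK)
    rw [this] at hz
    exact Set.disjoint_left.1 hdisj (h.mem y hy).2.2 hz
  have hne : ∀ x ∈ Y, x ≠ z := fun x hx hxz => hzY (hxz ▸ hx)
  set P : α → Set α := fun x => if x = z then q else best M C (K M C x) with hPdef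
  have hPz : P z = q := by simp [hPdef]
  have hPY : ∀ x ∈ Y, P x = best M C (K M C x) := fun x hx => by simp [hPdef, hne x hx]
  have hPYK : ∀ x ∈ Y, P x ⊆ K M C x := fun x hx => by rw [hPY x hx]; exact h.P_sub hx
  set ε : ℝ := 1 - W (wt M C) q with hε
  have hWq : W (wt M C) q * ((best M C (K M C y)).ncard : ℝ) = (q.ncard : ℝ) := by
    rw [W_wt_of_subset hqK]
    unfold wt
    have := h.best_pos (h.mem y hy).1 (h.mem y hy).2.1
    field_simp
  have hε0 : 0 < ε := by
    have h1 : (q.ncard : ℝ) < ((best M C (K M C y)).ncard : ℝ) := by exact_mod_cast hlt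
    have h2 : (0 : ℝ) < ((best M C (K M C y)).ncard : ℝ) := by
      exact_mod_cast h.best_pos (h.mem y hy).1 (h.mem y hy).2.1
    rw [← hWq] at h1
    have : W (wt M C) q < 1 := by
      by_contra hge
      push Not at hge
      nlinarith
    linarith
  set lam : α → ℝ := fun x => if x = z then ε else W (wt M C) (K M C x) with hlam
  have hlamz : lam z = ε := by simp [hlam]
  have hlamY : ∀ x ∈ Y, lam x = W (wt M C) (K M C x) := fun x hx => by simp [hlam, hne x hx]
  have hUn : (⋃ x ∈ insert z Y, P x) = q ∪ ⋃ x ∈ Y, best M C (K M C x) := by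
    rw [Set.biUnion_insert, hPz]
    congr 1
    exact Set.iUnion₂_congr fun x hx => hPY x hx
  have hmain := ears_ineq h.circ h.max h.C_nontrivial (insert z Y) P
    (by
      rintro x (rfl | hx)
      · rwa [hPz]
      · rw [hPY x hx]; exact (h.mem x hx).2.2)
    (by
      rintro x (rfl | hx)
      · rw [hPz]; exact hq.1
      · rw [hPY x hx]; exact (h.P_NT hx).1)
    (by
      have key : ∀ x ∈ Y, Disjoint (P x) q := by
        intro x hx
        by_cases hxy : x = y
        · rw [hPY x hx, hxy]; exact hdisj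
        · exact (h.K_disj x hx y hy hxy).mono (hPYK x hx) hqK
      rintro x (rfl | hx) x' (rfl | hx') hne'
      · exact absurd rfl hne'
      · rw [hPz]; exact (key x' hx').symm
      · rw [hPz]; exact key x hx
      · exact (h.K_disj x hx x' hx' hne').mono (hPYK x hx) (hPYK x' hx'))
    (by
      intro T hT hTs
      rw [hUn] at hTs
      obtain ⟨t, ht⟩ := hT.nonempty
      -- the class of T
      have hcase : ∃ y' ∈ Y, T ⊆ K M C y' := by
        rcases hTs ht with h' | h'
        · exact ⟨y, hy, h.circ_in_class hT ht (hqK h')⟩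
        · obtain ⟨y', hy', hty⟩ := Set.mem_iUnion₂.1 h'
          exact ⟨y', hy', h.circ_in_class hT ht (h.P_sub hy' hty)⟩
      obtain ⟨y', hy', hTK⟩ := hcase
      have hTP : T ⊆ best M C (K M C y') ∪ q := by
        intro a ha
        rcases hTs ha with h' | h'
        · right; exact h'
        · left
          obtain ⟨x, hx, hax⟩ := Set.mem_iUnion₂.1 h'
          by_cases hxy : x = y'
          · rwa [← hxy]
          · exact absurd (hTK ha) (Set.disjoint_left.1 (h.K_disj x hx y' hy' hxy)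
              (h.P_sub hx hax))
      by_cases hyy : y' = y
      · rw [hyy] at hTP
        rcases hsk T hT hTP with h' | h'
        · exact ⟨y, Or.inr hy, by rw [hPY y hy]; exact h'⟩
        · exact ⟨z, Or.inl rfl, by rw [hPz]; exact h'⟩
      · refine ⟨y', Or.inr hy', ?_⟩
        rw [hPY y' hy']
        refine hT.eq_of_subset_isCircuit (h.P_NT hy').1 ?_
        intro a ha
        rcases hTP ha with h' | h'
        · exact h'
        · exact absurd (hTK ha) (Set.disjoint_left.1 (h.K_disj y hy y' hy' (Ne.symm hyy))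
            (hqK h')))
    (by
      rintro x (rfl | hx)
      · rw [hPz]; exact hq.2
      · rw [hPY x hx]; exact (h.P_NT hx).2)
    lam
    (by
      rintro x (rfl | hx)
      · rw [hlamz]; exact hε0.le
      · rw [hlamY x hx]; exact W_nonneg fun _ _ => wt_nonneg)
    (δ := (d : ℝ) - 2)
    (by
      intro i hi j hj hij
      have h1 := h.sum_sep_le hi hj hij
      have hY' : W lam {x | x ∈ Y ∧ Sep M C (P x) i j} ≤ W (wt M C) (Sp M C i j) := by
        have e1 : {x | x ∈ Y ∧ Sep M C (P x) i j} =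
            {x | x ∈ Y ∧ Sep M C (best M C (K M C x)) i j} := by
          ext x
          constructor
          · rintro ⟨h1, h2⟩
            exact ⟨h1, by rwa [hPY x h1] at h2⟩
          · rintro ⟨h1, h2⟩
            exact ⟨h1, by rwa [hPY x h1]⟩
        rw [e1, W_congr (fun x hx => hlamY x hx.1)]
        exact h1
      by_cases hsep : Sep M C q i j
      · have e2 : {x | x ∈ insert z Y ∧ Sep M C (P x) i j} =
            insert z {x | x ∈ Y ∧ Sep M C (P x) i j} := by
          ext x
          constructor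
          · rintro ⟨rfl | h1, h2⟩
            · left; rfl
            · right; exact ⟨h1, h2⟩
          · rintro (rfl | ⟨h1, h2⟩)
            · exact ⟨Or.inl rfl, by rwa [hPz]⟩
            · exact ⟨Or.inr h1, h2⟩
        rw [e2, W_insert (fun h' => hzY h'.1), hlamz]
        have := h.W_Sp_le' hi hj hij hq.1 hsep
        linarith
      · have e2 : {x | x ∈ insert z Y ∧ Sep M C (P x) i j} =
            {x | x ∈ Y ∧ Sep M C (P x) i j} := by
          ext x
          constructor
          · rintro ⟨rfl | h1, h2⟩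
            · rw [hPz] at h2
              exact absurd h2 hsep
            · exact ⟨h1, h2⟩
          · rintro ⟨h1, h2⟩
            exact ⟨Or.inr h1, h2⟩
        rw [e2]
        have := h.W_Sp_le hi hj hij
        linarith)
  have hsum : W (fun x => lam x * ((P x).ncard : ℝ)) (insert z Y) =
      ε * (q.ncard : ℝ) + ((M.E \ C).ncard : ℝ) := by
    rw [W_insert hzY, hlamz, hPz, ← h.sum_K]
    congr 1
    refine W_congr fun x hx => ?_
    rw [hlamY x hx, hPY x hx, h.W_K hx]
  rw [hsum] at hmain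
  have h1 := h.big'
  have h2 : 0 < (q.ncard : ℝ) := by
    have : 0 < q.ncard := by
      rw [Set.ncard_pos (Set.toFinite _)]
      exact hq.1.nonempty
    exact_mod_cast this
  have h3 : 0 < ε * (q.ncard : ℝ) := mul_pos hε0 h2
  linarith

end Pool.Agent.Royle
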