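import Pool.Agent.Royle.Sizes

/-!
# The counting argument
-/

set_option autoImplicit false
set_option linter.unusedSectionVars false

open Set
open scoped Matroid

namespace Pool.Agent.Royle

variable {α : Type*} [Fintype α] {M N R : Matroid α} {B C D T X Y Z U P q : Set α}
  {a b e f g h i j k l m x y z : α} {v w lam : α → ℝ} {d : ℕ}

/-- The class of `k ∈ C` : elements not separated from `k` by `x`. -/
def cls (N : Matroid α) (C : Set α) (x k : α) : Set α :=
  {l | l ∈ C ∧ (l = k ∨ x ∉ Dc N C k l)}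

lemma cls_subset : cls N C x k ⊆ C := fun _ h => h.1

lemma mem_diff_cls : l ∈ C \ cls N C x k ↔ l ∈ C ∧ l ≠ k ∧ x ∈ Dc N C k l := by
  constructor
  · rintro ⟨h1, h2⟩
    have h3 : ¬ (l = k ∨ x ∉ Dc N C k l) := fun h => h2 ⟨h1, h⟩
    rw [not_or, not_not] at h3
    exact ⟨h1, h3.1, h3.2⟩
  · rintro ⟨h1, h2, h3⟩
    refine ⟨h1, fun h4 => ?_⟩
    rcases h4.2 with h | h
    · exact h2 h
    · exact h h3

lemma class_circuit (hC : N.IsCircuit C) (hsp : N.E ⊆ N.closure C) (hx : x ∈ N.E) (hxC : x ∉ C)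
    (hk : k ∈ C) : ∃ U, N.IsCircuit U ∧ x ∈ U ∧ U ⊆ insert x C ∧ C \ U = cls N C x k := by
  have hI := hC.sdiff_singleton_indep hk
  have hxcl : x ∈ N.closure (C \ {k}) := by
    rw [hC.closure_sdiff_singleton_eq]; exact hsp hx
  obtain ⟨U, hUs, hU, hxU⟩ := Matroid.exists_isCircuit_of_mem_closure hxcl (fun h => hxC h.1)
  refine ⟨U, hU, hxU, hUs.trans (Set.insert_subset_insert Set.sdiff_subset), ?_⟩
  ext l
  constructor
  · rintro ⟨hlC, hlU⟩
    refine ⟨hlC, ?_⟩
    by_cases hlk : l = k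
    · left; exact hlk
    · right
      rintro ⟨-, hcl⟩
      refine hcl ?_
      refine N.closure_subset_closure ?_ (hU.mem_closure_sdiff_singleton_of_mem hxU)
      rintro a ⟨ha, hax⟩
      rcases hUs ha with h | h
      · exact absurd h hax
      · refine ⟨h.1, ?_⟩
        rintro (h' | h')
        · exact h.2 h'
        · exact hlU (h' ▸ ha)
  · rintro ⟨hlC, hl⟩
    refine ⟨hlC, ?_⟩
    by_cases hlk : l = k
    · subst hlk
      intro hlU
      rcases hUs hlU with h | h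
      · exact hxC (h ▸ hlC)
      · exact h.2 rfl
    · have hxD := hl.resolve_left hlk
      have hxcl2 : x ∈ N.closure (C \ {k, l}) := by
        by_contra h
        exact hxD ⟨hx, h⟩
      obtain ⟨U₂, hU₂s, hU₂, hxU₂⟩ := Matroid.exists_isCircuit_of_mem_closure hxcl2
        (fun h => hxC h.1)
      have hUU : U = U₂ := by
        by_contra hne
        obtain ⟨V, hVs, hV⟩ := hU.elimination hU₂ hne x
        refine hV.not_indep (hI.subset ?_)
        intro a ha
        obtain ⟨h1, h2⟩ := hVs ha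
        rcases h1 with h1 | h1
        · exact (hUs h1).resolve_left h2
        · have := (hU₂s h1).resolve_left h2
          exact ⟨this.1, fun h => this.2 (by left; exact h)⟩
      rw [hUU]
      intro hlU
      rcases hU₂s hlU with h | h
      · exact hxC (h ▸ hlC)
      · exact h.2 (by right; rfl)

/-- Number of ordered pairs of elements of `C` separated by `x`. -/
noncomputable def sg (N : Matroid α) (C : Set α) (x : α) : ℝ :=
  W (fun k => ((C \ cls N C x k).ncard : ℝ)) C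

lemma cls_sep (hC : N.IsCircuit C) (_hk : k ∈ C) (hl : l ∈ cls N C x k)
    (hm : m ∈ C \ cls N C x k) : x ∈ Dc N C l m := by
  rw [mem_diff_cls] at hm
  rcases hl with ⟨hlC, rfl | hl⟩
  · exact hm.2.2
  · exact Dc_trans' hC hlC hl hm.2.2

lemma sg_ge (hC : N.IsCircuit C) (hk : k ∈ C) :
    2 * ((cls N C x k).ncard : ℝ) * ((C \ cls N C x k).ncard : ℝ) ≤ sg N C x := by
  unfold sg
  set A := cls N C x k with hA
  have hAC : A ⊆ C := cls_subset
  rw [← W_diff_add hAC]
  have h1 : ((C \ A).ncard : ℝ) * (A.ncard : ℝ) ≤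
      W (fun k => ((C \ cls N C x k).ncard : ℝ)) (C \ A) := by
    rw [← W_const]
    refine W_mono_fun fun m hm => ?_
    have : A ⊆ C \ cls N C x m := by
      intro l hl
      rw [mem_diff_cls]
      refine ⟨hAC hl, fun h => hm.2 (h ▸ hl), ?_⟩
      rw [Dc_symm]
      exact cls_sep hC hk hl hm
    exact_mod_cast Set.ncard_le_ncard this (Set.toFinite _)
  have h2 : (A.ncard : ℝ) * ((C \ A).ncard : ℝ) ≤
      W (fun k => ((C \ cls N C x k).ncard : ℝ)) A := by
    rw [← W_const]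
    refine W_mono_fun fun l hl => ?_
    have : C \ A ⊆ C \ cls N C x l := by
      intro m hm
      rw [mem_diff_cls]
      exact ⟨hm.1, fun h => hm.2 (h ▸ hl), cls_sep hC hk hl hm⟩
    exact_mod_cast Set.ncard_le_ncard this (Set.toFinite _)
  linarith

lemma W_comm (g : α → α → ℝ) (X C : Set α) :
    W (fun x => W (g x) C) X = W (fun k => W (fun x => g x k) X) C := by
  classical
  unfold W
  have h1 : ∀ x : α, (if x ∈ X then ∑ k, (if k ∈ C then g x k else 0) else 0) =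
      ∑ k, (if x ∈ X ∧ k ∈ C then g x k else 0) := by
    intro x
    by_cases hx : x ∈ X
    · simp [hx]
    · simp [hx]
  have h2 : ∀ k : α, (if k ∈ C then ∑ x, (if x ∈ X then g x k else 0) else 0) =
      ∑ x, (if x ∈ X ∧ k ∈ C then g x k else 0) := by
    intro k
    by_cases hk : k ∈ C
    · simp [hk]
    · simp [hk]
  have e1 : (∑ x, if x ∈ X then ∑ k, (if k ∈ C then g x k else 0) else 0) =
      ∑ x, ∑ k, (if x ∈ X ∧ k ∈ C then g x k else 0) := Finset.sum_congr rfl fun x _ => h1 x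
  have e2 : (∑ k, if k ∈ C then ∑ x, (if x ∈ X then g x k else 0) else 0) =
      ∑ k, ∑ x, (if x ∈ X ∧ k ∈ C then g x k else 0) := Finset.sum_congr rfl fun k _ => h2 k
  have e3 := Finset.sum_comm (s := Finset.univ) (t := Finset.univ)
    (f := fun x k => if x ∈ X ∧ k ∈ C then g x k else 0)
  convert e1.trans (e3.trans e2.symm) using 1

lemma sg_sum {δ : ℝ} (_hCne : C.Nonempty)
    (hδ : ∀ k ∈ C, ∀ l ∈ C, k ≠ l → ((Dc N C k l \ C).ncard : ℝ) ≤ δ) :
    W (sg N C) (N.E \ C) ≤ (C.ncard : ℝ) * (((C.ncard : ℝ) - 1) * δ) := by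
  have h1 : W (sg N C) (N.E \ C) =
      W (fun k => W (fun x => ((C \ cls N C x k).ncard : ℝ)) (N.E \ C)) C := by
    unfold sg
    exact W_comm _ _ _
  rw [h1, ← W_const]
  refine W_mono_fun fun k hk => ?_
  have h2 : ∀ x, ((C \ cls N C x k).ncard : ℝ) =
      1 * W (fun _ => 1) {l | l ∈ C ∧ (l ≠ k ∧ x ∈ Dc N C k l)} := by
    intro x
    rw [one_mul, W_one]
    congr 2
    ext l
    exact mem_diff_cls
  have h3 := W_double (N.E \ C) C (fun l x => l ≠ k ∧ x ∈ Dc N C k l) (fun _ => 1) (fun _ => 1)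
  rw [W_congr (fun x _ => h2 x), h3]
  have h4 : W (fun x => (1 : ℝ) * W (fun _ => 1) {f | f ∈ N.E \ C ∧ (x ≠ k ∧ f ∈ Dc N C k x)}) C ≤
      W (fun _ => δ) (C \ {k}) := by
    rw [← W_diff_add (S := {k}) (T := C) (by simpa using hk), W_singleton]
    have : {f | f ∈ N.E \ C ∧ (k ≠ k ∧ f ∈ Dc N C k k)} = ∅ := by
      ext f; simp
    rw [this, W_empty, mul_zero, add_zero]
    refine W_mono_fun fun l hl => ?_
    rw [one_mul, W_one]
    refine le_trans ?_ (hδ k hk l hl.1 (fun h => hl.2 h.symm))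
    have hss : {f | f ∈ N.E \ C ∧ (l ≠ k ∧ f ∈ Dc N C k l)} ⊆ Dc N C k l \ C :=
      fun f hf => ⟨hf.2.2, hf.1.2⟩
    exact_mod_cast Set.ncard_le_ncard hss (Set.toFinite _)
  refine h4.trans (le_of_eq ?_)
  rw [W_const]
  congr 1
  have := Set.ncard_sdiff_singleton_add_one hk (Set.toFinite _)
  have h5 : ((C \ {k}).ncard : ℝ) + 1 = C.ncard := by exact_mod_cast this
  linarith

/-- lifting circuits of `M ／ B` -/
lemma lift_ear (hB : ∀ T, (M ／ C).IsCircuit T → ¬ T ⊆ B) (hBC : ∀ b ∈ B, b ∉ C)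
    (hxC : x ∉ C) (hT : (M ／ C).IsCircuit T) (_hxT : x ∈ T) (hTB : T ⊆ insert x B)
    (hU : (M ／ B).IsCircuit U) (hxU : x ∈ U) (hUC : U ⊆ insert x C) :
    ∃ V, M.IsCircuit V ∧ V ∩ C = U ∩ C ∧ V \ C = T := by
  obtain ⟨V, hV, h1, h2⟩ := exists_circuit_of_contract hU
  have huniq : ∀ T', (M ／ C).IsCircuit T' → T' ⊆ insert x B → T' = T := by
    intro T' hT' hT's
    by_contra hne
    obtain ⟨V, hVs, hV⟩ := hT'.elimination hT hne x
    refine hB V hV ?_
    intro a ha
    obtain ⟨h3, h4⟩ := hVs ha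
    rcases h3 with h3 | h3
    · exact (hT's h3).resolve_left h4
    · exact (hTB h3).resolve_left h4
  have hVCs : V \ C ⊆ insert x B := by
    rintro a ⟨ha, haC⟩
    rcases h2 ha with h | h
    · rcases hUC h with h' | h'
      · left; exact h'
      · exact absurd h' haC
    · right; exact h
  refine ⟨V, hV, ?_, ?_⟩
  · ext a
    constructor
    · rintro ⟨ha, haC⟩
      rcases h2 ha with h | h
      · exact ⟨h, haC⟩
      · exact absurd haC (hBC a h)
    · rintro ⟨ha, haC⟩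
      exact ⟨h1 ha, haC⟩
  · refine Set.Subset.antisymm ?_ ?_
    · rintro a ⟨ha, haC⟩
      obtain ⟨T', hT', haT', hT's⟩ := exists_circuit_contract (X := C) hV ha haC
      rw [← huniq T' hT' (hT's.trans hVCs)]
      exact haT'
    · obtain ⟨T', hT', hxT', hT's⟩ := exists_circuit_contract (X := C) hV (h1 hxU) hxC
      rw [← huniq T' hT' (hT's.trans hVCs)]
      exact hT's

lemma circ_contract_B (hC : M.IsCircuit C) (hB : ∀ T, (M ／ C).IsCircuit T → ¬ T ⊆ B)
    (hBC : ∀ b ∈ B, b ∉ C) : (M ／ B).IsCircuit C := by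
  obtain ⟨x, hx⟩ := hC.nonempty
  obtain ⟨T, hT, hxT, hTs⟩ := exists_circuit_contract (X := B) hC hx (fun h => hBC x h hx)
  obtain ⟨V, hV, h1, h2⟩ := exists_circuit_of_contract hT
  have hVC : V ⊆ C := by
    intro a ha
    by_contra haC
    obtain ⟨T', hT', haT', hT's⟩ := exists_circuit_contract (X := C) hV ha haC
    refine hB T' hT' ?_
    intro b hb
    rcases h2 (hT's hb).1 with h | h
    · exact absurd (hTs h).1 (hT's hb).2
    · exact h
  have hVeq := hV.eq_of_subset_isCircuit hC hVC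
  have : T = C := by
    refine Set.Subset.antisymm (hTs.trans Set.sdiff_subset) ?_
    intro a ha
    rcases h2 (hVeq ▸ ha) with h | h
    · exact h
    · exact absurd ha (hBC a h)
  rwa [← this]

lemma span_contract_B (hC : M.IsCircuit C) (_hBC : ∀ b ∈ B, b ∉ C)
    (hT : ∀ x ∈ M.E, x ∉ C → x ∉ B → ∃ T, (M ／ C).IsCircuit T ∧ x ∈ T ∧ T ⊆ insert x B) :
    (M ／ B).E ⊆ (M ／ B).closure C := by
  intro x hx
  rw [Matroid.contract_ground] at hx
  rw [Matroid.contract_closure_eq]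
  refine ⟨?_, hx.2⟩
  by_cases hxC : x ∈ C
  · exact M.mem_closure_of_mem' (Or.inl hxC) (hC.subset_ground hxC)
  · obtain ⟨T, hT, hxT, hTs⟩ := hT x hx.1 hxC hx.2
    obtain ⟨V, hV, h1, h2⟩ := exists_circuit_of_contract hT
    refine M.closure_subset_closure ?_ (hV.mem_closure_sdiff_singleton_of_mem (h1 hxT))
    rintro a ⟨ha, hax⟩
    rcases h2 ha with h | h
    · right; exact (hTs h).resolve_left hax
    · left; exact h

lemma Dc_cocircuit (hC : N.IsCircuit C) (hsp : N.E ⊆ N.closure C) (hk : k ∈ C) (hl : l ∈ C)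
    (hkl : k ≠ l) : N.IsCocircuit (Dc N C k l) := by
  have hB : N.IsBase (C \ {k}) := by
    rw [Matroid.isBase_iff_indep_closure_eq]
    refine ⟨hC.sdiff_singleton_indep hk, ?_⟩
    rw [hC.closure_sdiff_singleton_eq]
    exact (N.closure_subset_ground C).antisymm hsp
  have h := hB.compl_closure_sdiff_singleton_isCocircuit (e := l) ⟨hl, hkl.symm⟩
  have : (C \ {k}) \ {l} = C \ {k, l} := by
    ext a
    simp only [Set.mem_sdiff, Set.mem_insert_iff, Set.mem_singleton_iff]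
    tauto
  rw [this] at h
  exact h

/-- the data about the classes of an element -/
lemma Setup.class_data (h : Setup M C d) (hB : ∀ T, (M ／ C).IsCircuit T → ¬ T ⊆ B)
    (hBC : ∀ b ∈ B, b ∉ C) (hsp : (M ／ B).E ⊆ (M ／ B).closure C)
    (hx : x ∈ M.E) (hxB : x ∉ B) (hxC : x ∉ C) (hT : (M ／ C).IsCircuit T) (hxT : x ∈ T)
    (hTB : T ⊆ insert x B) (hTM : ¬ M.IsCircuit T) (hk : k ∈ C) :
    T.ncard ≤ (cls (M ／ B) C x k).ncard ∧ 3 ≤ (C \ cls (M ／ B) C x k).ncard + T.ncard ∧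
      (C \ cls (M ／ B) C x k).Nonempty := by
  have hC' := circ_contract_B h.circ hB hBC
  obtain ⟨U, hU, hxU, hUC, hcls⟩ := class_circuit hC' hsp
    (by rw [Matroid.contract_ground]; exact ⟨hx, hxB⟩) hxC hk
  obtain ⟨V, hV, hVC, hVT⟩ := lift_ear hB hBC hxC hT hxT hTB hU hxU hUC
  have h1 : C \ cls (M ／ B) C x k = V ∩ C := by
    rw [hVC, ← hcls]
    ext a
    constructor
    · rintro ⟨ha, h2⟩
      refine ⟨?_, ha⟩
      by_contra haU
      exact h2 ⟨ha, haU⟩
    · rintro ⟨ha, haC⟩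
      exact ⟨haC, fun h2 => h2.2 ha⟩
  have h2 : (V ∩ C).ncard + (V \ C).ncard = V.ncard :=
    Set.ncard_inter_add_ncard_sdiff_eq_ncard V C (Set.toFinite _)
  have h3 : (C \ cls (M ／ B) C x k).ncard + (cls (M ／ B) C x k).ncard = C.ncard :=
    Set.ncard_sdiff_add_ncard_of_subset cls_subset (Set.toFinite _)
  have h4 := h.max V hV
  have h5 := h.simple V hV
  rw [h1] at h3 ⊢
  rw [hVT] at h2
  refine ⟨by omega, by omega, ?_⟩
  by_contra hemp
  rw [Set.not_nonempty_iff_eq_empty] at hemp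
  have : V = T := by
    rw [← hVT]
    refine Set.Subset.antisymm (fun a ha => ⟨ha, fun haC => ?_⟩) Set.sdiff_subset
    exact absurd (show a ∈ V ∩ C from ⟨ha, haC⟩) (by simp [hemp])
  exact hTM (this ▸ hV)

lemma Setup.sg_bound (h : Setup M C d) (hB : ∀ T, (M ／ C).IsCircuit T → ¬ T ⊆ B)
    (hBC : ∀ b ∈ B, b ∉ C) (hsp : (M ／ B).E ⊆ (M ／ B).closure C)
    (hx : x ∈ M.E) (hxB : x ∉ B) (hxC : x ∉ C) (hT : (M ／ C).IsCircuit T) (hxT : x ∈ T)
    (hTB : T ⊆ insert x B) (hTM : ¬ M.IsCircuit T) :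
    2 * T.ncard ≤ C.ncard ∧
    2 * (T.ncard : ℝ) * ((C.ncard : ℝ) - T.ncard) ≤ sg (M ／ B) C x ∧
    (T.ncard = 1 → 2 * (C.ncard : ℝ) ≤ sg (M ／ B) C x) := by
  have hC' := circ_contract_B h.circ hB hBC
  obtain ⟨k, hk⟩ := h.circ.nonempty
  obtain ⟨h1, h2, m, hm⟩ := h.class_data hB hBC hsp hx hxB hxC hT hxT hTB hTM hk
  obtain ⟨h1', -, -⟩ := h.class_data hB hBC hsp hx hxB hxC hT hxT hTB hTM hm.1
  have hsub : cls (M ／ B) C x m ⊆ C \ cls (M ／ B) C x k := by
    intro l hl
    refine ⟨hl.1, fun hlk => ?_⟩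
    have h3 := cls_sep hC' hk hlk hm
    have hlm : l ≠ m := fun h' => hm.2 (h' ▸ hlk)
    rcases hl.2 with h4 | h4
    · exact hlm h4
    · rw [Dc_symm] at h4
      exact h4 h3
  have h3 := Set.ncard_le_ncard hsub (Set.toFinite _)
  have h4 : (C \ cls (M ／ B) C x k).ncard + (cls (M ／ B) C x k).ncard = C.ncard :=
    Set.ncard_sdiff_add_ncard_of_subset cls_subset (Set.toFinite _)
  refine ⟨by omega, ?_, ?_⟩
  · have h5 := sg_ge (x := x) hC' hk
    have h6 : ((C \ cls (M ／ B) C x k).ncard : ℝ) + ((cls (M ／ B) C x k).ncard : ℝ) = C.ncard := by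
      exact_mod_cast h4
    have h7 : (T.ncard : ℝ) ≤ ((cls (M ／ B) C x k).ncard : ℝ) := by exact_mod_cast h1
    have h8 : (T.ncard : ℝ) ≤ ((C \ cls (M ／ B) C x k).ncard : ℝ) := by
      exact_mod_cast h1'.trans h3
    refine le_trans ?_ h5
    rw [← h6]
    nlinarith [mul_nonneg (sub_nonneg.2 h7) (sub_nonneg.2 h8)]
  · intro hT1
    unfold sg
    rw [mul_comm, ← W_const]
    refine W_mono_fun fun k' hk' => ?_
    obtain ⟨-, h2', -⟩ := h.class_data hB hBC hsp hx hxB hxC hT hxT hTB hTM hk'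
    have : 2 ≤ (C \ cls (M ／ B) C x k').ncard := by omega
    exact_mod_cast this

/-- All elements but one of each chosen ear. -/
def BB (M : Matroid α) (C Y : Set α) : Set α := (⋃ y ∈ Y, best M C (K M C y)) \ Y

lemma Setup'.P_inter_Y (h : Setup' M C d Y) (hy : y ∈ Y) (hz : z ∈ Y)
    (hzy : z ∈ K M C y) : z = y := h.inj z hz y hy (K_eq hzy)

lemma Setup'.mem_BB (h : Setup' M C d Y) (hy : y ∈ Y) (hx : x ∈ K M C y) :
    x ∈ BB M C Y ↔ x ∈ best M C (K M C y) \ {y} := by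
  constructor
  · rintro ⟨hx1, hx2⟩
    obtain ⟨y', hy', hxy'⟩ := Set.mem_iUnion₂.1 hx1
    have : y = y' := by
      by_contra hne
      exact Set.disjoint_left.1 (h.K_disj y hy y' hy' hne) hx (h.P_sub hy' hxy')
    subst this
    exact ⟨hxy', fun h' => hx2 (h' ▸ hy)⟩
  · rintro ⟨hx1, hx2⟩
    refine ⟨Set.mem_biUnion hy hx1, fun h' => hx2 ?_⟩
    exact h.P_inter_Y hy h' hx

lemma Setup'.BB_not_circuit (h : Setup' M C d Y) : ∀ T, (M ／ C).IsCircuit T → ¬ T ⊆ BB M C Y := by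
  intro T hT hTs
  obtain ⟨y, hy, rfl⟩ := h.skew T hT (hTs.trans Set.sdiff_subset)
  exact (hTs (h.mem y hy).2.2).2 hy

lemma Setup'.BB_notMem (h : Setup' M C d Y) : ∀ b ∈ BB M C Y, b ∉ C := by
  rintro b ⟨hb, -⟩
  obtain ⟨y, hy, hby⟩ := Set.mem_iUnion₂.1 hb
  exact K_notMem (h.P_sub hy hby)

/-- the fundamental ears -/
lemma Setup'.exists_fund (h : Setup' M C d Y) (hy : y ∈ Y) (hF : Fat M C d y i j)
    (hx : x ∈ K M C y) (hxB : x ∉ BB M C Y) : ∃ T, (M ／ C).IsCircuit T ∧ x ∈ T ∧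
    T ⊆ insert x (BB M C Y) ∧ ¬ M.IsCircuit T ∧
    (x ∈ FF M C y i j y → T.ncard = (best M C (K M C y)).ncard) ∧
    (x ∉ FF M C y i j y → T.ncard = 2) := by
  have hPK := h.P_sub hy
  have hyP := (h.mem y hy).2.2
  have hPB : best M C (K M C y) \ {y} ⊆ BB M C Y := by
    intro a ha
    exact (h.mem_BB hy (hPK ha.1)).2 ha
  by_cases hxy : x = y
  · subst hxy
    refine ⟨best M C (K M C x), (h.P_NT hy).1, hyP, ?_, ?_, fun _ => rfl, ?_⟩
    · intro a ha
      by_cases hax : a = x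
      · left; exact hax
      · right; exact hPB ⟨ha, hax⟩
    · exact hF.sep.not_isCircuit (fun a ha => K_notMem (hPK ha)) hF.hi ⟨x, hyP⟩
    · intro hxF
      exact absurd ⟨hx, Or.inl rfl⟩ hxF
  have hxP : x ∉ best M C (K M C y) := fun h' => hxB (hPB ⟨h', hxy⟩)
  have hp : 2 ≤ (best M C (K M C y)).ncard := by
    by_contra hlt
    have h1 := h.best_pos (h.mem y hy).1 (h.mem y hy).2.1
    obtain ⟨t, ht⟩ := Set.ncard_eq_one.1 (show (best M C (K M C y)).ncard = 1 by omega)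
    have hyt : y ∈ ({t} : Set α) := ht ▸ hyP
    rw [Set.mem_singleton_iff] at hyt
    have hl := (h.P_NT hy).1
    rw [ht, ← hyt] at hl
    have hx' : Cn (M ／ C) y x := hx
    exact not_loop_of_class (N := M ／ C) ⟨x, hxy, hx'⟩
      (h.mem_K_self (h.mem y hy).1 (h.mem y hy).2.1) hl
  obtain ⟨f, hfP, hc⟩ := hF.par x hx hxP
  have hxf : x ≠ f := fun h' => hxP (h' ▸ hfP)
  have hcf := h.par_contract hy hF hp hx (hPK hfP) hxf hc
  by_cases hxF : x ∈ FF M C y i j y
  · have hcy : (Q M C i j).IsCircuit {x, y} := by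
      rcases hxF.2 with h' | h'
      · exact absurd h' hxy
      · exact h'.2
    have hcy' := h.par_contract hy hF hp hx (hPK hyP) hxy hcy
    have hT := circuit_replace (h.P_NT hy).1 hyP hcy' hxP
    refine ⟨insert x (best M C (K M C y) \ {y}), hT, by simp, ?_, ?_, fun _ => ?_,
      fun h' => absurd hxF h'⟩
    · exact Set.insert_subset_insert hPB
    · have hxi : x ≠ i := fun h' => K_notMem hx (h' ▸ hF.hi)
      have hyi : y ≠ i := fun h' => (h.mem y hy).2.1 (h' ▸ hF.hi)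
      have hs := circuit_replace hF.sep (Or.inr hyP) hcy (by
        rintro (h' | h')
        · exact hxi h'
        · exact hxP h')
      have hsep' : Sep M C (insert x (best M C (K M C y) \ {y})) i j := by
        unfold Sep
        have : insert i (insert x (best M C (K M C y) \ {y})) =
            insert x (insert i (best M C (K M C y)) \ {y}) := by
          ext a
          simp only [Set.mem_insert_iff, Set.mem_sdiff, Set.mem_singleton_iff]
          constructor
          · rintro (rfl | h' | h')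
            · right; exact ⟨Or.inl rfl, fun h'' => hyi h''.symm⟩
            · left; exact h'
            · right; exact ⟨Or.inr h'.1, h'.2⟩
          · rintro (h' | ⟨h' | h', h''⟩)
            · right; left; exact h'
            · left; exact h'
            · right; right; exact ⟨h', h''⟩
        rw [this]
        exact hs
      refine hsep'.not_isCircuit ?_ hF.hi ⟨x, by simp⟩
      rintro a (rfl | ha)
      · exact K_notMem hx
      · exact K_notMem (hPK ha.1)
    · rw [Set.ncard_insert_of_notMem (fun h' => hxP h'.1) (Set.toFinite _)]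
      exact Set.ncard_sdiff_singleton_add_one hyP (Set.toFinite _)
  · have hfy : f ≠ y := fun h' => hxF ⟨hx, Or.inr ⟨hxy, h' ▸ hc⟩⟩
    refine ⟨{x, f}, hcf, by simp, ?_, ?_, fun h' => absurd h' hxF, fun _ => Set.ncard_pair hxf⟩
    · rintro a (rfl | rfl)
      · left; rfl
      · right; exact hPB ⟨hfP, hfy⟩
    · intro hM
      have := h.simple _ hM
      rw [Set.ncard_pair hxf] at this
      omega

lemma Setup'.span_BB (h : Setup' M C d Y) :
    (M ／ (BB M C Y)).E ⊆ (M ／ (BB M C Y)).closure C := by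
  refine span_contract_B h.circ h.BB_notMem ?_
  intro x hx hxC hxB
  obtain ⟨y, hy, hK⟩ := h.cover x hx hxC
  have hxK : x ∈ K M C y := hK ▸ h.mem_K_self hx hxC
  obtain ⟨i, j, hF⟩ := h.fat hy
  obtain ⟨T, h1, h2, h3, -⟩ := h.exists_fund hy hF hxK hxB
  exact ⟨T, h1, h2, h3⟩

/-- the inequality for a component -/
theorem Setup'.comp_ineq (h : Setup' M C d Y) (hy : y ∈ Y) :
    2 * ((C.ncard : ℝ) - 1) * ((K M C y).ncard : ℝ) ≤
      W (sg (M ／ (BB M C Y)) C) (K M C y \ BB M C Y) ∧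
    (W (sg (M ／ (BB M C Y)) C) (K M C y \ BB M C Y) ≤
      2 * ((C.ncard : ℝ) - 1) * ((K M C y).ncard : ℝ) →
      C.ncard = 4 ∧ (K M C y).ncard = 4 ∧ (best M C (K M C y)).ncard = 2) := by
  obtain ⟨i, j, hF⟩ := h.fat hy
  have hPK := h.P_sub hy
  have hyP := (h.mem y hy).2.2
  have hyK := hPK hyP
  have hyB : y ∉ BB M C Y := fun h' => h'.2 hy
  have hbound : ∀ x ∈ K M C y, x ∉ BB M C Y → ∀ T, (M ／ C).IsCircuit T → x ∈ T →
      T ⊆ insert x (BB M C Y) → ¬ M.IsCircuit T → _ := fun x hx hxB T h1 h2 h3 h4 =>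
    h.sg_bound h.BB_not_circuit h.BB_notMem h.span_BB (K_ground hx) hxB (K_notMem hx) h1 h2 h3 h4
  have hppos := h.best_pos (h.mem y hy).1 (h.mem y hy).2.1
  have hc3 := h.simple C h.circ
  by_cases hp : (best M C (K M C y)).ncard = 1
  · -- the component is a loop
    have hKy : K M C y = {y} := by
      obtain ⟨t, ht⟩ := Set.ncard_eq_one.1 hp
      have hyt : y ∈ ({t} : Set α) := ht ▸ hyP
      rw [Set.mem_singleton_iff] at hyt
      have hl := (h.P_NT hy).1
      rw [ht, ← hyt] at hl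
      refine Set.Subset.antisymm ?_ (by simpa using hyK)
      intro x hx
      by_contra hxy
      have hx' : Cn (M ／ C) y x := hx
      exact not_loop_of_class (N := M ／ C) ⟨x, hxy, hx'⟩
        (h.mem_K_self (h.mem y hy).1 (h.mem y hy).2.1) hl
    obtain ⟨T, hT, hyT, hTB, hTM, hT1, -⟩ := h.exists_fund hy hF hyK hyB
    obtain ⟨-, -, h3⟩ := hbound y hyK hyB T hT hyT hTB hTM
    have hT1' : T.ncard = 1 := by
      rw [hT1 ⟨hyK, Or.inl rfl⟩, hp]
    have h4 := h3 hT1'
    have h5 : K M C y \ BB M C Y = {y} := by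
      rw [hKy]
      ext a
      constructor
      · rintro ⟨h1, -⟩; exact h1
      · rintro h1
        rw [Set.mem_singleton_iff] at h1
        rw [h1]
        exact ⟨rfl, hyB⟩
    rw [h5, W_singleton, hKy, Set.ncard_singleton]
    push_cast
    exact ⟨by linarith, fun h6 => by exfalso; linarith⟩
  · have hp2 : 2 ≤ (best M C (K M C y)).ncard := by omega
    have hFsub : FF M C y i j y ⊆ K M C y \ BB M C Y := by
      rintro t ⟨htK, ht⟩
      refine ⟨htK, fun htB => ?_⟩
      have h1 := (h.mem_BB hy htK).1 htB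
      rcases ht with h2 | ⟨h2, h3⟩
      · exact h1.2 h2
      · have h4 := h3.eq_of_subset_isCircuit hF.sep (by
          rintro s (rfl | rfl)
          · right; exact h1.1
          · right; exact hyP)
        have h5 : i ∈ ({t, y} : Set α) := by rw [h4]; simp
        rcases h5 with h6 | h6
        · exact K_notMem htK (h6 ▸ hF.hi)
        · exact K_notMem hyK (h6 ▸ hF.hi)
    obtain ⟨Ty, hTy, hyTy, hTyB, hTyM, hTy1, -⟩ := h.exists_fund hy hF hyK hyB
    have hTyc := hTy1 ⟨hyK, Or.inl rfl⟩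
    obtain ⟨hcp, -, -⟩ := hbound y hyK hyB Ty hTy hyTy hTyB hTyM
    rw [hTyc] at hcp
    have hb2 := h.ncard_FF_ge hy hF hp2 hyP
    have hbp := h.sizes hy hF hyP
    -- sizes
    have hKB : (K M C y \ BB M C Y).ncard + (best M C (K M C y)).ncard =
        (K M C y).ncard + 1 := by
      have e1 : K M C y \ BB M C Y = K M C y \ (best M C (K M C y) \ {y}) := by
        ext a
        constructor
        · rintro ⟨h1, h2⟩
          exact ⟨h1, fun h3 => h2 ((h.mem_BB hy h1).2 h3)⟩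
        · rintro ⟨h1, h2⟩
          exact ⟨h1, fun h3 => h2 ((h.mem_BB hy h1).1 h3)⟩
      have e2 := Set.ncard_sdiff_add_ncard_of_subset
        (show best M C (K M C y) \ {y} ⊆ K M C y from Set.sdiff_subset.trans hPK) (Set.toFinite _)
      have e3 := Set.ncard_sdiff_singleton_add_one hyP (Set.toFinite _)
      rw [e1]
      omega
    have hrest : ((K M C y \ BB M C Y) \ FF M C y i j y).ncard + (FF M C y i j y).ncard =
        (K M C y \ BB M C Y).ncard := Set.ncard_sdiff_add_ncard_of_subset hFsub (Set.toFinite _)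
    set b : ℕ := (FF M C y i j y).ncard with hb
    set p : ℕ := (best M C (K M C y)).ncard with hpdef
    set c : ℕ := C.ncard with hc
    set r : ℕ := ((K M C y \ BB M C Y) \ FF M C y i j y).ncard with hr
    have hW1 : (b : ℝ) * (2 * (p : ℝ) * ((c : ℝ) - p)) ≤
        W (sg (M ／ (BB M C Y)) C) (FF M C y i j y) := by
      rw [hb, ← W_const]
      refine W_mono_fun fun x hx => ?_
      have hxKB := hFsub hx
      obtain ⟨T, hT, hxT, hTB, hTM, hT1, -⟩ := h.exists_fund hy hF hxKB.1 hxKB.2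
      obtain ⟨-, h2, -⟩ := hbound x hxKB.1 hxKB.2 T hT hxT hTB hTM
      rwa [hT1 hx] at h2
    have hW2 : (r : ℝ) * (2 * (2 : ℝ) * ((c : ℝ) - 2)) ≤
        W (sg (M ／ (BB M C Y)) C) ((K M C y \ BB M C Y) \ FF M C y i j y) := by
      rw [hr, ← W_const]
      refine W_mono_fun fun x hx => ?_
      obtain ⟨T, hT, hxT, hTB, hTM, -, hT2⟩ := h.exists_fund hy hF hx.1.1 hx.1.2
      obtain ⟨-, h2, -⟩ := hbound x hx.1.1 hx.1.2 T hT hxT hTB hTM
      rw [hT2 hx.2] at h2
      exact_mod_cast h2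
    have hW := W_diff_add (v := sg (M ／ (BB M C Y)) C) hFsub
    rw [← hW]
    have hbp' : (b : ℝ) * p = ((K M C y).ncard : ℝ) := by exact_mod_cast hbp
    have hr' : (r : ℝ) = ((b : ℝ) - 1) * ((p : ℝ) - 1) := by
      have h1 : r + b + p = b * p + 1 := by omega
      have h2 : (r : ℝ) + b + p = b * p + 1 := by exact_mod_cast h1
      linarith
    rw [← hbp']
    rw [hr'] at hW2
    have hb2' : (2 : ℝ) ≤ b := by exact_mod_cast hb2
    have hp2' : (2 : ℝ) ≤ p := by exact_mod_cast hp2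
    have hcp' : 2 * (p : ℝ) ≤ c := by exact_mod_cast hcp
    have hid : (b : ℝ) * (2 * (p : ℝ) * ((c : ℝ) - p)) + ((b : ℝ) - 1) * ((p : ℝ) - 1) *
        (2 * (2 : ℝ) * ((c : ℝ) - 2)) - 2 * ((c : ℝ) - 1) * (b * p) =
        2 * ((p : ℝ) - 1) * (2 * ((b : ℝ) - 1) * ((c : ℝ) - 2 * p) + 2 * ((p : ℝ) - 2) +
          2 * ((b : ℝ) - 2) + 3 * (((b : ℝ) - 2) * ((p : ℝ) - 2))) := by ring
    have n1 : 0 ≤ ((b : ℝ) - 1) * ((c : ℝ) - 2 * p) :=
      mul_nonneg (by linarith) (by linarith)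
    have n2 : 0 ≤ ((b : ℝ) - 2) * ((p : ℝ) - 2) := mul_nonneg (by linarith) (by linarith)
    refine ⟨?_, ?_⟩
    · have : 0 ≤ 2 * ((p : ℝ) - 1) * (2 * ((b : ℝ) - 1) * ((c : ℝ) - 2 * p) + 2 * ((p : ℝ) - 2) +
          2 * ((b : ℝ) - 2) + 3 * (((b : ℝ) - 2) * ((p : ℝ) - 2))) := by
        refine mul_nonneg (by linarith) ?_
        linarith
      linarith
    · intro hle
      have h0 : 2 * ((p : ℝ) - 1) * (2 * ((b : ℝ) - 1) * ((c : ℝ) - 2 * p) + 2 * ((p : ℝ) - 2) +
          2 * ((b : ℝ) - 2) + 3 * (((b : ℝ) - 2) * ((p : ℝ) - 2))) ≤ 0 := by linarith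
      have h1 : 2 * ((b : ℝ) - 1) * ((c : ℝ) - 2 * p) + 2 * ((p : ℝ) - 2) +
          2 * ((b : ℝ) - 2) + 3 * (((b : ℝ) - 2) * ((p : ℝ) - 2)) ≤ 0 := by
        by_contra hpos
        push Not at hpos
        have : 0 < 2 * ((p : ℝ) - 1) := by linarith
        have := mul_pos this hpos
        linarith
      have hp_eq : (p : ℝ) = 2 := by linarith
      have hb_eq : (b : ℝ) = 2 := by linarith
      have hc_eq : (c : ℝ) = 4 := by
        rw [hp_eq, hb_eq] at h1
        linarith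
      have hp_eq' : p = 2 := by exact_mod_cast hp_eq
      have hb_eq' : b = 2 := by exact_mod_cast hb_eq
      have hc_eq' : c = 4 := by exact_mod_cast hc_eq
      refine ⟨hc_eq', ?_, hp_eq'⟩
      rw [← hbp, hp_eq', hb_eq']

theorem Setup'.count (h : Setup' M C d Y) (hy : y ∈ Y) :
    C.ncard = 4 ∧ (K M C y).ncard = 4 ∧ (best M C (K M C y)).ncard = 2 := by
  have hC' := circ_contract_B h.circ h.BB_not_circuit h.BB_notMem
  have hsum := sg_sum (N := M ／ (BB M C Y)) (C := C) (δ := (d : ℝ) - 2) h.circ.nonempty (by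
    intro k hk l hl hkl
    have h1 := Dc_cocircuit hC' h.span_BB hk hl hkl
    have h2 := h.cocirc _ (cocircuit_contract_iff.1 h1).1
    have h3 := Dc_inter hC' hk hl hkl
    have h4 : (Dc (M ／ (BB M C Y)) C k l ∩ C).ncard + (Dc (M ／ (BB M C Y)) C k l \ C).ncard =
        (Dc (M ／ (BB M C Y)) C k l).ncard :=
      Set.ncard_inter_add_ncard_sdiff_eq_ncard _ C (Set.toFinite _)
    rw [h3, Set.ncard_pair hkl] at h4
    have h5 : (Dc (M ／ (BB M C Y)) C k l \ C).ncard + 2 ≤ d := by omega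
    have h6 : ((Dc (M ／ (BB M C Y)) C k l \ C).ncard : ℝ) + 2 ≤ d := by exact_mod_cast h5
    linarith)
  have hE : (M ／ (BB M C Y)).E \ C = ⋃ y ∈ Y, (K M C y \ BB M C Y) := by
    ext a
    simp only [Set.mem_iUnion, exists_prop]
    constructor
    · rintro ⟨ha, haC⟩
      rw [Matroid.contract_ground] at ha
      obtain ⟨y, hy, hK⟩ := h.cover a ha.1 haC
      exact ⟨y, hy, hK ▸ h.mem_K_self ha.1 haC, ha.2⟩
    · rintro ⟨y, hy, ha, haB⟩
      rw [Matroid.contract_ground]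
      exact ⟨⟨K_ground ha, haB⟩, K_notMem ha⟩
  rw [hE, ← W_biUnion (fun x hx z hz hxz => (h.K_disj x hx z hz hxz).mono Set.sdiff_subset
    Set.sdiff_subset)] at hsum
  have hle : W (fun y => 2 * ((C.ncard : ℝ) - 1) * ((K M C y).ncard : ℝ)) Y =
      2 * ((C.ncard : ℝ) - 1) * ((M.E \ C).ncard : ℝ) := by
    rw [W_mul_left, h.sum_K]
  have hbig := h.big'
  have hc3 : (3 : ℝ) ≤ C.ncard := by exact_mod_cast h.simple C h.circ
  have hfin : W (fun y => W (sg (M ／ (BB M C Y)) C) (K M C y \ BB M C Y)) Y ≤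
      W (fun y => 2 * ((C.ncard : ℝ) - 1) * ((K M C y).ncard : ℝ)) Y := by
    rw [hle]
    refine hsum.trans ?_
    have : ((C.ncard : ℝ) - 1) * (((d : ℝ) - 2) * (C.ncard : ℝ)) ≤
        ((C.ncard : ℝ) - 1) * (2 * ((M.E \ C).ncard : ℝ)) :=
      mul_le_mul_of_nonneg_left hbig (by linarith)
    linarith
  have heq := W_eq_pointwise (fun y hy => (h.comp_ineq hy).1) hfin y hy
  exact (h.comp_ineq hy).2 heq.ge

end Pool.Agent.Royle
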