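import Pool.Agent.Royle.LemmaD
import Pool.Agent.Royle.Bridge

/-!
# The inequality for a family of skew ears of a largest circuit
-/

set_option autoImplicit false
set_option linter.unusedSectionVars false

open Set
open scoped Matroid

namespace Pool.Agent.Royle

variable {α : Type*} [Fintype α] {M N R : Matroid α} {C D X Y Z U P : Set α}
  {e f g h i j k x y z : α} {v w lam : α → ℝ}

/-- The ear `P` of `C` separates `i` and `j`. -/
def Sep (M : Matroid α) (C P : Set α) (i j : α) : Prop := (Q M C i j).IsCircuit (insert i P)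

lemma ear_dichotomy (hC : M.IsCircuit C) (hi : i ∈ C) (hj : j ∈ C) (hij : i ≠ j)
    (hP : (M ／ C).IsCircuit P) : (Q M C i j).IsCircuit P ∨ Sep M C P i j := by
  have hpair := Q_pair hC hi hj
  have hPC : ∀ a ∈ P, a ∉ C := by
    intro a ha
    have := hP.subset_ground ha
    rw [Matroid.contract_ground] at this
    exact this.2
  have hQ : (Q M C i j ／ {i, j}) = M ／ C := Q_contract hi hj
  have hP' := hP
  rw [← hQ] at hP'
  obtain ⟨V, hV, h1, h2⟩ := exists_circuit_of_contract hP'
  obtain ⟨y, hy⟩ := hP.nonempty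
  have hyC := hPC y hy
  have hyi : y ≠ i := fun h => hyC (h ▸ hi)
  have hyj : y ≠ j := fun h => hyC (h ▸ hj)
  by_cases hiV : i ∈ V
  · right
    have hjV : j ∉ V := by
      intro hjV
      have : ({i, j} : Set α) = V :=
        hpair.eq_of_subset_isCircuit hV (by rintro a (rfl | rfl) <;> assumption)
      have hyV := h1 hy
      rw [← this] at hyV
      rcases hyV with h | h
      · exact hyi h
      · exact hyj h
    have : V = insert i P := by
      refine Set.Subset.antisymm ?_ ?_
      · intro a ha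
        rcases h2 ha with h | h | h
        · right; exact h
        · left; exact h
        · exact absurd (h ▸ ha) hjV
      · rintro a (rfl | ha)
        · exact hiV
        · exact h1 ha
    unfold Sep
    rwa [← this]
  by_cases hjV : j ∈ V
  · right
    have hVj : V = insert j P := by
      refine Set.Subset.antisymm ?_ ?_
      · intro a ha
        rcases h2 ha with h | h | h
        · right; exact h
        · exact absurd (h ▸ ha) hiV
        · left; exact h
      · rintro a (rfl | ha)
        · exact hjV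
        · exact h1 ha
    have hy' : y ∉ ({i, j} : Set α) := by
      rintro (h | h)
      · exact hyi h
      · exact hyj h
    obtain ⟨U, hUs, hU, hyU⟩ := hV.strong_elimination hpair hjV (by simp) (h1 hy) hy'
    have hUsub : U ⊆ insert i P := by
      intro a ha
      obtain ⟨h3, h4⟩ := hUs ha
      rcases h3 with h3 | h3 | h3
      · rw [hVj] at h3
        rcases h3 with h | h
        · exact absurd h h4
        · right; exact h
      · left; exact h3
      · exact absurd h3 h4
    have hUP : U \ {i, j} = P := by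
      refine diff_eq_of_subset hU (by rwa [hQ]) ?_ ?_
      · intro hs
        exact hy' (hs hyU)
      · rintro a ⟨ha, ha'⟩
        rcases hUsub ha with h | h
        · exact absurd (show a ∈ ({i, j} : Set α) by rw [h]; simp) ha'
        · exact h
    have hPU : P ⊆ U := by rw [← hUP]; exact Set.sdiff_subset
    have hiU : i ∈ U := by
      by_contra hiU
      have hUV : U ⊆ V := by
        intro a ha
        rcases hUsub ha with h | h
        · exact absurd (h ▸ ha) hiU
        · exact h1 h
      have : U = V := hU.eq_of_subset_isCircuit hV hUV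
      have hjU : j ∈ U := this ▸ hjV
      exact (hUs hjU).2 rfl
    have : U = insert i P := hUsub.antisymm (by
      rintro a (rfl | ha)
      · exact hiU
      · exact hPU ha)
    unfold Sep
    rwa [← this]
  · left
    have : V = P := by
      refine Set.Subset.antisymm ?_ h1
      intro a ha
      rcases h2 ha with h | h | h
      · exact h
      · exact absurd (h ▸ ha) hiV
      · exact absurd (h ▸ ha) hjV
    rwa [← this]

lemma Sep.not_circuit (h : Sep M C P i j) (hi : i ∉ P) : ¬ (Q M C i j).IsCircuit P := by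
  intro hP
  have : P = insert i P := hP.eq_of_subset_isCircuit h (Set.subset_insert _ _)
  exact hi (this ▸ (by simp))

lemma W_ncard_biUnion {T : Set α} {P : α → Set α}
    (hd : ∀ x ∈ T, ∀ y ∈ T, x ≠ y → Disjoint (P x) (P y)) :
    W (fun y => ((P y).ncard : ℝ)) T = ((⋃ y ∈ T, P y).ncard : ℝ) := by
  induction T, Set.toFinite T using Set.Finite.induction_on with
  | empty => simp
  | @insert a T haT _ ih =>
    rw [W_insert haT, ih (fun x hx y hy => hd x (Or.inr hx) y (Or.inr hy)),
      Set.biUnion_insert, Set.ncard_union_eq ?_ (Set.toFinite _) (Set.toFinite _)]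
    · push_cast; ring
    · rw [Set.disjoint_iUnion₂_right]
      intro b hb
      exact hd a (by simp) b (Or.inr hb) (fun h => haT (h ▸ hb))

open Classical in
/-- **The ears inequality.** -/
theorem ears_ineq (hC : M.IsCircuit C) (hmax : ∀ Z, M.IsCircuit Z → Z.ncard ≤ C.ncard)
    (hCnt : C.Nontrivial)
    (Y : Set α) (P : α → Set α) (hY : ∀ y ∈ Y, y ∈ P y) (hP : ∀ y ∈ Y, (M ／ C).IsCircuit (P y))
    (hd : ∀ x ∈ Y, ∀ y ∈ Y, x ≠ y → Disjoint (P x) (P y))
    (hskew : ∀ T, (M ／ C).IsCircuit T → T ⊆ ⋃ y ∈ Y, P y → ∃ y ∈ Y, T = P y)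
    (hnt : ∀ y ∈ Y, ∃ i ∈ C, ∃ j ∈ C, i ≠ j ∧ Sep M C (P y) i j)
    (lam : α → ℝ) (hlam : ∀ y ∈ Y, 0 ≤ lam y) {δ : ℝ}
    (hδ : ∀ i ∈ C, ∀ j ∈ C, i ≠ j → W lam {y | y ∈ Y ∧ Sep M C (P y) i j} ≤ δ) :
    2 * W (fun y => lam y * ((P y).ncard : ℝ)) Y ≤ δ * (C.ncard : ℝ) := by
  set X : Set α := (⋃ y ∈ Y, P y) \ Y with hX
  have hPC : ∀ y ∈ Y, ∀ a ∈ P y, a ∉ C := by
    intro y hy a ha
    have := (hP y hy).subset_ground ha
    rw [Matroid.contract_ground] at this
    exact this.2
  have hPE : ∀ y ∈ Y, P y ⊆ M.E := by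
    intro y hy a ha
    have := (hP y hy).subset_ground ha
    rw [Matroid.contract_ground] at this
    exact this.1
  have hYC : ∀ y ∈ Y, y ∉ C := fun y hy => hPC y hy y (hY y hy)
  have hYP : ∀ y ∈ Y, ∀ z ∈ Y, z ∈ P y → z = y := by
    intro y hy z hz hzy
    by_contra hne
    exact Set.disjoint_left.1 (hd z hz y hy hne) (hY z hz) hzy
  have hPX : ∀ y ∈ Y, P y \ {y} ⊆ X := by
    rintro y hy a ⟨ha, hay⟩
    refine ⟨Set.mem_biUnion hy ha, fun haY => hay (hYP y hy a haY ha)⟩
  have hXC : ∀ a ∈ X, a ∉ C := by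
    rintro a ⟨ha, -⟩
    obtain ⟨y, hy, hay⟩ := Set.mem_iUnion₂.1 ha
    exact hPC y hy a hay
  have hUP : ∀ a, a ∈ (⋃ y ∈ Y, P y) ↔ ∃ y ∈ Y, a ∈ P y := by
    intro a; simp
  -- circuits inside C and the ears contain full ears
  have hstruct : ∀ U, M.IsCircuit U → U ⊆ C ∪ ⋃ y ∈ Y, P y → ∀ y ∈ Y, ∀ z ∈ U, z ∈ P y →
      P y ⊆ U := by
    intro U hU hUs y hy z hzU hzy
    obtain ⟨T, hT, hzT, hTs⟩ := exists_circuit_contract hU hzU (hPC y hy z hzy)
    have hTP : T ⊆ ⋃ y ∈ Y, P y := by
      intro a ha
      rcases hUs (hTs ha).1 with h | h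
      · exact absurd h (hTs ha).2
      · exact h
    obtain ⟨y', hy', rfl⟩ := hskew T hT hTP
    have : y' = y := by
      by_contra hne
      exact Set.disjoint_left.1 (hd y' hy' y hy hne) hzT hzy
    subst this
    exact hTs.trans Set.sdiff_subset
  set N : Matroid α := (M ／ X) ↾ (C ∪ Y) with hN
  have hGE : C ∪ Y ⊆ (M ／ X).E := by
    rw [Matroid.contract_ground]
    rintro a (ha | ha)
    · exact ⟨hC.subset_ground ha, fun h => hXC a h ha⟩
    · exact ⟨hPE a ha (hY a ha), fun h => h.2 ha⟩
  have hNcirc : ∀ Z, N.IsCircuit Z ↔ (M ／ X).IsCircuit Z ∧ Z ⊆ C ∪ Y :=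
    fun Z => Matroid.restrict_isCircuit_iff hGE
  have hNcl : ∀ T, T ⊆ C ∪ Y → N.closure T = (M.closure (T ∪ X) \ X) ∩ (C ∪ Y) := by
    intro T hT
    rw [hN, Matroid.restrict_closure_eq _ hT hGE, Matroid.contract_closure_eq]
  have hsubP : ∀ Z, Z ⊆ C ∪ Y → Z ∪ X ⊆ C ∪ ⋃ y ∈ Y, P y := by
    rintro Z hZ a (ha | ha)
    · rcases hZ ha with h | h
      · left; exact h
      · right; exact Set.mem_biUnion h (hY a h)
    · right; exact ha.1
  -- C is a circuit of N
  have hNC : N.IsCircuit C := by
    rw [hNcirc]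
    refine ⟨?_, Set.subset_union_left⟩
    obtain ⟨x, hx⟩ := hC.nonempty
    have hxX : x ∉ X := fun h => hXC x h hx
    obtain ⟨T, hT, hxT, hTs⟩ := exists_circuit_contract hC hx hxX
    obtain ⟨V, hV, h1, h2⟩ := exists_circuit_of_contract hT
    have hVs : V ⊆ C ∪ ⋃ y ∈ Y, P y :=
      h2.trans (hsubP T ((hTs.trans Set.sdiff_subset).trans Set.subset_union_left))
    have hVX : ∀ a ∈ V, a ∉ X := by
      intro a haV haX
      obtain ⟨y, hy, hay⟩ := (hUP a).1 haX.1
      have := hstruct V hV hVs y hy a haV hay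
      have hyV := this (hY y hy)
      rcases h2 hyV with h | h
      · exact hYC y hy (hTs h).1
      · exact h.2 hy
    have hVT : V ⊆ T := by
      intro a ha
      rcases h2 ha with h | h
      · exact h
      · exact absurd h (hVX a ha)
    have hVC : V = C :=
      hV.eq_of_subset_isCircuit hC (hVT.trans (hTs.trans Set.sdiff_subset))
    have : T = C := Set.Subset.antisymm (hTs.trans Set.sdiff_subset) (hVC ▸ hVT)
    rwa [← this]
  have hNsp : N.E ⊆ N.closure C := by
    rw [hNcl C Set.subset_union_left]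
    rintro a ha
    have ha' : a ∈ C ∪ Y := ha
    refine ⟨⟨?_, (hGE ha').2⟩, ha'⟩
    rcases ha' with h | h
    · exact M.mem_closure_of_mem' (Or.inl h) (hC.subset_ground h)
    · obtain ⟨V, hV, h1, h2⟩ := exists_circuit_of_contract (hP a h)
      refine M.closure_subset_closure ?_ (hV.mem_closure_sdiff_singleton_of_mem (h1 (hY a h)))
      rintro b ⟨hb, hba⟩
      rcases h2 hb with h' | h'
      · right; exact hPX a h ⟨h', hba⟩
      · left; exact h'
  have hNl : ∀ x, ¬ N.IsCircuit {x} := by
    intro x hx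
    obtain ⟨hx1, hx2⟩ := (hNcirc _).1 hx
    rcases hx2 rfl with h | h
    · have : {x} = C := hx.eq_of_subset_isCircuit hNC (by simpa using h)
      rw [← this] at hCnt
      exact Set.not_nontrivial_singleton hCnt
    · obtain ⟨V, hV, h1, h2⟩ := exists_circuit_of_contract hx1
      have hxV : x ∈ V := h1 rfl
      have hVs : V ⊆ C ∪ ⋃ y ∈ Y, P y := h2.trans (hsubP {x} (by simpa using Or.inr h))
      have hPV := hstruct V hV hVs x h x hxV (hY x h)
      have hVP : V ⊆ P x := by
        intro a ha
        rcases h2 ha with h' | h'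
        · rw [Set.mem_singleton_iff] at h'
          rw [h']; exact hY x h
        · obtain ⟨y, hy, hay⟩ := (hUP a).1 h'.1
          have hyV := hstruct V hV hVs y hy a ha hay (hY y hy)
          rcases h2 hyV with h'' | h''
          · rw [Set.mem_singleton_iff] at h''
            rwa [← h'']
          · exact absurd hy h''.2
      have hVeq : V = P x := hVP.antisymm hPV
      obtain ⟨i, hi, j, hj, hij, hsep⟩ := hnt x h
      have hxij : x ∉ C \ {i, j} := fun h' => hYC x h h'.1
      obtain ⟨T, hT, hxT, hTs⟩ := exists_circuit_contract (X := C \ {i, j}) hV hxV hxij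
      have hTP : T ⊆ insert i (P x) := by
        intro a ha
        right
        rw [← hVeq]
        exact (hTs ha).1
      have hTeq : T = insert i (P x) := hT.eq_of_subset_isCircuit hsep hTP
      have hiT : i ∈ T := by rw [hTeq]; simp
      have : i ∈ P x := by rw [← hVeq]; exact (hTs hiT).1
      exact hPC x h i this hi
  -- weights
  set θ : ℝ := W lam Y with hθ
  have hθ0 : 0 ≤ θ := W_nonneg hlam
  set lam' : α → ℝ := fun x => if x ∈ C then θ else if x ∈ Y then lam x else 0 with hlam'
  have hlam'C : ∀ x ∈ C, lam' x = θ := fun x hx => by simp [hlam', hx]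
  have hlam'Y : ∀ x ∈ Y, lam' x = lam x := fun x hx => by simp [hlam', hx, hYC x hx]
  have hlam'0 : ∀ x, 0 ≤ lam' x := by
    intro x
    by_cases h1 : x ∈ C
    · rw [hlam'C x h1]; exact hθ0
    · by_cases h2 : x ∈ Y
      · rw [hlam'Y x h2]; exact hlam x h2
      · simp [hlam', h1, h2]
  set v : α → ℝ := fun x => if x ∈ C then 1 else ((P x).ncard : ℝ) with hv
  have hv0 : ∀ x, 0 ≤ v x := by
    intro x
    simp only [hv]
    split_ifs
    · norm_num
    · positivity
  obtain ⟨i₀, hi₀, j₀, hj₀, hij₀⟩ := hCnt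
  have hδ0 : 0 ≤ δ := by
    refine le_trans (W_nonneg ?_) (hδ i₀ hi₀ j₀ hj₀ hij₀)
    intro x hx
    exact hlam x hx.1
  have hmain := lemD v hv0 (C.ncard : ℝ) _ N C lam' (2 * θ + δ) le_rfl hNC hNsp hNl hlam'0
    (by
      intro x hx
      rcases (show x ∈ C ∪ Y from hx) with h | h
      · rw [hlam'C x h]; linarith
      · rw [hlam'Y x h]
        have := le_W_of_mem hlam h
        linarith)
    (by
      intro i hi j hj hij
      have hsub : Dc N C i j ⊆ {i, j} ∪ {y | y ∈ Y ∧ Sep M C (P y) i j} := by
        rintro a ⟨ha, hacl⟩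
        rcases (show a ∈ C ∪ Y from ha) with h | h
        · left
          by_contra hne
          refine hacl (N.mem_closure_of_mem' ?_ ha)
          exact ⟨h, hne⟩
        · right
          refine ⟨h, ?_⟩
          by_contra hns
          have hQ := (ear_dichotomy hC hi hj hij (hP a h)).resolve_right hns
          obtain ⟨V, hV, h1, h2⟩ := exists_circuit_of_contract hQ
          refine hacl ?_
          rw [hNcl _ (Set.sdiff_subset.trans Set.subset_union_left)]
          refine ⟨⟨?_, (hGE ha).2⟩, ha⟩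
          refine M.closure_subset_closure ?_ (hV.mem_closure_sdiff_singleton_of_mem (h1 (hY a h)))
          rintro b ⟨hb, hba⟩
          rcases h2 hb with h' | h'
          · right; exact hPX a h ⟨h', hba⟩
          · left; exact h'
      refine (W_mono_set (fun x _ => hlam'0 x) hsub).trans ?_
      have hdisj : Disjoint ({i, j} : Set α) {y | y ∈ Y ∧ Sep M C (P y) i j} := by
        rw [Set.disjoint_left]
        rintro a (h | h) ⟨h', -⟩
        · exact hYC a h' (h ▸ hi)
        · exact hYC a h' (h ▸ hj)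
      rw [W_union hdisj, W_insert (by simpa using hij), W_singleton, hlam'C i hi, hlam'C j hj,
        W_congr (fun x hx => hlam'Y x hx.1)]
      have := hδ i hi j hj hij
      linarith)
    (by
      intro Z hZ
      obtain ⟨hZ1, hZ2⟩ := (hNcirc _).1 hZ
      obtain ⟨V, hV, h1, h2⟩ := exists_circuit_of_contract hZ1
      have hVs : V ⊆ C ∪ ⋃ y ∈ Y, P y := h2.trans (hsubP Z hZ2)
      have hZY : Z \ C ⊆ Y := by
        rintro a ⟨ha, haC⟩
        exact (hZ2 ha).resolve_left haC
      have e1 : W v (Z ∩ C) = ((Z ∩ C).ncard : ℝ) := by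
        rw [← W_one]
        exact W_congr fun x hx => by simp [hv, hx.2]
      have e2 : W v (Z \ C) = ((⋃ y ∈ (Z \ C), P y).ncard : ℝ) := by
        rw [← W_ncard_biUnion (fun x hx y hy => hd x (hZY hx) y (hZY hy))]
        exact W_congr fun x hx => by simp [hv, hx.2]
      rw [← W_inter_add_diff Z C, e1, e2]
      have hdisj : Disjoint (Z ∩ C) (⋃ y ∈ (Z \ C), P y) := by
        rw [Set.disjoint_left]
        rintro a ⟨-, haC⟩ ha
        obtain ⟨y, hy, hay⟩ := Set.mem_iUnion₂.1 ha
        exact hPC y (hZY hy) a hay haC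
      have hle : ((Z ∩ C) ∪ (⋃ y ∈ (Z \ C), P y)).ncard ≤ V.ncard := by
        refine Set.ncard_le_ncard ?_ (Set.toFinite _)
        rintro a (ha | ha)
        · exact h1 ha.1
        · obtain ⟨y, hy, hay⟩ := Set.mem_iUnion₂.1 ha
          exact hstruct V hV hVs y (hZY hy) y (h1 hy.1) (hY y (hZY hy)) hay
      rw [Set.ncard_union_eq hdisj (Set.toFinite _) (Set.toFinite _)] at hle
      have := hmax V hV
      exact_mod_cast hle.trans this)
  have hsum : W (fun x => lam' x * v x) N.E = θ * (C.ncard : ℝ) +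
      W (fun y => lam y * ((P y).ncard : ℝ)) Y := by
    have hE : N.E = C ∪ Y := rfl
    have hdisj : Disjoint C Y := by
      rw [Set.disjoint_left]
      intro a ha ha'
      exact hYC a ha' ha
    rw [hE, W_union hdisj]
    congr 1
    · rw [mul_comm, ← W_const]
      refine W_congr fun x hx => ?_
      simp [hlam', hv, hx]
    · refine W_congr fun x hx => ?_
      simp [hlam', hv, hYC x hx, hx]
  rw [hsum] at hmain
  nlinarith

end Pool.Agent.Royle
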