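import Pool.Agent.Royle.Count

/-!
# The endgame: circuits of size at most four
-/

set_option autoImplicit false
set_option linter.unusedSectionVars false

open Set
open scoped Matroid

namespace Pool.Agent.Royle

variable {α : Type*} [Fintype α] {M N R : Matroid α} {B C D T X Y Z U P q : Set α}
  {a a' b b' e f g h i j k l m x x' y y' z z' : α} {d : ℕ}

lemma Setup'.Y_nonempty (h : Setup' M C d Y) : Y.Nonempty := by
  by_contra hemp
  rw [Set.not_nonempty_iff_eq_empty] at hemp
  obtain ⟨i, hi, j, hj, hij⟩ := h.C_nontrivial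
  obtain ⟨D, hD, hDC⟩ := exists_cocircuit_pair h.circ hi hj hij
  have hDsub : D ⊆ C := by
    intro a ha
    by_contra haC
    obtain ⟨y, hy, -⟩ := h.cover a (hD.subset_ground ha) haC
    rw [hemp] at hy
    exact hy
  rw [Set.inter_eq_self_of_subset_left hDsub] at hDC
  have := h.cosimple D hD
  rw [hDC, Set.ncard_pair hij] at this
  omega

lemma Setup'.par_root (h : Setup' M C d Y) (hy : y ∈ Y) (hx : x ∈ K M C y) (hxy : x ≠ y) :
    (M ／ C).IsCircuit {x, y} := by
  obtain ⟨-, -, hp⟩ := h.count hy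
  obtain ⟨i, j, hF⟩ := h.fat hy
  have hyP := (h.mem y hy).2.2
  have hPK := h.P_sub hy
  have hpair : ∀ f ∈ best M C (K M C y), f ≠ y → best M C (K M C y) = {f, y} := by
    intro f hf hfy
    refine (Set.eq_of_subset_of_ncard_le ?_ ?_ (Set.toFinite _)).symm
    · rintro t (rfl | rfl)
      · exact hf
      · exact hyP
    · rw [Set.ncard_pair hfy, hp]
  by_cases hxP : x ∈ best M C (K M C y)
  · rw [← hpair x hxP hxy]
    exact (h.P_NT hy).1
  · obtain ⟨f, hf, hc⟩ := hF.par x hx hxP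
    have hxf : x ≠ f := fun h' => hxP (h' ▸ hf)
    have h1 := h.par_contract hy hF hp.ge hx (hPK hf) hxf hc
    by_cases hfy : f = y
    · rwa [← hfy]
    · have h2 := (h.P_NT hy).1
      rw [hpair f hf hfy] at h2
      rw [Set.pair_comm] at h2
      exact par_trans h1 h2 hxy hxf (Ne.symm hfy)

lemma Setup'.all_par (h : Setup' M C d Y) (hy : y ∈ Y) (ha : a ∈ K M C y) (hb : b ∈ K M C y)
    (hab : a ≠ b) : (M ／ C).IsCircuit {a, b} := by
  by_cases hay : a = y
  · rw [Set.pair_comm, hay]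
    exact h.par_root hy hb (fun h' => hab (hay.trans h'.symm))
  by_cases hby : b = y
  · rw [hby]
    exact h.par_root hy ha hay
  exact par_trans (h.par_root hy ha hay) (h.par_root hy hb hby) hab hay hby

lemma eq_four {V : Set α} (h4 : V ∩ C = {a, b}) (hd : V \ C = {x, x'}) : V = {a, b, x, x'} := by
  rw [← Set.inter_union_sdiff V C, h4, hd, Set.insert_union, Set.singleton_union]

/-- The situation at the end: circuits have three or four elements, and no element is a loop
of `M ／ C`. -/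
structure Four (M : Matroid α) (C : Set α) : Prop where
  circ : M.IsCircuit C
  card : C.ncard = 4
  le : ∀ U, M.IsCircuit U → U.ncard ≤ 4
  ge : ∀ U, M.IsCircuit U → 3 ≤ U.ncard
  loop : ∀ x, ¬ (M ／ C).IsCircuit {x}

lemma Setup'.four (h : Setup' M C d Y) : Four M C := by
  obtain ⟨y, hy⟩ := h.Y_nonempty
  obtain ⟨h4, -, -⟩ := h.count hy
  refine ⟨h.circ, h4, ?_, h.simple, ?_⟩
  · intro U hU
    rw [← h4]
    exact h.max U hU
  · intro x hx
    have hxE := hx.subset_ground rfl
    rw [Matroid.contract_ground] at hxE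
    obtain ⟨y, hy, hK⟩ := h.cover x hxE.1 hxE.2
    obtain ⟨-, -, hp⟩ := h.count hy
    exact h.not_loop hy hp.ge (hK ▸ h.mem_K_self hxE.1 hxE.2) hx

/-- no circuit has exactly one element outside of `C` -/
lemma Four.two_of_mem (h : Four M C) (hU : M.IsCircuit U) (hx : x ∈ U) (hxC : x ∉ C) :
    ∃ y ∈ U, y ∉ C ∧ y ≠ x ∧ Cn (M ／ C) x y := by
  obtain ⟨T, hT, hxT, hTs⟩ := exists_circuit_contract (X := C) hU hx hxC
  by_contra hcon
  push Not at hcon
  have : T = {x} := by
    refine Set.Subset.antisymm (fun a ha => ?_) (by simpa using hxT)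
    by_contra hax
    exact hcon a (hTs ha).1 (hTs ha).2 hax ⟨T, hT, hxT, ha⟩
  exact h.loop x (this ▸ hT)

lemma Four.inter_card (h : Four M C) (hxx : x ≠ x') (hU : M.IsCircuit U)
    (hUx : U \ C = {x, x'}) : (U ∩ C).ncard ≤ 2 ∧ (U ∩ C).Nonempty := by
  have h1 : (U ∩ C).ncard + (U \ C).ncard = U.ncard :=
    Set.ncard_inter_add_ncard_sdiff_eq_ncard U C (Set.toFinite _)
  rw [hUx, Set.ncard_pair hxx] at h1
  have h2 := h.le U hU
  have h3 := h.ge U hU
  refine ⟨by omega, ?_⟩
  rw [← Set.ncard_pos (Set.toFinite _)]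
  omega

lemma Four.cover_C (h : Four M C) (hU : M.IsCircuit U) (hV : M.IsCircuit Z) (hne : U ≠ Z)
    (hUx : U \ C = {x, x'}) (hVx : Z \ C = {x, x'}) : C ⊆ U ∪ Z := by
  obtain ⟨V, hVs, hV'⟩ := hU.elimination hV hne x
  have hVC : V ⊆ C := by
    intro a ha
    by_contra haC
    obtain ⟨b, hb, hbC, hba, -⟩ := h.two_of_mem hV' ha haC
    have key : ∀ t ∈ V, t ∉ C → t = x' := by
      intro t ht htC
      obtain ⟨h1, h2⟩ := hVs ht
      have h3 : t ∈ ({x, x'} : Set α) := by
        rcases h1 with h1 | h1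
        · rw [← hUx]; exact ⟨h1, htC⟩
        · rw [← hVx]; exact ⟨h1, htC⟩
      rcases h3 with h3 | h3
      · exact absurd h3 h2
      · exact h3
    exact hba ((key b hb hbC).trans (key a ha haC).symm)
  have := hV'.eq_of_subset_isCircuit h.circ hVC
  rw [← this]
  exact hVs.trans Set.sdiff_subset

lemma Four.exists_other (h : Four M C) (hxx : x ≠ x') (hP : (M ／ C).IsCircuit {x, x'})
    (hU : M.IsCircuit U) (hUx : U \ C = {x, x'}) (ha : a ∈ C) (haU : a ∉ U) :
    ∃ Z, M.IsCircuit Z ∧ Z ≠ U ∧ a ∈ Z ∧ Z \ C = {x, x'} := by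
  obtain ⟨-, k, hkU, hkC⟩ := h.inter_card hxx hU hUx
  obtain ⟨Z, hZ, haZ, hkZ, hd⟩ := exists_swap h.circ hU (by rwa [hUx]) hkU hkC ha haU
  exact ⟨Z, hZ, fun h' => haU (h' ▸ haZ), haZ, by rw [hd, hUx]⟩

lemma Four.inter_two (h : Four M C) (hxx : x ≠ x') (hP : (M ／ C).IsCircuit {x, x'})
    (hU : M.IsCircuit U) (hUx : U \ C = {x, x'}) : (U ∩ C).ncard = 2 := by
  obtain ⟨h1, h2⟩ := h.inter_card hxx hU hUx
  have : ¬ C ⊆ U := by
    intro hs
    rw [Set.inter_eq_self_of_subset_right hs, h.card] at h1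
    omega
  obtain ⟨a, ha, haU⟩ := Set.not_subset.1 this
  obtain ⟨Z, hZ, hZU, haZ, hd⟩ := h.exists_other hxx hP hU hUx ha haU
  obtain ⟨h3, -⟩ := h.inter_card hxx hZ hd
  have h4 := h.cover_C hU hZ hZU.symm hUx hd
  have h5 : C ⊆ (U ∩ C) ∪ (Z ∩ C) := by
    intro t ht
    rcases h4 ht with h' | h'
    · left; exact ⟨h', ht⟩
    · right; exact ⟨h', ht⟩
  have h6 := Set.ncard_le_ncard h5 (Set.toFinite _)
  have h7 := Set.ncard_union_le (U ∩ C) (Z ∩ C)
  have := h.card
  omega

/-- **T4** -/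
lemma Four.shape (h : Four M C) (hxx : x ≠ x') (hP : (M ／ C).IsCircuit {x, x'})
    (hU : M.IsCircuit U) (hUx : U \ C = {x, x'}) :
    ∃ a ∈ C, ∃ b ∈ C, a ≠ b ∧ U = {a, b, x, x'} := by
  obtain ⟨a, b, hab, h1⟩ := Set.ncard_eq_two.1 (h.inter_two hxx hP hU hUx)
  have ha : a ∈ U ∩ C := by rw [h1]; simp
  have hb : b ∈ U ∩ C := by rw [h1]; simp
  exact ⟨a, ha.2, b, hb.2, hab, eq_four h1 hUx⟩

/-- **T1** -/
lemma Four.partner (h : Four M C) (hxx : x ≠ x') (hP : (M ／ C).IsCircuit {x, x'}) (ha : a ∈ C) :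
    ∃ b ∈ C, b ≠ a ∧ M.IsCircuit {a, b, x, x'} := by
  have key : ∃ U, M.IsCircuit U ∧ U \ C = {x, x'} ∧ a ∈ U := by
    obtain ⟨U, hU, h1, h2⟩ := exists_circuit_of_contract hP
    have hxC : x ∉ C := by
      have := hP.subset_ground (show x ∈ ({x, x'} : Set α) by simp)
      rw [Matroid.contract_ground] at this
      exact this.2
    have hxC' : x' ∉ C := by
      have := hP.subset_ground (show x' ∈ ({x, x'} : Set α) by simp)
      rw [Matroid.contract_ground] at this
      exact this.2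
    have hUx : U \ C = {x, x'} := by
      refine Set.Subset.antisymm ?_ ?_
      · rintro t ⟨ht, htC⟩
        exact (h2 ht).resolve_right htC
      · rintro t (rfl | rfl)
        · exact ⟨h1 (by simp), hxC⟩
        · exact ⟨h1 (by simp), hxC'⟩
    by_cases haU : a ∈ U
    · exact ⟨U, hU, hUx, haU⟩
    · obtain ⟨Z, hZ, -, haZ, hd⟩ := h.exists_other hxx hP hU hUx ha haU
      exact ⟨Z, hZ, hd, haZ⟩
  obtain ⟨U, hU, hUx, haU⟩ := key
  obtain ⟨a₁, ha₁, b₁, hb₁, hab, rfl⟩ := h.shape hxx hP hU hUx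
  have hxC : x ∉ C := by
    have := hP.subset_ground (show x ∈ ({x, x'} : Set α) by simp)
    rw [Matroid.contract_ground] at this
    exact this.2
  have hxC' : x' ∉ C := by
    have := hP.subset_ground (show x' ∈ ({x, x'} : Set α) by simp)
    rw [Matroid.contract_ground] at this
    exact this.2
  rcases haU with h1 | h1 | h1 | h1
  · subst h1
    exact ⟨b₁, hb₁, hab.symm, hU⟩
  · subst h1
    refine ⟨a₁, ha₁, hab, ?_⟩
    rwa [Set.insert_comm]
  · exact absurd (h1 ▸ ha) hxC
  · exact absurd (h1 ▸ ha) hxC'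

lemma diff_of_mem (ha : a ∈ C) (hb : b ∈ C) (hx : x ∉ C) (hx' : x' ∉ C) :
    ({a, b, x, x'} : Set α) \ C = {x, x'} := by
  ext t
  constructor
  · rintro ⟨h1 | h1 | h1 | h1, h2⟩
    · exact absurd (h1 ▸ ha) h2
    · exact absurd (h1 ▸ hb) h2
    · left; exact h1
    · right; exact h1
  · rintro (h1 | h1)
    · rw [h1]; exact ⟨by simp, hx⟩
    · rw [Set.mem_singleton_iff] at h1; rw [h1]; exact ⟨by simp, hx'⟩

/-- **T2** -/
lemma Four.unique (h : Four M C) (hx : x ∉ C) (hx' : x' ∉ C) (ha : a ∈ C) (hb : b ∈ C)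
    (hb' : b' ∈ C) (hab : a ≠ b) (h1 : M.IsCircuit {a, b, x, x'})
    (h2 : M.IsCircuit {a, b', x, x'}) : b = b' := by
  by_contra hne
  have hd1 := diff_of_mem ha hb hx hx'
  have hd2 := diff_of_mem ha hb' hx hx'
  have hUne : ({a, b, x, x'} : Set α) ≠ {a, b', x, x'} := by
    intro heq
    have : b ∈ ({a, b', x, x'} : Set α) := by rw [← heq]; simp
    rcases this with h3 | h3 | h3 | h3
    · exact hab h3.symm
    · exact hne h3
    · exact hx (h3 ▸ hb)
    · exact hx' (h3 ▸ hb)
  have h3 := h.cover_C h1 h2 hUne hd1 hd2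
  have h4 : C ⊆ {a, b, b'} := by
    intro t ht
    rcases h3 ht with (h4 | h4 | h4 | h4) | (h4 | h4 | h4 | h4)
    · rw [h4]; simp
    · rw [h4]; simp
    · exact absurd (h4 ▸ ht) hx
    · exact absurd (h4 ▸ ht) hx'
    · rw [h4]; simp
    · rw [h4]; simp
    · exact absurd (h4 ▸ ht) hx
    · exact absurd (h4 ▸ ht) hx'
  have h5 := Set.ncard_le_ncard h4 (Set.toFinite _)
  have h6 : ({a, b, b'} : Set α).ncard ≤ 3 := by
    refine (Set.ncard_insert_le _ _).trans ?_
    have := Set.ncard_insert_le b ({b'} : Set α)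
    rw [Set.ncard_singleton] at this
    omega
  have := h.card
  omega

lemma isCircuit_swap_left (h1 : M.IsCircuit {a, b, x, x'}) : M.IsCircuit {b, a, x, x'} := by
  rwa [Set.insert_comm]

lemma isCircuit_swap_right (h1 : M.IsCircuit {a, b, x, x'}) : M.IsCircuit {a, b, x', x} := by
  rwa [Set.pair_comm x x'] at h1

/-- **T3** -/
lemma Four.compl (h : Four M C) (hxx : x ≠ x') (hP : (M ／ C).IsCircuit {x, x'})
    (hC : C = {a, b, a', b'}) (hab : a ≠ b) (haa' : a ≠ a') (hba' : b ≠ a')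
    (h1 : M.IsCircuit {a, b, x, x'}) : M.IsCircuit {a', b', x, x'} := by
  have hxC : x ∉ C := by
    have := hP.subset_ground (show x ∈ ({x, x'} : Set α) by simp)
    rw [Matroid.contract_ground] at this
    exact this.2
  have hxC' : x' ∉ C := by
    have := hP.subset_ground (show x' ∈ ({x, x'} : Set α) by simp)
    rw [Matroid.contract_ground] at this
    exact this.2
  have ha : a ∈ C := by rw [hC]; simp
  have hb : b ∈ C := by rw [hC]; simp
  have ha' : a' ∈ C := by rw [hC]; simp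
  have hb' : b' ∈ C := by rw [hC]; simp
  obtain ⟨c, hc, hca', h2⟩ := h.partner hxx hP ha'
  have hc' := hc
  rw [hC] at hc'
  rcases hc' with h3 | h3 | h3 | h3
  · rw [h3] at h2
    exact absurd (h.unique hxC hxC' ha hb ha' hab h1 (isCircuit_swap_left h2)) hba'
  · rw [h3] at h2
    exact absurd (h.unique hxC hxC' hb ha ha' hab.symm (isCircuit_swap_left h1)
      (isCircuit_swap_left h2)) haa'
  · exact absurd h3 hca'
  · rw [Set.mem_singleton_iff] at h3
    rwa [h3] at h2

/-- circuits through an element of a component with few elements outside -/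
lemma Four.pair_mem (h : Four M C) (hU : M.IsCircuit U) (hx : x ∈ U) (hxC : x ∉ C)
    (hall : ∀ t ∈ U, t ∉ C → Cn (M ／ C) x t → t = x ∨ t = x') : x' ∈ U := by
  obtain ⟨y, hy, hyC, hyx, hcn⟩ := h.two_of_mem hU hx hxC
  rcases hall y hy hyC hcn with h1 | h1
  · exact absurd h1 hyx
  · rwa [← h1]

lemma Setup'.not_cn (h : Setup' M C d Y) (hy : y ∈ Y) (hy' : y' ∈ Y) (hyy : y ≠ y')
    (hx : x ∈ K M C y) (hz : z ∈ K M C y') : ¬ Cn (M ／ C) x z := by
  intro hcn
  have h1 : z ∈ K M C x := hcn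
  rw [K_eq hx] at h1
  exact Set.disjoint_left.1 (h.K_disj y hy y' hy' hyy) h1 hz

/-- two components: the types of all pairs agree -/
lemma Setup'.type_eq (h : Setup' M C d Y) (hy : y ∈ Y) (hy' : y' ∈ Y) (hyy : y ≠ y')
    (hx : x ∈ K M C y) (hx' : x' ∈ K M C y) (hxx : x ≠ x') (hz : z ∈ K M C y')
    (hz' : z' ∈ K M C y') (hzz : z ≠ z') (ha : a ∈ C) (hb : b ∈ C) (hab : a ≠ b)
    (h1 : M.IsCircuit {a, b, x, x'}) : M.IsCircuit {a, b, z, z'} := by
  have hF := h.four
  have hPx := h.all_par hy hx hx' hxx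
  have hPz := h.all_par hy' hz hz' hzz
  have hxC := K_notMem hx
  have hxC' := K_notMem hx'
  have hzC := K_notMem hz
  have hzC' := K_notMem hz'
  have nxz : ¬ Cn (M ／ C) x z := h.not_cn hy hy' hyy hx hz
  have nxz' : ¬ Cn (M ／ C) x z' := h.not_cn hy hy' hyy hx hz'
  have nzx : ¬ Cn (M ／ C) z x := fun hc => nxz hc.symm
  have nz'x : ¬ Cn (M ／ C) z' x := fun hc => nxz' hc.symm
  have nzx' : ¬ Cn (M ／ C) z x' := h.not_cn hy' hy hyy.symm hz hx'
  have nz'x' : ¬ Cn (M ／ C) z' x' := h.not_cn hy' hy hyy.symm hz' hx'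
  obtain ⟨b', hb', hb'a, h2⟩ := hF.partner hzz hPz ha
  by_cases hbb : b' = b
  · rwa [hbb] at h2
  exfalso
  have hxU2 : x ∉ ({a, b', z, z'} : Set α) := by
    rintro (h3 | h3 | h3 | h3)
    · exact hxC (h3 ▸ ha)
    · exact hxC (h3 ▸ hb')
    · exact nxz (h3 ▸ ⟨_, hPx, by simp, by simp⟩)
    · rw [Set.mem_singleton_iff] at h3
      exact nxz' (h3 ▸ ⟨_, hPx, by simp, by simp⟩)
  obtain ⟨V, hVs, hV, hxV⟩ := h1.strong_elimination h2 (e := a) (f := x) (by simp) (by simp)
    (by simp) hxU2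
  have hVsub : ∀ t ∈ V, t = b ∨ t = b' ∨ t = x ∨ t = x' ∨ t = z ∨ t = z' := by
    intro t ht
    obtain ⟨h3, h4⟩ := hVs ht
    have h5 : t ≠ a := h4
    rcases h3 with (h3 | h3 | h3 | h3) | (h3 | h3 | h3 | h3)
    · exact absurd h3 h5
    · exact Or.inl h3
    · exact Or.inr (Or.inr (Or.inl h3))
    · exact Or.inr (Or.inr (Or.inr (Or.inl h3)))
    · exact absurd h3 h5
    · exact Or.inr (Or.inl h3)
    · exact Or.inr (Or.inr (Or.inr (Or.inr (Or.inl h3))))
    · exact Or.inr (Or.inr (Or.inr (Or.inr (Or.inr h3))))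
  have hx'V : x' ∈ V := by
    refine hF.pair_mem hV hxV hxC ?_
    intro t ht htC hcn
    rcases hVsub t ht with h3 | h3 | h3 | h3 | h3 | h3
    · exact absurd (h3 ▸ hb) htC
    · exact absurd (h3 ▸ hb') htC
    · exact Or.inl h3
    · exact Or.inr h3
    · exact absurd (h3 ▸ hcn) nxz
    · exact absurd (h3 ▸ hcn) nxz'
  by_cases hVz : z ∈ V ∨ z' ∈ V
  · have hboth : z ∈ V ∧ z' ∈ V := by
      rcases hVz with hzV | hzV
      · refine ⟨hzV, hF.pair_mem hV hzV hzC ?_⟩
        intro t ht htC hcn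
        rcases hVsub t ht with h3 | h3 | h3 | h3 | h3 | h3
        · exact absurd (h3 ▸ hb) htC
        · exact absurd (h3 ▸ hb') htC
        · exact absurd (h3 ▸ hcn) nzx
        · exact absurd (h3 ▸ hcn) nzx'
        · exact Or.inl h3
        · exact Or.inr h3
      · refine ⟨hF.pair_mem hV hzV hzC' ?_, hzV⟩
        intro t ht htC hcn
        rcases hVsub t ht with h3 | h3 | h3 | h3 | h3 | h3
        · exact absurd (h3 ▸ hb) htC
        · exact absurd (h3 ▸ hb') htC
        · exact absurd (h3 ▸ hcn) nz'x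
        · exact absurd (h3 ▸ hcn) nz'x'
        · exact Or.inr h3
        · exact Or.inl h3
    have hxz : x ≠ z := by rintro rfl; exact nxz ⟨_, hPx, by simp, by simp⟩
    have hxz' : x ≠ z' := by rintro rfl; exact nxz' ⟨_, hPx, by simp, by simp⟩
    have hx'z : x' ≠ z := by rintro rfl; exact nzx' ⟨_, hPx, by simp, by simp⟩
    have hx'z' : x' ≠ z' := by rintro rfl; exact nz'x' ⟨_, hPx, by simp, by simp⟩
    have hcard : ({x, x', z, z'} : Set α).ncard = 4 := by
      rw [Set.ncard_insert_of_notMem (by simp [hxx, hxz, hxz']) (Set.toFinite _),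
        Set.ncard_insert_of_notMem (by simp [hx'z, hx'z']) (Set.toFinite _), Set.ncard_pair hzz]
    have hVeq : {x, x', z, z'} = V := by
      refine Set.eq_of_subset_of_ncard_le ?_ ?_ (Set.toFinite _)
      · rintro t (rfl | rfl | rfl | rfl)
        · exact hxV
        · exact hx'V
        · exact hboth.1
        · exact hboth.2
      · rw [hcard]; exact hF.le V hV
    rw [← hVeq] at hV
    have haV : a ∉ ({x, x', z, z'} : Set α) := by
      rintro (h3 | h3 | h3 | h3)
      · exact hxC (h3 ▸ ha)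
      · exact hxC' (h3 ▸ ha)
      · exact hzC (h3 ▸ ha)
      · exact hzC' (h3 ▸ ha)
    obtain ⟨V2, hV2s, hV2, haV2⟩ := h1.strong_elimination hV (e := x') (f := a) (by simp)
      (by simp) (by simp) haV
    have hV2sub : ∀ t ∈ V2, t = a ∨ t = b ∨ t = x ∨ t = z ∨ t = z' := by
      intro t ht
      obtain ⟨h3, h4⟩ := hV2s ht
      have h5 : t ≠ x' := h4
      rcases h3 with (h3 | h3 | h3 | h3) | (h3 | h3 | h3 | h3)
      · exact Or.inl h3
      · exact Or.inr (Or.inl h3)
      · exact Or.inr (Or.inr (Or.inl h3))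
      · exact absurd h3 h5
      · exact Or.inr (Or.inr (Or.inl h3))
      · exact absurd h3 h5
      · exact Or.inr (Or.inr (Or.inr (Or.inl h3)))
      · exact Or.inr (Or.inr (Or.inr (Or.inr h3)))
    have hxV2 : x ∉ V2 := by
      intro hxV2
      obtain ⟨t, ht, htC, htx, hcn⟩ := hF.two_of_mem hV2 hxV2 hxC
      rcases hV2sub t ht with h3 | h3 | h3 | h3 | h3
      · exact htC (h3 ▸ ha)
      · exact htC (h3 ▸ hb)
      · exact htx h3
      · exact nxz (h3 ▸ hcn)
      · exact nxz' (h3 ▸ hcn)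
    have hV2sub' : ∀ t ∈ V2, t = a ∨ t = b ∨ t = z ∨ t = z' := by
      intro t ht
      rcases hV2sub t ht with h3 | h3 | h3 | h3 | h3
      · exact Or.inl h3
      · exact Or.inr (Or.inl h3)
      · exact absurd (h3 ▸ ht) hxV2
      · exact Or.inr (Or.inr (Or.inl h3))
      · exact Or.inr (Or.inr (Or.inr h3))
    have hVz2 : z ∈ V2 ∨ z' ∈ V2 := by
      by_contra hcon
      rw [not_or] at hcon
      have : V2 ⊆ {a, b} := by
        intro t ht
        rcases hV2sub' t ht with h3 | h3 | h3 | h3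
        · left; exact h3
        · right; exact h3
        · exact absurd (h3 ▸ ht) hcon.1
        · exact absurd (h3 ▸ ht) hcon.2
      have h4 := Set.ncard_le_ncard this (Set.toFinite _)
      rw [Set.ncard_pair hab] at h4
      have := hF.ge V2 hV2
      omega
    have hboth2 : z ∈ V2 ∧ z' ∈ V2 := by
      rcases hVz2 with hzV | hzV
      · refine ⟨hzV, hF.pair_mem hV2 hzV hzC ?_⟩
        intro t ht htC hcn
        rcases hV2sub' t ht with h3 | h3 | h3 | h3
        · exact absurd (h3 ▸ ha) htC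
        · exact absurd (h3 ▸ hb) htC
        · exact Or.inl h3
        · exact Or.inr h3
      · refine ⟨hF.pair_mem hV2 hzV hzC' ?_, hzV⟩
        intro t ht htC hcn
        rcases hV2sub' t ht with h3 | h3 | h3 | h3
        · exact absurd (h3 ▸ ha) htC
        · exact absurd (h3 ▸ hb) htC
        · exact Or.inr h3
        · exact Or.inl h3
    have hd : V2 \ C = {z, z'} := by
      refine Set.Subset.antisymm ?_ ?_
      · rintro t ⟨ht, htC⟩
        rcases hV2sub' t ht with h3 | h3 | h3 | h3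
        · exact absurd (h3 ▸ ha) htC
        · exact absurd (h3 ▸ hb) htC
        · left; exact h3
        · right; exact h3
      · rintro t (rfl | rfl)
        · exact ⟨hboth2.1, hzC⟩
        · exact ⟨hboth2.2, hzC'⟩
    have h3 := hF.inter_two hzz hPz hV2 hd
    have h4 : V2 ∩ C = {a, b} := by
      refine Set.eq_of_subset_of_ncard_le ?_ ?_ (Set.toFinite _)
      · rintro t ⟨ht, htC⟩
        rcases hV2sub' t ht with h3 | h3 | h3 | h3
        · left; exact h3
        · right; exact h3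
        · exact absurd (h3 ▸ htC) hzC
        · exact absurd (h3 ▸ htC) hzC'
      · rw [Set.ncard_pair hab, h3]
    have h5 : V2 = {a, b, z, z'} := eq_four h4 hd
    rw [h5] at hV2
    exact hbb (hF.unique hzC hzC' ha hb' hb hb'a.symm h2 hV2)
  · rw [not_or] at hVz
    have hd : V \ C = {x, x'} := by
      refine Set.Subset.antisymm ?_ ?_
      · rintro t ⟨ht, htC⟩
        rcases hVsub t ht with h3 | h3 | h3 | h3 | h3 | h3
        · exact absurd (h3 ▸ hb) htC
        · exact absurd (h3 ▸ hb') htC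
        · left; exact h3
        · right; exact h3
        · exact absurd (h3 ▸ ht) hVz.1
        · exact absurd (h3 ▸ ht) hVz.2
      · rintro t (rfl | rfl)
        · exact ⟨hxV, hxC⟩
        · exact ⟨hx'V, hxC'⟩
    have h3 := hF.inter_two hxx hPx hV hd
    have h4 : V ∩ C = {b, b'} := by
      refine Set.eq_of_subset_of_ncard_le ?_ ?_ (Set.toFinite _)
      · rintro t ⟨ht, htC⟩
        rcases hVsub t ht with h3 | h3 | h3 | h3 | h3 | h3
        · left; exact h3
        · right; exact h3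
        · exact absurd (h3 ▸ htC) hxC
        · exact absurd (h3 ▸ htC) hxC'
        · exact absurd (h3 ▸ htC) hzC
        · exact absurd (h3 ▸ htC) hzC'
      · rw [Set.ncard_pair (Ne.symm hbb), h3]
    have h5 : V = {b, b', x, x'} := eq_four h4 hd
    rw [h5] at hV
    exact hb'a.symm (hF.unique hxC hxC' hb ha hb' hab.symm (isCircuit_swap_left h1) hV)

/-- there is only one component -/
theorem Setup'.one_component (h : Setup' M C d Y) (hy : y ∈ Y) (hy' : y' ∈ Y) : y = y' := by
  by_contra hyy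
  have hF := h.four
  obtain ⟨-, hK4, -⟩ := h.count hy
  have hyK := h.P_sub hy (h.mem y hy).2.2
  obtain ⟨x, hx, hxy⟩ := Set.exists_ne_of_one_lt_ncard (s := K M C y) (by omega) y
  obtain ⟨a, ha⟩ := h.circ.nonempty
  obtain ⟨b, hb, hba, h1⟩ := hF.partner hxy.symm (h.all_par hy hyK hx hxy.symm) ha
  obtain ⟨-, hK4', -⟩ := h.count hy'
  have hyK' := h.P_sub hy' (h.mem y' hy').2.2
  obtain ⟨x', hx', hxy'⟩ := Set.exists_ne_of_one_lt_ncard (s := K M C y') (by omega) y'
  -- all pairs have the same type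
  have hall : ∀ y₂ ∈ Y, ∀ z ∈ K M C y₂, ∀ z' ∈ K M C y₂, z ≠ z' → M.IsCircuit {a, b, z, z'} := by
    intro y₂ hy₂ z hz z' hz' hzz
    by_cases h2 : y₂ = y
    · have h3 := h.type_eq hy hy' hyy hyK hx hxy.symm hyK' hx' hxy'.symm ha hb hba.symm h1
      rw [h2] at hz hz'
      exact h.type_eq hy' hy (Ne.symm hyy) hyK' hx' hxy'.symm hz hz' hzz ha hb hba.symm h3
    · exact h.type_eq hy hy₂ (Ne.symm h2) hyK hx hxy.symm hz hz' hzz ha hb hba.symm h1
  -- the other two elements of C
  have hcard2 : (C \ {a, b}).ncard = 2 := by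
    have := Set.ncard_sdiff_add_ncard_of_subset
      (show ({a, b} : Set α) ⊆ C by rintro t (rfl | rfl) <;> assumption) (Set.toFinite _)
    rw [Set.ncard_pair hba.symm, hF.card] at this
    omega
  obtain ⟨a', b', hab', hCd⟩ := Set.ncard_eq_two.1 hcard2
  have ha' : a' ∈ C \ {a, b} := by rw [hCd]; simp
  have hb' : b' ∈ C \ {a, b} := by rw [hCd]; simp
  have ha'a : a' ≠ a := fun h' => ha'.2 (by left; exact h')
  have ha'b : a' ≠ b := fun h' => ha'.2 (by right; exact h')
  have hb'a : b' ≠ a := fun h' => hb'.2 (by left; exact h')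
  have hb'b : b' ≠ b := fun h' => hb'.2 (by right; exact h')
  have hCeq : C = {a, b, a', b'} := by
    ext t
    constructor
    · intro ht
      by_cases h2 : t ∈ ({a, b} : Set α)
      · rcases h2 with h2 | h2
        · left; exact h2
        · right; left; exact h2
      · have : t ∈ C \ {a, b} := ⟨ht, h2⟩
        rw [hCd] at this
        right; right; exact this
    · rintro (rfl | rfl | rfl | rfl)
      · exact ha
      · exact hb
      · exact ha'.1
      · exact hb'.1
  have hall' : ∀ y₂ ∈ Y, ∀ z ∈ K M C y₂, ∀ z' ∈ K M C y₂, z ≠ z' → M.IsCircuit {a', b', z, z'} := by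
    intro y₂ hy₂ z hz z' hz' hzz
    exact hF.compl hzz (h.all_par hy₂ hz hz' hzz) hCeq hba.symm ha'a.symm ha'b.symm
      (hall y₂ hy₂ z hz z' hz' hzz)
  -- an independent set
  have hI : M.Indep ({a, a', b'} ∪ Y) := by
    rw [Matroid.indep_iff_forall_subset_not_isCircuit (by
      rintro t (ht | ht)
      · rcases ht with rfl | rfl | rfl
        · exact h.circ.subset_ground ha
        · exact h.circ.subset_ground ha'.1
        · exact h.circ.subset_ground hb'.1
      · exact (h.mem t ht).1)]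
    intro U hUs hU
    by_cases hUC : U ⊆ C
    · have := hU.eq_of_subset_isCircuit h.circ hUC
      rw [← this] at hb
      rcases hUs hb with (h2 | h2 | h2) | h2
      · exact hba h2
      · exact ha'b h2.symm
      · exact hb'b h2.symm
      · exact (h.mem b h2).2.1 (this ▸ hb)
    · obtain ⟨t, ht, htC⟩ := Set.not_subset.1 hUC
      obtain ⟨s, hs, hsC, hst, hcn⟩ := hF.two_of_mem hU ht htC
      have key : ∀ t ∈ U, t ∉ C → t ∈ Y := by
        intro t ht htC
        rcases hUs ht with (h2 | h2 | h2) | h2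
        · exact absurd (h2 ▸ ha) htC
        · exact absurd (h2 ▸ ha'.1) htC
        · exact absurd (h2 ▸ hb'.1) htC
        · exact h2
      have hsK : s ∈ K M C t := hcn
      exact hst (h.P_inter_Y (key t ht htC) (key s hs hsC) hsK)
  obtain ⟨D, hD, hDI⟩ := hI.exists_isCocircuit_inter_eq_mem (e := a) (Or.inl (by simp))
  have haD : a ∈ D := by
    have : a ∈ D ∩ ({a, a', b'} ∪ Y) := by rw [hDI]; rfl
    exact this.1
  have hnot : ∀ t ∈ ({a, a', b'} : Set α) ∪ Y, t ≠ a → t ∉ D := by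
    intro t ht hta htD
    have : t ∈ D ∩ ({a, a', b'} ∪ Y) := ⟨htD, ht⟩
    rw [hDI] at this
    exact hta this
  have ha'D : a' ∉ D := hnot a' (by left; simp) ha'a
  have hb'D : b' ∉ D := hnot b' (by left; simp) hb'a
  have hYD : ∀ y ∈ Y, y ∉ D := fun y hy => hnot y (Or.inr hy) (fun h2 => (h.mem y hy).2.1 (h2 ▸ ha))
  have hDsub : D ⊆ {a, b} := by
    intro w hw
    by_contra hwab
    have hwC : w ∉ C := by
      intro hwC
      rw [hCeq] at hwC
      rcases hwC with h2 | h2 | h2 | h2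
      · exact hwab (by left; exact h2)
      · exact hwab (by right; exact h2)
      · exact ha'D (h2 ▸ hw)
      · rw [Set.mem_singleton_iff] at h2
        exact hb'D (h2 ▸ hw)
    obtain ⟨y₂, hy₂, hK⟩ := h.cover w (hD.subset_ground hw) hwC
    have hwK : w ∈ K M C y₂ := hK ▸ h.mem_K_self (hD.subset_ground hw) hwC
    have hy₂K := h.P_sub hy₂ (h.mem y₂ hy₂).2.2
    have hwy : w ≠ y₂ := fun h' => hYD y₂ hy₂ (h' ▸ hw)
    have hc := hall' y₂ hy₂ w hwK y₂ hy₂K hwy
    obtain ⟨t, htw, htc, htD⟩ := exists_ne_mem_inter hc hD (by simp) hw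
    rcases htc with h2 | h2 | h2 | h2
    · exact ha'D (h2 ▸ htD)
    · exact hb'D (h2 ▸ htD)
    · exact htw h2
    · rw [Set.mem_singleton_iff] at h2
      exact hYD y₂ hy₂ (h2 ▸ htD)
  have h2 := Set.ncard_le_ncard hDsub (Set.toFinite _)
  rw [Set.ncard_pair hba.symm] at h2
  have := h.cosimple D hD
  omega

end Pool.Agent.Royle
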