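import Pool.Agent.Royle.Comp

/-!
# The components of `M ／ C` are fat polygons
-/

set_option autoImplicit false
set_option linter.unusedSectionVars false

open Set
open scoped Matroid

namespace Pool.Agent.Royle

variable {α : Type*} [Fintype α] {M N R : Matroid α} {C D X Y Z U P q : Set α}
  {e f g h i j k x y z : α} {v w lam : α → ℝ} {d : ℕ}

lemma S_eq_insert (hC : M.IsCircuit C) (hi : i ∈ C) (hj : j ∈ C) (hij : i ≠ j) :
    S (Q M C i j) i = insert j (Sp M C i j) := by
  ext a
  constructor
  · intro ha
    by_cases haj : a = j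
    · left; exact haj
    · right; exact ⟨ha, haj⟩
  · rintro (rfl | ha)
    · exact mem_S_of_circuit (Q_pair hC hi hj) (by simp) (by simp) hij.symm
    · exact ha.1

lemma Setup.ext (h : Setup M C d) (hi : i ∈ C) (hj : j ∈ C) (hij : i ≠ j)
    (ht : W (wt M C) (Sp M C i j) = (d : ℝ) - 2) : Ext (Q M C i j) i (wt' M C) := by
  refine ⟨fun _ => wt'_nonneg, ?_, h.W_circ_le hi hj hij, ?_⟩
  · intro x hx
    by_cases hxC : x ∈ C
    · rw [wt'_of_mem hxC]; norm_num
    · rw [wt'_of_notMem hxC]
      have := S_subset_ground hx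
      rw [Matroid.contract_ground] at this
      exact h.wt_pos this.1 hxC
  · intro D hD hiD
    have h1 := h.cocirc_le hD hiD
    rw [S_eq_insert h.circ hi hj hij, W_insert (fun h => h.2 rfl), wt'_of_mem hj, W_Sp, ht]
    linarith

/-- The structure of a component with respect to a tight pair. -/
structure Fat (M : Matroid α) (C : Set α) (d : ℕ) (y i j : α) : Prop where
  hi : i ∈ C
  hj : j ∈ C
  hij : i ≠ j
  sep : Sep M C (best M C (K M C y)) i j
  tight : W (wt M C) (Sp M C i j) = (d : ℝ) - 2
  par : ∀ x ∈ K M C y, x ∉ best M C (K M C y) →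
    ∃ f ∈ best M C (K M C y), (Q M C i j).IsCircuit {x, f}

theorem Setup'.fat (h : Setup' M C d Y) (hy : y ∈ Y) : ∃ i j, Fat M C d y i j := by
  obtain ⟨i, hi, j, hj, hij, hsep, ht⟩ := h.tight hy
  refine ⟨i, j, hi, hj, hij, hsep, ht, ?_⟩
  have hE := h.ext hi hj hij ht
  set P := best M C (K M C y) with hPdef
  have hPK : P ⊆ K M C y := h.P_sub hy
  have hNT : NT M C P := h.P_NT hy
  have hyP : y ∈ P := (h.mem y hy).2.2
  set R := Q M C i j with hR
  set Z : Set α := insert i P with hZdef
  have hZ : R.IsCircuit Z := hsep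
  have hiZ : i ∈ Z := by simp [hZdef]
  have hPC : ∀ a ∈ P, a ∉ C := fun a ha => K_notMem (hPK ha)
  have hiP : i ∉ P := fun h' => hPC i h' hi
  have hjP : j ∉ P := fun h' => hPC j h' hj
  have hZi : Z \ {i} = P := by
    ext a
    simp only [hZdef, Set.mem_sdiff, Set.mem_insert_iff, Set.mem_singleton_iff]
    constructor
    · rintro ⟨h | h, h'⟩
      · exact absurd h h'
      · exact h
    · intro h
      exact ⟨Or.inr h, fun h' => hiP (h' ▸ h)⟩
  have hne : (Z \ {i}).Nonempty := by rw [hZi]; exact ⟨y, hyP⟩
  have hKSp : K M C y ⊆ Sp M C i j := h.K_subset_Sp hi hj hNT.1 hsep hyP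
  have hclass : ∀ x ∈ K M C y, ∀ z, Cn (R ／ Z) x z → z ∈ K M C y := by
    intro x hx z hz
    have h1 : Cn (R ／ {i}) x z := cn_contract_of_subset (by simp [hZdef]) hz
    rw [hR, cn_Q_iff h.circ hi hj hij.symm (fun h' : x = j => K_notMem hx (by rw [h']; exact hj))] at h1
    have h2 : z ∈ K M C x := h1
    rwa [K_eq hx] at h2
  intro x hxK hxP
  have hxC := K_notMem hxK
  have hxi : x ≠ i := fun h' => hxC (h' ▸ hi)
  have hxj : x ≠ j := fun h' => hxC (h' ▸ hj)
  have hxS : x ∈ S R i := (hKSp hxK).1
  have hxZ : x ∉ Z := by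
    rintro (h' | h')
    · exact hxi h'
    · exact hxP h'
  have hwt : ∀ a ∈ K M C y, wt' M C a = wt' M C y := by
    intro a ha
    rw [wt'_of_notMem (K_notMem ha), wt'_of_notMem (h.mem y hy).2.1, wt_eq_of_mem ha]
  have hwtpos : 0 < wt' M C y := by
    rw [wt'_of_notMem (h.mem y hy).2.1]
    exact h.wt_pos (h.mem y hy).1 (h.mem y hy).2.1
  by_cases hcl : ∃ z, z ≠ x ∧ Cn (R ／ Z) x z
  · exfalso
    obtain ⟨g, g', hgg, hcirc, hg, hg'⟩ := bridge_parallel (fun f _ _ => s3 _) hE hZ hiZ hxS hxZ
      hne hcl (fun z hz => by rw [hwt z (hclass x hxK z hz), hwt x hxK])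
      (fun D hD hD2 => by
        have := h.cosimple D (cocircuit_contract_iff.1 hD).1
        omega)
    have hgK := hclass x hxK g hg
    have hgK' := hclass x hxK g' hg'
    have hgl := not_loop_of_class hcl hg
    have hgl' := not_loop_of_class hcl hg'
    have hgZ : g ∉ Z := by
      have := hg.mem_right
      rw [Matroid.contract_ground] at this
      exact this.2
    have hgZ' : g' ∉ Z := by
      have := hg'.mem_right
      rw [Matroid.contract_ground] at this
      exact this.2
    have hgP : g ∉ P := fun h' => hgZ (Or.inr h')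
    have hgP' : g' ∉ P := fun h' => hgZ' (Or.inr h')
    -- relation between circuits of M ／ C and R ／ Z
    have hRZ : ∀ T, (M ／ C).IsCircuit T → ∀ t ∈ T, t ∉ P → ∃ T', (R ／ Z).IsCircuit T' ∧ t ∈ T' ∧
        T' ⊆ T \ P := by
      intro T hT t ht htP
      obtain ⟨h1, h2⟩ := Q_contract_root h.circ hi hj hij.symm
      rw [← h1] at hT
      have hT' := hT.of_delete
      obtain ⟨T', hT'c, h3, h4⟩ := exists_circuit_contract (X := P) hT' ht htP
      have h5 : R ／ {i} ／ P = R ／ Z := by
        rw [Matroid.contract_contract, hZdef, Set.insert_eq]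
      rw [← h5]
      exact ⟨T', hT'c, h3, h4⟩
    -- {g, g'} is a circuit of M ／ C
    have hq : (M ／ C).IsCircuit {g, g'} := by
      have hgij : g ∉ ({i, j} : Set α) := by
        rintro (h' | h')
        · exact K_notMem hgK (h' ▸ hi)
        · exact K_notMem hgK (h' ▸ hj)
      obtain ⟨T, hT, hgT, hTs⟩ := exists_circuit_contract (X := {i, j}) hcirc (by simp) hgij
      rw [hR, Q_contract hi hj] at hT
      have hgT' : g' ∈ T := by
        by_contra hgT'
        have hTg : T = {g} := by
          refine Set.Subset.antisymm (fun a ha => ?_) (by simpa using hgT)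
          rcases (hTs ha).1 with h' | h'
          · exact h'
          · exact absurd (h' ▸ ha) hgT'
        obtain ⟨T', hT', h3, h4⟩ := hRZ T hT g hgT hgP
        refine hgl ?_
        have : T' = {g} := by
          refine Set.Subset.antisymm (fun a ha => ?_) (by simpa using h3)
          have := (h4 ha).1
          rwa [hTg] at this
        rwa [← this]
      have : T = {g, g'} := Set.Subset.antisymm (fun a ha => (hTs ha).1)
        (by rintro a (rfl | rfl) <;> assumption)
      rwa [← this]
    have hqNT : NT M C {g, g'} := by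
      obtain ⟨V, hV, h1, h2⟩ := exists_circuit_of_contract hq
      have hVC : V \ C = {g, g'} := by
        refine Set.Subset.antisymm ?_ ?_
        · rintro a ⟨ha, haC⟩
          rcases h2 ha with h' | h'
          · exact h'
          · exact absurd h' haC
        · intro a ha
          refine ⟨h1 ha, ?_⟩
          rcases ha with rfl | rfl
          · exact K_notMem hgK
          · exact K_notMem hgK'
      rw [← hVC]
      refine nt_of_circuit h.circ hV ?_ (by rwa [hVC])
      by_contra hemp
      rw [Set.not_nonempty_iff_eq_empty] at hemp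
      have hVe : V = {g, g'} := by
        rw [← hVC]
        refine Set.Subset.antisymm (fun a ha => ⟨ha, fun haC => ?_⟩) Set.sdiff_subset
        exact absurd (show a ∈ V ∩ C from ⟨ha, haC⟩) (by simp [hemp])
      have h3 := h.simple V hV
      rw [hVe, Set.ncard_pair hgg] at h3
      omega
    -- the ear P has at least three elements
    obtain ⟨-, hB⟩ := bridge hE hZ hiZ hne
    obtain ⟨U, hU, hiU, hxU, hPU⟩ := exists_root_ear hZ hiZ hxS hxZ
    have hUZK : ∀ a ∈ U \ Z, a ∈ K M C y := fun a ha =>
      hclass x hxK a ⟨U \ Z, hPU, ⟨hxU, hxZ⟩, ha⟩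
    have hAtt := hB U hU hiU hPU x ⟨hxU, hxZ⟩
    have hAP : Att R Z i x ⊆ P := by
      have := Att_subset R Z i x
      rwa [hZi] at this
    have hW := hE.ear_eq hZ hiZ hne hU hiU hPU.nonempty
    rw [hAtt, W_const_of (fun a ha => hwt a (hUZK a ha)),
      W_const_of (fun a ha => hwt a (hPK (hAP ha)))] at hW
    have hcardA : (U \ Z).ncard = (Att R Z i x).ncard := by
      have := mul_right_cancel₀ hwtpos.ne' hW
      exact_mod_cast this
    have hA2 : 2 ≤ (Att R Z i x).ncard := by
      rw [← hcardA]
      by_contra hlt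
      have h1 : 0 < (U \ Z).ncard := by
        rw [Set.ncard_pos (Set.toFinite _)]
        exact hPU.nonempty
      have h2 : (U \ Z).ncard = 1 := by omega
      obtain ⟨a, ha⟩ := Set.ncard_eq_one.1 h2
      have hxa : x ∈ U \ Z := ⟨hxU, hxZ⟩
      rw [ha, Set.mem_singleton_iff] at hxa
      subst hxa
      rw [ha] at hPU
      exact not_loop_of_class hcl ⟨U \ Z, by rwa [ha], by rw [ha]; rfl, by rw [ha]; rfl⟩ hPU
    have hAne : Att R Z i x ≠ P := by
      intro hAeq
      -- a circuit of R ／ {i} through x meeting P
      obtain ⟨h1, h2⟩ := Q_contract_root h.circ hi hj hij.symm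
      have hcn : Cn (M ／ C) x y := by
        have : y ∈ K M C x := by
          rw [K_eq hxK]
          exact h.mem_K_self (h.mem y hy).1 (h.mem y hy).2.1
        exact this
      obtain ⟨T₀, hT₀, hxT₀, hyT₀⟩ := hcn
      rw [← h1] at hT₀
      have hT₀' := hT₀.of_delete
      obtain ⟨T, hT, hxT, hTne, hTP⟩ := exists_ear (Z := P) hT₀' hxT₀ hxP ⟨y, hyT₀, hyP⟩
      obtain ⟨T', hT', h3, h4⟩ := exists_circuit_of_contract hT
      obtain ⟨k, hkT, hkP⟩ := hTne
      have h5 : R ／ {i} ／ P = R ／ Z := by
        rw [Matroid.contract_contract, hZdef, Set.insert_eq]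
      have hd : T' \ Z = T \ P := by
        ext a
        constructor
        · rintro ⟨ha, haZ⟩
          rcases h4 ha with h' | h'
          · exact ⟨h', fun h'' => haZ (Or.inr h'')⟩
          · exact absurd (Or.inl h') haZ
        · rintro ⟨ha, haP⟩
          refine ⟨h3 ha, ?_⟩
          rintro (h' | h')
          · have := hT.subset_ground ha
            rw [Matroid.contract_ground] at this
            exact this.2 h'
          · exact haP h'
      have hTPc : (R ／ Z).IsCircuit (T' \ Z) := by
        rw [hd, ← h5]; exact hTP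
      have hxTZ : x ∈ T' \ Z := by rw [hd]; exact ⟨hxT, hxP⟩
      by_cases hiT' : i ∈ T'
      · have h6 := hB T' hT' hiT' hTPc x hxTZ
        rw [hAeq] at h6
        have : k ∈ Z \ T' := by rw [h6]; exact hkP
        exact this.2 (h3 hkT)
      · obtain ⟨U', hU', hiU', hkU', hd'⟩ := exists_swap hZ hT' hTPc (h3 hkT) (Or.inr hkP) hiZ hiT'
        have h6 := hB U' hU' hiU' (by rwa [hd']) x (by rw [hd']; exact hxTZ)
        rw [hAeq] at h6
        have hU'i : U' \ {i} = T \ P := by
          rw [← hd, ← hd']
          ext a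
          constructor
          · rintro ⟨ha, hai⟩
            refine ⟨ha, ?_⟩
            rintro (h' | h')
            · exact hai h'
            · have : a ∈ Z \ U' := by rw [h6]; exact h'
              exact this.2 ha
          · rintro ⟨ha, haZ⟩
            exact ⟨ha, fun h' => haZ (Or.inl h')⟩
        have hU'nt : U'.Nontrivial := by
          refine ⟨i, hiU', x, ?_, hxi.symm⟩
          have : x ∈ U' \ {i} := by rw [hU'i]; exact ⟨hxT, hxP⟩
          exact this.1
        have h7 := hU'.contractElem_isCircuit hU'nt hiU'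
        rw [hU'i] at h7
        have h8 : T \ P = T := h7.eq_of_subset_isCircuit hT Set.sdiff_subset
        rw [← h8] at hkT
        exact hkT.2 hkP
    have hP3 : 3 ≤ P.ncard := by
      have := Set.ncard_lt_ncard (lt_of_le_of_ne hAP hAne) (Set.toFinite _)
      omega
    refine h.no_skew hy hqNT ?_ ?_ ?_ ?_
    · rintro a (rfl | rfl)
      · exact hgK
      · exact hgK'
    · rw [Set.ncard_pair hgg]
      exact hP3
    · rw [Set.disjoint_left]
      rintro a ha (h' | h')
      · exact hgP (h' ▸ ha)
      · exact hgP' (h' ▸ ha)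
    · intro T hT hTs
      by_cases hTP : T ⊆ P
      · left
        exact hT.eq_of_subset_isCircuit hNT.1 hTP
      · right
        obtain ⟨t, ht, htP⟩ := Set.not_subset.1 hTP
        obtain ⟨T', hT', h3, h4⟩ := hRZ T hT t ht htP
        have hT's : T' ⊆ {g, g'} := by
          intro a ha
          rcases hTs (h4 ha).1 with h' | h'
          · exact absurd h' (h4 ha).2
          · exact h'
        have hgT : g ∈ T' := by
          by_contra hgT
          refine hgl' ?_
          have : T' = {g'} := by
            have hsub : T' ⊆ {g'} := by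
              intro a ha
              rcases hT's ha with h' | h'
              · exact absurd (h' ▸ ha) hgT
              · exact h'
            obtain ⟨b, hb⟩ := hT'.nonempty
            have hbg := hsub hb
            rw [Set.mem_singleton_iff] at hbg
            exact hsub.antisymm (by simpa using hbg ▸ hb)
          rwa [← this]
        have hgT' : g' ∈ T' := by
          by_contra hgT'
          refine hgl ?_
          have : T' = {g} := by
            refine Set.Subset.antisymm (fun a ha => ?_) (by simpa using hgT)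
            rcases hT's ha with h' | h'
            · exact h'
            · exact absurd (h' ▸ ha) hgT'
          rwa [← this]
        exact (hq.eq_of_subset_isCircuit hT (by
          rintro a (rfl | rfl)
          · exact (h4 hgT).1
          · exact (h4 hgT').1)).symm
  · push Not at hcl
    obtain ⟨U, hU, hiU, hxU, hPU⟩ := exists_root_ear hZ hiZ hxS hxZ
    have hUZ : U \ Z = {x} := by
      refine Set.Subset.antisymm ?_ (by simpa using ⟨hxU, hxZ⟩)
      intro a ha
      by_contra hax
      exact hcl a hax ⟨U \ Z, hPU, ⟨hxU, hxZ⟩, ha⟩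
    rw [hUZ] at hPU
    obtain ⟨f, hf, hfi, hcirc⟩ := loop_parallel hE hZ hiZ hne hxS hxZ hPU (by
      intro f hf
      have hfP : f ∈ P := by
        have := Att_subset _ _ _ _ hf
        rwa [hZi] at this
      rw [hwt f (hPK hfP), hwt x hxK])
    refine ⟨f, ?_, hcirc⟩
    rcases hf with h' | h'
    · exact absurd h' hfi
    · exact h'

end Pool.Agent.Royle
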