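import Pool.Agent.Royle.AG

/-!
# The theorem
-/

set_option autoImplicit false

open Set
open scoped Matroid

namespace Pool.Agent.Royle

section Transfer

variable {α : Type*} {M : Matroid α} {X : Set α}

lemma sub_isCircuit_iff (hX : X ⊆ M.E) {U : Set X} :
    (M.restrictSubtype X).IsCircuit U ↔ M.IsCircuit (Subtype.val '' U) := by
  rw [Matroid.isCircuit_iff_dep_forall_sdiff_singleton_indep,
    Matroid.isCircuit_iff_dep_forall_sdiff_singleton_indep, Matroid.dep_iff, Matroid.dep_iff]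
  simp only [Matroid.restrictSubtype_indep_iff, Matroid.restrictSubtype_ground]
  have h1 : Subtype.val '' U ⊆ M.E := by
    rintro _ ⟨x, -, rfl⟩
    exact hX x.2
  have h2 : ∀ e : X, Subtype.val '' (U \ {e}) = (Subtype.val '' U) \ {(e : α)} := by
    intro e
    rw [Set.image_sdiff Subtype.val_injective, Set.image_singleton]
  constructor
  · rintro ⟨⟨h3, -⟩, h4⟩
    refine ⟨⟨h3, h1⟩, ?_⟩
    rintro _ ⟨e, he, rfl⟩
    rw [← h2]
    exact h4 e he
  · rintro ⟨⟨h3, -⟩, h4⟩
    refine ⟨⟨h3, Set.subset_univ _⟩, ?_⟩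
    intro e he
    rw [h2]
    exact h4 _ ⟨e, he, rfl⟩

lemma sub_isCocircuit_iff {U : Set M.E} :
    (M.restrictSubtype M.E).IsCocircuit U ↔ M.IsCocircuit (Subtype.val '' U) := by
  rw [Matroid.isCocircuit_def, Matroid.isCocircuit_def, Matroid.restrictSubtype_dual]
  exact sub_isCircuit_iff (M := M✶) (by rw [Matroid.dual_ground])

lemma sub_eRk (U : Set M.E) : (M.restrictSubtype M.E).eRk U = M.eRk (Subtype.val '' U) := by
  unfold Matroid.restrictSubtype
  rw [Matroid.eRk_comap, Matroid.restrict_ground_eq_self]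

end Transfer

section Sep

variable {α : Type*} [Fintype α] {N : Matroid α}

/-- the connectivity hypothesis of the frozen statement -/
def NoSep {α : Type*} (N : Matroid α) : Prop :=
  ∀ X : Set α, X ⊆ N.E → ∀ k : ℕ, 1 ≤ k → k < 3 →
    (k : ℕ∞) ≤ X.encard → (k : ℕ∞) ≤ (N.E \ X).encard →
    N.eRank + (k : ℕ∞) ≤ N.eRk X + N.eRk (N.E \ X)

lemma exists_nat_eRk (N : Matroid α) (X : Set α) : ∃ n : ℕ, N.eRk X = n := by
  have h1 := N.eRk_le_encard X
  have h2 : X.encard < ⊤ := (Set.toFinite X).encard_lt_top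
  obtain ⟨n, hn⟩ := ENat.ne_top_iff_exists.1 (lt_of_le_of_lt h1 h2).ne
  exact ⟨n, hn.symm⟩

lemma conn_of_noSep (h : NoSep N) : ∀ x ∈ N.E, ∀ y ∈ N.E, x ≠ y → Cn N x y := by
  intro x hx y hy hxy
  by_contra hcon
  set X : Set α := {z | z ∈ N.E ∧ (z = x ∨ Cn N x z)} with hX
  have hXE : X ⊆ N.E := fun z hz => hz.1
  have hxX : x ∈ X := ⟨hx, Or.inl rfl⟩
  have hyX : y ∉ X := by
    rintro ⟨-, h1 | h1⟩
    · exact hxy h1.symm
    · exact hcon h1
  have hsep := h X hXE 1 le_rfl (by norm_num)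
    (by rw [Nat.cast_one, Set.one_le_encard_iff_nonempty]; exact ⟨x, hxX⟩)
    (by rw [Nat.cast_one, Set.one_le_encard_iff_nonempty]; exact ⟨y, hy, hyX⟩)
  obtain ⟨I, hI⟩ := N.exists_isBasis X hXE
  obtain ⟨J, hJ⟩ := N.exists_isBasis (N.E \ X) Set.sdiff_subset
  have hmeet : ∀ U, N.IsCircuit U → ∀ a ∈ U, ∀ b ∈ U, a ∈ X → b ∈ X := by
    intro U hU a ha b hb haX
    refine ⟨hU.subset_ground hb, ?_⟩
    right
    rcases haX.2 with h1 | h1
    · rw [← h1]; exact ⟨U, hU, ha, hb⟩
    · exact h1.trans ⟨U, hU, ha, hb⟩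
  have hIJ : N.Indep (I ∪ J) := by
    rw [Matroid.indep_iff_forall_subset_not_isCircuit
      (Set.union_subset hI.indep.subset_ground hJ.indep.subset_ground)]
    intro U hUs hU
    have h1 : ¬ U ⊆ I := fun hs => hU.not_indep (hI.indep.subset hs)
    have h2 : ¬ U ⊆ J := fun hs => hU.not_indep (hJ.indep.subset hs)
    obtain ⟨b, hb, hbI⟩ := Set.not_subset.1 h1
    obtain ⟨a, ha, haJ⟩ := Set.not_subset.1 h2
    have haI : a ∈ I := (hUs ha).resolve_right haJ
    have hbJ : b ∈ J := (hUs hb).resolve_left hbI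
    exact (hJ.subset hbJ).2 (hmeet U hU a ha b hb (hI.subset haI))
  have hdisj : Disjoint I J := by
    rw [Set.disjoint_left]
    intro a ha hb
    exact (hJ.subset hb).2 (hI.subset ha)
  have h1 := hIJ.encard_le_eRank
  rw [Set.encard_union_eq hdisj, hI.encard_eq_eRk, hJ.encard_eq_eRk] at h1
  obtain ⟨a, ha⟩ := exists_nat_eRk N X
  obtain ⟨b, hb⟩ := exists_nat_eRk N (N.E \ X)
  obtain ⟨r, hr⟩ := exists_nat_eRk N N.E
  rw [Matroid.eRk_ground] at hr
  rw [ha, hb, hr] at h1 hsep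
  norm_cast at h1 hsep
  omega

lemma simple_of_noSep (h : NoSep N) (h4 : 4 ≤ N.E.ncard) :
    ∀ Z, N.IsCircuit Z → 3 ≤ Z.ncard := by
  intro Z hZ
  by_contra hlt
  have hZE := hZ.subset_ground
  have h1 : 0 < Z.ncard := by
    rw [Set.ncard_pos (Set.toFinite _)]; exact hZ.nonempty
  have h2 := Set.ncard_sdiff_add_ncard_of_subset hZE (Set.toFinite _)
  have hsep := h Z hZE Z.ncard (by omega) (by omega)
    (by rw [(Set.toFinite Z).cast_ncard_eq])
    (by
      rw [← (Set.toFinite (N.E \ Z)).cast_ncard_eq]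
      have : Z.ncard ≤ (N.E \ Z).ncard := by omega
      exact_mod_cast this)
  have h3 := hZ.eRk_add_one_eq
  rw [← (Set.toFinite Z).cast_ncard_eq] at h3
  have h5 := N.eRk_le_eRank (N.E \ Z)
  obtain ⟨a, ha⟩ := exists_nat_eRk N Z
  obtain ⟨b, hb⟩ := exists_nat_eRk N (N.E \ Z)
  obtain ⟨r, hr⟩ := exists_nat_eRk N N.E
  rw [Matroid.eRk_ground] at hr
  rw [ha, hb, hr] at hsep
  rw [ha] at h3
  rw [hb, hr] at h5
  norm_cast at h3 h5 hsep
  omega

lemma cosimple_of_noSep (h : NoSep N) (h4 : 4 ≤ N.E.ncard) :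
    ∀ D, N.IsCocircuit D → 3 ≤ D.ncard := by
  intro D hD
  by_contra hlt
  have hDE := hD.subset_ground
  have h1 : 0 < D.ncard := by
    rw [Set.ncard_pos (Set.toFinite _)]; exact hD.nonempty
  have h2 := Set.ncard_sdiff_add_ncard_of_subset hDE (Set.toFinite _)
  have hsep := h D hDE D.ncard (by omega) (by omega)
    (by rw [(Set.toFinite D).cast_ncard_eq])
    (by
      rw [← (Set.toFinite (N.E \ D)).cast_ncard_eq]
      have : D.ncard ≤ (N.E \ D).ncard := by omega
      exact_mod_cast this)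
  have h3 := N.eRk_le_encard D
  rw [← (Set.toFinite D).cast_ncard_eq] at h3
  obtain ⟨a, ha⟩ := exists_nat_eRk N D
  obtain ⟨b, hb⟩ := exists_nat_eRk N (N.E \ D)
  obtain ⟨r, hr⟩ := exists_nat_eRk N N.E
  rw [Matroid.eRk_ground] at hr
  have hrb : N.eRank ≤ N.eRk (N.E \ D) := by
    rw [ha, hb, hr] at hsep
    rw [ha] at h3
    rw [hb, hr]
    norm_cast at h3 hsep ⊢
    omega
  obtain ⟨I, hI⟩ := N.exists_isBasis (N.E \ D) Set.sdiff_subset
  have hIB : N.IsBase I := by
    refine hI.indep.isBase_of_eRk_ge (Set.toFinite _) ?_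
    rw [hI.eRk_eq_eRk]
    exact hrb
  have hcoind : N.Coindep D := by
    rw [Matroid.coindep_iff_exists]
    exact ⟨I, hIB, hI.subset⟩
  exact hD.isCircuit.not_indep hcoind

theorem ag_of_setup {C : Set α} {d : ℕ} (h : Setup N C d) :
    ∃ f : α → (Fin 3 → ZMod 2), Set.BijOn f N.E Set.univ ∧ ∀ I : Set α, I ⊆ N.E →
      (N.Indep I ↔ AffineIndependent (ZMod 2) (fun x : I => f x)) := by
  obtain ⟨Y, h1, h2, h3⟩ := h.exists_reps
  have h' : Setup' N C d Y := { toSetup := h, mem := h1, cover := h2, inj := h3 }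
  obtain ⟨y, hy⟩ := h'.Y_nonempty
  obtain ⟨g, hg1, hg2, hg3, hg4⟩ := (h'.last hy).labels
  exact ag_of_labels g hg1 hg2 hg3 hg4

end Sep

theorem royle (α : Type) (M : Matroid α) (hfin : M.Finite) (h4 : 4 ≤ M.E.encard)
    (hsep : NoSep M) (c d : ℕ)
    (hc : ∃ C : Set α, M.IsCircuit C ∧ C.encard = (c : ℕ∞))
    (hc' : ∀ C : Set α, M.IsCircuit C → C.encard ≤ (c : ℕ∞))
    (hd' : ∀ D : Set α, M.IsCocircuit D → D.encard ≤ (d : ℕ∞)) :
    ((2 : ℕ∞) * M.E.encard < ((c * d : ℕ) : ℕ∞) ∨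
      ∃ f : α → (Fin 3 → ZMod 2), Set.BijOn f M.E Set.univ ∧
        ∀ I : Set α, I ⊆ M.E →
          (M.Indep I ↔ AffineIndependent (ZMod 2) (fun x : I => f x))) := by
  classical
  by_cases hlt : (2 : ℕ∞) * M.E.encard < ((c * d : ℕ) : ℕ∞)
  · exact Or.inl hlt
  right
  have : Fintype M.E := hfin.ground_finite.fintype
  set N := M.restrictSubtype M.E with hN
  have hNE : N.E = Set.univ := Matroid.restrictSubtype_ground
  have henc : ∀ U : Set M.E, (U.ncard : ℕ∞) = (Subtype.val '' U : Set α).encard := by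
    intro U
    rw [Subtype.val_injective.encard_image, (Set.toFinite U).cast_ncard_eq]
  have himE : (Subtype.val '' (Set.univ : Set M.E) : Set α) = M.E := by
    rw [Set.image_univ, Subtype.range_coe]
  have hncE : (N.E.ncard : ℕ∞) = M.E.encard := by
    rw [henc, hNE, himE]
  have himd : ∀ U : Set M.E, (Subtype.val '' (N.E \ U) : Set α) = M.E \ Subtype.val '' U := by
    intro U
    rw [Set.image_sdiff Subtype.val_injective, hNE, himE]
  have hNsep : NoSep N := by
    intro X hX k h1 h2 h3 h5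
    have h6 : (Subtype.val '' X : Set α) ⊆ M.E := by
      rintro _ ⟨x, -, rfl⟩
      exact x.2
    have h7 := hsep (Subtype.val '' X) h6 k h1 h2
      (by rwa [Subtype.val_injective.encard_image])
      (by rwa [← himd, Subtype.val_injective.encard_image])
    rw [sub_eRk, sub_eRk, himd, ← Matroid.eRk_ground, sub_eRk, hNE, himE, Matroid.eRk_ground]
    exact h7
  have h4' : 4 ≤ N.E.ncard := by
    have : ((4 : ℕ) : ℕ∞) ≤ (N.E.ncard : ℕ∞) := by
      rw [hncE]; exact_mod_cast h4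
    exact_mod_cast this
  obtain ⟨C, hC, hCc⟩ := hc
  have hCE := hC.subset_ground
  set C' : Set M.E := Subtype.val ⁻¹' C with hC'
  have hCim : (Subtype.val '' C' : Set α) = C := by
    rw [hC', Subtype.image_preimage_coe, Set.inter_eq_self_of_subset_right hCE]
  have hC'c : C'.ncard = c := by
    have := henc C'
    rw [hCim, hCc] at this
    exact_mod_cast this
  have hsetup : Setup N C' d := by
    refine ⟨?_, ?_, conn_of_noSep hNsep, simple_of_noSep hNsep h4', cosimple_of_noSep hNsep h4',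
      ?_, ?_⟩
    · rw [hN, sub_isCircuit_iff subset_rfl, hCim]
      exact hC
    · intro Z hZ
      rw [hN, sub_isCircuit_iff subset_rfl] at hZ
      have := hc' _ hZ
      rw [← henc] at this
      rw [hC'c]
      exact_mod_cast this
    · intro D hD
      rw [hN, sub_isCocircuit_iff] at hD
      have := hd' _ hD
      rw [← henc] at this
      exact_mod_cast this
    · rw [not_lt, ← hncE] at hlt
      rw [hC'c]
      exact_mod_cast hlt
  obtain ⟨f', hf', hI'⟩ := ag_of_setup hsetup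
  refine ⟨fun x => if h : x ∈ M.E then f' ⟨x, h⟩ else 0, ⟨fun _ _ => Set.mem_univ _, ?_, ?_⟩, ?_⟩
  · intro x hx y hy hxy
    simp only [hx, hy, dif_pos] at hxy
    have := hf'.injOn (by rw [hNE]; exact Set.mem_univ _) (by rw [hNE]; exact Set.mem_univ _) hxy
    exact Subtype.ext_iff.1 this
  · intro v _
    obtain ⟨x, -, hx⟩ := hf'.surjOn (Set.mem_univ v)
    refine ⟨x, x.2, ?_⟩
    simp only [x.2, dif_pos]
    exact hx
  · intro I hI
    set I' : Set M.E := Subtype.val ⁻¹' I with hI'def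
    have hIim : (Subtype.val '' I' : Set α) = I := by
      rw [hI'def, Subtype.image_preimage_coe, Set.inter_eq_self_of_subset_right hI]
    have h1 := hI' I' (by rw [hNE]; exact Set.subset_univ _)
    rw [hN, Matroid.restrictSubtype_indep_iff, hIim] at h1
    rw [h1]
    let e : I ≃ I' :=
      { toFun := fun x => ⟨⟨x.1, hI x.2⟩, x.2⟩
        invFun := fun x => ⟨x.1.1, x.2⟩
        left_inv := fun x => rfl
        right_inv := fun x => rfl }
    rw [← affineIndependent_equiv e]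
    have : (fun x : I => (if h : (x : α) ∈ M.E then f' ⟨x, h⟩ else 0)) =
        (fun x : I' => f' x) ∘ e := by
      funext x
      have hx : (x : α) ∈ M.E := hI x.2
      simp only [hx, dif_pos, Function.comp]
      rfl
    rw [this]

end Pool.Agent.Royle
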