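import Pool.Agent.Royle.Final

/-!
# Royle's inequality for connected simple cosimple matroids (helper module)
-/

set_option autoImplicit false

open Set
open scoped Matroid

namespace Pool.Agent.Royle

/-- The core: hypotheses on the ground-set restriction. -/
theorem royle_core {α : Type*} (M : Matroid α) (hfin : M.Finite)
    (hconn : ∀ x ∈ (M.restrictSubtype M.E).E, ∀ y ∈ (M.restrictSubtype M.E).E, x ≠ y →
      Cn (M.restrictSubtype M.E) x y)
    (hsimp : ∀ Z, (M.restrictSubtype M.E).IsCircuit Z → 3 ≤ Z.ncard)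
    (hcosimp : ∀ D, (M.restrictSubtype M.E).IsCocircuit D → 3 ≤ D.ncard) (c d : ℕ)
    (hc : ∃ C : Set α, M.IsCircuit C ∧ C.encard = (c : ℕ∞))
    (hc' : ∀ C : Set α, M.IsCircuit C → C.encard ≤ (c : ℕ∞))
    (hd' : ∀ D : Set α, M.IsCocircuit D → D.encard ≤ (d : ℕ∞)) :
    ((2 : ℕ∞) * M.E.encard < ((c * d : ℕ) : ℕ∞) ∨
      ∃ f : α → (Fin 3 → ZMod 2), Set.BijOn f M.E Set.univ ∧
        ∀ I : Set α, I ⊆ M.E →
          (M.Indep I ↔ AffineIndependent (ZMod 2) (fun x : I => f x))) := by
  classical
  by_cases hlt : (2 : ℕ∞) * M.E.encard < ((c * d : ℕ) : ℕ∞)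
  · exact Or.inl hlt
  right
  have : Fintype M.E := hfin.ground_finite.fintype
  set N := M.restrictSubtype M.E with hN
  have hNE : N.E = Set.univ := Matroid.restrictSubtype_ground
  have henc : ∀ U : Set M.E, (U.ncard : ℕ∞) = (Subtype.val '' U : Set α).encard := by
    intro U
    rw [Subtype.val_injective.encard_image, (Set.toFinite U).cast_ncard_eq]
  have himE : (Subtype.val '' (Set.univ : Set M.E) : Set α) = M.E := by
    rw [Set.image_univ, Subtype.range_coe]
  have hncE : (N.E.ncard : ℕ∞) = M.E.encard := by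
    rw [henc, hNE, himE]
  have himd : ∀ U : Set M.E, (Subtype.val '' (N.E \ U) : Set α) = M.E \ Subtype.val '' U := by
    intro U
    rw [Set.image_sdiff Subtype.val_injective, hNE, himE]
  obtain ⟨C, hC, hCc⟩ := hc
  have hCE := hC.subset_ground
  set C' : Set M.E := Subtype.val ⁻¹' C with hC'
  have hCim : (Subtype.val '' C' : Set α) = C := by
    rw [hC', Subtype.image_preimage_coe, Set.inter_eq_self_of_subset_right hCE]
  have hC'c : C'.ncard = c := by
    have := henc C'
    rw [hCim, hCc] at this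
    exact_mod_cast this
  have hsetup : Setup N C' d := by
    refine ⟨?_, ?_, hconn, hsimp, hcosimp,
      ?_, ?_⟩
    · rw [hN, sub_isCircuit_iff subset_rfl, hCim]
      exact hC
    · intro Z hZ
      rw [hN, sub_isCircuit_iff subset_rfl] at hZ
      have := hc' _ hZ
      rw [← henc] at this
      rw [hC'c]
      exact_mod_cast this
    · intro D hD
      rw [hN, sub_isCocircuit_iff] at hD
      have := hd' _ hD
      rw [← henc] at this
      exact_mod_cast this
    · rw [not_lt, ← hncE] at hlt
      rw [hC'c]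
      exact_mod_cast hlt
  obtain ⟨f', hf', hI'⟩ := ag_of_setup hsetup
  refine ⟨fun x => if h : x ∈ M.E then f' ⟨x, h⟩ else 0, ⟨fun _ _ => Set.mem_univ _, ?_, ?_⟩, ?_⟩
  · intro x hx y hy hxy
    simp only [hx, hy, dif_pos] at hxy
    have := hf'.injOn (by rw [hNE]; exact Set.mem_univ _) (by rw [hNE]; exact Set.mem_univ _) hxy
    exact Subtype.ext_iff.1 this
  · intro v _
    obtain ⟨x, -, hx⟩ := hf'.surjOn (Set.mem_univ v)
    refine ⟨x, x.2, ?_⟩
    simp only [x.2, dif_pos]
    exact hx
  · intro I hI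
    set I' : Set M.E := Subtype.val ⁻¹' I with hI'def
    have hIim : (Subtype.val '' I' : Set α) = I := by
      rw [hI'def, Subtype.image_preimage_coe, Set.inter_eq_self_of_subset_right hI]
    have h1 := hI' I' (by rw [hNE]; exact Set.subset_univ _)
    rw [hN, Matroid.restrictSubtype_indep_iff, hIim] at h1
    rw [h1]
    let e : I ≃ I' :=
      { toFun := fun x => ⟨⟨x.1, hI x.2⟩, x.2⟩
        invFun := fun x => ⟨x.1.1, x.2⟩
        left_inv := fun x => rfl
        right_inv := fun x => rfl }
    rw [← affineIndependent_equiv e]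
    have : (fun x : I => (if h : (x : α) ∈ M.E then f' ⟨x, h⟩ else 0)) =
        (fun x : I' => f' x) ∘ e := by
      funext x
      have hx : (x : α) ∈ M.E := hI x.2
      simp only [hx, dif_pos, Function.comp]
      rfl
    rw [this]

end Pool.Agent.Royle
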