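import Pool.Agent.Royle.End

/-!
# Eight elements: identification of the circuits
-/

set_option autoImplicit false
set_option linter.unusedSectionVars false

open Set
open scoped Matroid

namespace Pool.Agent.Royle

variable {α : Type*} [Fintype α] {M N R : Matroid α} {B C D K T X Y Z U P q : Set α}
  {a a' b b' e f g h i j k l m x x' y y' z z' : α} {d : ℕ}

lemma exists_compl_pair (hC : C.ncard = 4) (ha : a ∈ C) (hb : b ∈ C) (hab : a ≠ b) :
    ∃ a' ∈ C, ∃ b' ∈ C, a' ≠ a ∧ a' ≠ b ∧ b' ≠ a ∧ b' ≠ b ∧ a' ≠ b' ∧ C = {a, b, a', b'} := by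
  have hcard2 : (C \ {a, b}).ncard = 2 := by
    have := Set.ncard_sdiff_add_ncard_of_subset
      (show ({a, b} : Set α) ⊆ C by rintro t (rfl | rfl) <;> assumption) (Set.toFinite _)
    rw [Set.ncard_pair hab, hC] at this
    omega
  obtain ⟨a', b', hab', hCd⟩ := Set.ncard_eq_two.1 hcard2
  have ha' : a' ∈ C \ {a, b} := by rw [hCd]; simp
  have hb' : b' ∈ C \ {a, b} := by rw [hCd]; simp
  refine ⟨a', ha'.1, b', hb'.1, fun h' => ha'.2 (by left; exact h'),
    fun h' => ha'.2 (by right; exact h'), fun h' => hb'.2 (by left; exact h'),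
    fun h' => hb'.2 (by right; exact h'), hab', ?_⟩
  ext t
  constructor
  · intro ht
    by_cases h2 : t ∈ ({a, b} : Set α)
    · rcases h2 with h2 | h2
      · left; exact h2
      · right; left; exact h2
    · have : t ∈ C \ {a, b} := ⟨ht, h2⟩
      rw [hCd] at this
      right; right; exact this
  · rintro (rfl | rfl | rfl | rfl)
    · exact ha
    · exact hb
    · exact ha'.1
    · exact hb'.1

/-- The final situation. -/
structure Last (M : Matroid α) (C K : Set α) : Prop extends Four M C where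
  E : M.E = C ∪ K
  disj : ∀ x ∈ K, x ∉ C
  cardK : K.ncard = 4
  par : ∀ a ∈ K, ∀ b ∈ K, a ≠ b → (M ／ C).IsCircuit {a, b}
  co : ∀ D, M.IsCocircuit D → D.ncard ≤ 4

theorem Setup'.last (h : Setup' M C d Y) (hy : y ∈ Y) : Last M C (Pool.Agent.Royle.K M C y) := by
  obtain ⟨hC4, hK4, -⟩ := h.count hy
  have hE : M.E = C ∪ Pool.Agent.Royle.K M C y := by
    ext x
    constructor
    · intro hx
      by_cases hxC : x ∈ C
      · left; exact hxC
      · right
        obtain ⟨y', hy', hK⟩ := h.cover x hx hxC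
        rw [h.one_component hy hy', hK]
        exact h.mem_K_self hx hxC
    · rintro (hx | hx)
      · exact h.circ.subset_ground hx
      · exact K_ground hx
  refine ⟨h.four, hE, fun x hx => K_notMem hx, hK4, fun a ha b hb hab => h.all_par hy ha hb hab,
    ?_⟩
  intro D hD
  have h1 := h.cocirc D hD
  have h2 := h.big
  have h3 : M.E.ncard = 8 := by
    rw [hE, Set.ncard_union_eq ?_ (Set.toFinite _) (Set.toFinite _), hC4, hK4]
    rw [Set.disjoint_left]
    exact fun x hxC hxK => K_notMem hxK hxC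
  rw [hC4, h3] at h2
  omega

/-- Two pairs with a common element have different types. -/
lemma Last.types_ne (h : Last M C K) (hf : f ∈ K) (hx : x ∈ K) (hx' : x' ∈ K) (hfx : f ≠ x)
    (hfx' : f ≠ x') (hxx : x ≠ x') (ha : a ∈ C) (hb : b ∈ C) (hab : a ≠ b)
    (h1 : M.IsCircuit {a, b, f, x}) (h2 : M.IsCircuit {a, b, f, x'}) : False := by
  have hF := h.toFour
  -- the fourth element
  have : ∃ x'' ∈ K, x'' ≠ f ∧ x'' ≠ x ∧ x'' ≠ x' := by
    by_contra hcon
    push Not at hcon
    have : K ⊆ {f, x, x'} := by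
      intro t ht
      by_contra htn
      simp only [Set.mem_insert_iff, Set.mem_singleton_iff, not_or] at htn
      exact htn.2.2 (hcon t ht htn.1 htn.2.1)
    have h3 := Set.ncard_le_ncard this (Set.toFinite _)
    have h4 : ({f, x, x'} : Set α).ncard ≤ 3 := by
      refine (Set.ncard_insert_le _ _).trans ?_
      rw [Set.ncard_pair hxx]
    have := h.cardK
    omega
  obtain ⟨x'', hx'', hxf, hxx1, hxx2⟩ := this
  obtain ⟨b'', hb'', hb''a, h3⟩ := hF.partner hxf.symm (h.par f hf x'' hx'' hxf.symm) ha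
  obtain ⟨a', ha', b', hb', n1, n2, n3, n4, n5, -⟩ := exists_compl_pair hF.card ha hb hab
  have key : ∀ k ∈ C, k ≠ a → k ≠ b → b'' = k := by
    intro k hk hka hkb
    have hI : M.Indep (insert f (C \ {k})) := by
      rw [Matroid.indep_iff_forall_subset_not_isCircuit (by
        rintro t (rfl | ht)
        · rw [h.E]; right; exact hf
        · exact hF.circ.subset_ground ht.1)]
      intro U hUs hU
      by_cases hfU : f ∈ U
      · obtain ⟨t, ht, htC, htf, -⟩ := hF.two_of_mem hU hfU (h.disj f hf)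
        rcases hUs ht with h4 | h4
        · exact htf h4
        · exact htC h4.1
      · have hUC : U ⊆ C := by
          intro t ht
          rcases hUs ht with h4 | h4
          · exact absurd (h4 ▸ ht) hfU
          · exact h4.1
        have h5 := hU.eq_of_subset_isCircuit hF.circ hUC
        rw [← h5] at hk
        rcases hUs hk with h4 | h4
        · exact hfU (h4 ▸ hk)
        · exact h4.2 rfl
    obtain ⟨D, hD, hDI⟩ := hI.exists_isCocircuit_inter_eq_mem (e := a)
      (Or.inr ⟨ha, fun h' => hka h'.symm⟩)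
    have haD : a ∈ D := by
      have : a ∈ D ∩ insert f (C \ {k}) := by rw [hDI]; rfl
      exact this.1
    have hnot : ∀ t, t = f ∨ t ∈ C → t ≠ k → t ≠ a → t ∉ D := by
      intro t ht htk hta htD
      have : t ∈ D ∩ insert f (C \ {k}) := by
        refine ⟨htD, ?_⟩
        rcases ht with h' | h'
        · left; exact h'
        · right; exact ⟨h', htk⟩
      rw [hDI] at this
      exact hta this
    have hfD : f ∉ D := hnot f (Or.inl rfl) (fun h' => h.disj f hf (h' ▸ hk))
      (fun h' => h.disj f hf (h' ▸ ha))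
    have hbD : b ∉ D := hnot b (Or.inr hb) (Ne.symm hkb) hab.symm
    have hkD : k ∈ D := by
      obtain ⟨t, hta, htC, htD⟩ := exists_ne_mem_inter hF.circ hD ha haD
      by_contra hkD
      exact hnot t (Or.inr htC) (fun h' => hkD (h' ▸ htD)) hta htD
    have hmem : ∀ s, M.IsCircuit {a, b, f, s} → s ∈ D := by
      intro s hs
      obtain ⟨t, hta, htc, htD⟩ := exists_ne_mem_inter hs hD (by simp) haD
      rcases htc with h4 | h4 | h4 | h4
      · exact absurd h4 hta
      · exact absurd (h4 ▸ htD) hbD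
      · exact absurd (h4 ▸ htD) hfD
      · rw [Set.mem_singleton_iff] at h4
        rwa [h4] at htD
    have hxD := hmem x h1
    have hx'D := hmem x' h2
    have hakx : ({a, k, x, x'} : Set α).ncard = 4 := by
      rw [Set.ncard_insert_of_notMem ?_ (Set.toFinite _),
        Set.ncard_insert_of_notMem ?_ (Set.toFinite _), Set.ncard_pair hxx]
      · rintro (h4 | h4)
        · exact h.disj x hx (h4 ▸ hk)
        · exact h.disj x' hx' (h4 ▸ hk)
      · rintro (h4 | h4 | h4)
        · exact hka h4.symm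
        · exact h.disj x hx (h4 ▸ ha)
        · exact h.disj x' hx' (h4 ▸ ha)
    have hDeq : {a, k, x, x'} = D := by
      refine Set.eq_of_subset_of_ncard_le ?_ ?_ (Set.toFinite _)
      · rintro t (rfl | rfl | rfl | rfl) <;> assumption
      · rw [hakx]; exact h.co D hD
    have hx''D : x'' ∉ D := by
      rw [← hDeq]
      rintro (h4 | h4 | h4 | h4)
      · exact h.disj x'' hx'' (h4 ▸ ha)
      · exact h.disj x'' hx'' (h4 ▸ hk)
      · exact hxx1 h4
      · exact hxx2 h4
    obtain ⟨t, hta, htc, htD⟩ := exists_ne_mem_inter h3 hD (by simp) haD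
    have hb''D : b'' ∈ D := by
      rcases htc with h4 | h4 | h4 | h4
      · exact absurd h4 hta
      · rwa [h4] at htD
      · exact absurd (h4 ▸ htD) hfD
      · rw [Set.mem_singleton_iff] at h4
        exact absurd (h4 ▸ htD) hx''D
    by_contra hbk
    exact hnot b'' (Or.inr hb'') hbk hb''a hb''D
  exact n5 ((key a' ha' n1 n2).symm.trans (key b' hb' n3 n4))

/-- circuits with two elements outside of `C` -/
lemma Four.classify (h : Four M C) (hxx : x ≠ x') (hP : (M ／ C).IsCircuit {x, x'})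
    (hC : C = {a, b, a', b'}) (_hab : a ≠ b) (_hab' : a' ≠ b')
    (h1 : M.IsCircuit {a, b, x, x'}) (h2 : M.IsCircuit {a', b', x, x'}) (hU : M.IsCircuit U)
    (hUx : U \ C = {x, x'}) : U = {a, b, x, x'} ∨ U = {a', b', x, x'} := by
  obtain ⟨c, hc, c', hc', hcc, rfl⟩ := h.shape hxx hP hU hUx
  have hxC : x ∉ C := by
    have := hP.subset_ground (show x ∈ ({x, x'} : Set α) by simp)
    rw [Matroid.contract_ground] at this
    exact this.2
  have hxC' : x' ∉ C := by
    have := hP.subset_ground (show x' ∈ ({x, x'} : Set α) by simp)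
    rw [Matroid.contract_ground] at this
    exact this.2
  have ha : a ∈ C := by rw [hC]; simp
  have hb : b ∈ C := by rw [hC]; simp
  have ha' : a' ∈ C := by rw [hC]; simp
  have hb' : b' ∈ C := by rw [hC]; simp
  have hc2 := hc
  rw [hC] at hc2
  rcases hc2 with h3 | h3 | h3 | h3
  · left
    rw [h3] at hU ⊢
    rw [h.unique hxC hxC' ha hc' hb (h3 ▸ hcc) hU h1]
  · left
    rw [h3] at hU ⊢
    rw [h.unique hxC hxC' hb hc' ha (h3 ▸ hcc) hU (isCircuit_swap_left h1), Set.insert_comm]
  · right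
    rw [h3] at hU ⊢
    rw [h.unique hxC hxC' ha' hc' hb' (h3 ▸ hcc) hU h2]
  · right
    rw [Set.mem_singleton_iff] at h3
    rw [h3] at hU ⊢
    rw [h.unique hxC hxC' hb' hc' ha' (h3 ▸ hcc) hU (isCircuit_swap_left h2), Set.insert_comm]

/-- no circuit has exactly three elements outside of `C` -/
lemma Last.not_three (h : Last M C K) (hU : M.IsCircuit U) : (U \ C).ncard ≠ 3 := by
  intro h3
  have hF := h.toFour
  obtain ⟨f, g, k, hfg, hfk, hgk, hd⟩ := Set.ncard_eq_three.1 h3
  have hmem : ∀ t ∈ U \ C, t ∈ K := by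
    rintro t ⟨ht, htC⟩
    have := hU.subset_ground ht
    rw [h.E] at this
    exact this.resolve_left htC
  have hfU : f ∈ U \ C := by rw [hd]; simp
  have hgU : g ∈ U \ C := by rw [hd]; simp
  have hkU : k ∈ U \ C := by rw [hd]; simp
  have hfK := hmem f hfU
  have hgK := hmem g hgU
  have hkK := hmem k hkU
  have h1 : (U ∩ C).ncard + (U \ C).ncard = U.ncard :=
    Set.ncard_inter_add_ncard_sdiff_eq_ncard U C (Set.toFinite _)
  have h2 := hF.le U hU
  have h4 : (U ∩ C).ncard ≤ 1 := by omega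
  have : ∃ a ∈ C, U ∩ C ⊆ {a} := by
    by_cases hemp : (U ∩ C).Nonempty
    · obtain ⟨a, ha⟩ := hemp
      refine ⟨a, ha.2, ?_⟩
      intro t ht
      exact (Set.ncard_le_one (Set.toFinite _)).1 h4 t ht a ha
    · rw [Set.not_nonempty_iff_eq_empty] at hemp
      obtain ⟨a, ha⟩ := hF.circ.nonempty
      exact ⟨a, ha, by rw [hemp]; exact Set.empty_subset _⟩
  obtain ⟨a, ha, hUa⟩ := this
  obtain ⟨b, hb, hba, hc⟩ := hF.partner hfg (h.par f hfK g hgK hfg) ha
  have hk2 : k ∉ ({a, b, f, g} : Set α) := by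
    rintro (h5 | h5 | h5 | h5)
    · exact hkU.2 (h5 ▸ ha)
    · exact hkU.2 (h5 ▸ hb)
    · exact hfk h5.symm
    · exact hgk h5.symm
  obtain ⟨V, hVs, hV, hkV⟩ := hU.strong_elimination hc (e := f) (f := k) hfU.1 (by simp)
    hkU.1 hk2
  have hVsub : ∀ t ∈ V, t = a ∨ t = b ∨ t = g ∨ t = k := by
    intro t ht
    obtain ⟨h5, h6⟩ := hVs ht
    have h7 : t ≠ f := h6
    rcases h5 with h5 | h5 | h5 | h5 | h5
    · by_cases htC : t ∈ C
      · left; exact hUa ⟨h5, htC⟩
      · have : t ∈ U \ C := ⟨h5, htC⟩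
        rw [hd] at this
        rcases this with h8 | h8 | h8
        · exact absurd h8 h7
        · right; right; left; exact h8
        · right; right; right; exact h8
    · left; exact h5
    · right; left; exact h5
    · exact absurd h5 h7
    · right; right; left; exact h5
  have hgV : g ∈ V := by
    refine hF.pair_mem hV hkV hkU.2 ?_
    intro t ht htC _
    rcases hVsub t ht with h5 | h5 | h5 | h5
    · exact absurd (h5 ▸ ha) htC
    · exact absurd (h5 ▸ hb) htC
    · right; exact h5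
    · left; exact h5
  have hdV : V \ C = {g, k} := by
    refine Set.Subset.antisymm ?_ ?_
    · rintro t ⟨ht, htC⟩
      rcases hVsub t ht with h5 | h5 | h5 | h5
      · exact absurd (h5 ▸ ha) htC
      · exact absurd (h5 ▸ hb) htC
      · left; exact h5
      · right; exact h5
    · rintro t (rfl | rfl)
      · exact ⟨hgV, hgU.2⟩
      · exact ⟨hkV, hkU.2⟩
  have h5 := hF.inter_two hgk (h.par g hgK k hkK hgk) hV hdV
  have h6 : V ∩ C = {a, b} := by
    refine Set.eq_of_subset_of_ncard_le ?_ ?_ (Set.toFinite _)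
    · rintro t ⟨ht, htC⟩
      rcases hVsub t ht with h5 | h5 | h5 | h5
      · left; exact h5
      · right; exact h5
      · exact absurd (h5 ▸ htC) hgU.2
      · exact absurd (h5 ▸ htC) hkU.2
    · rw [Set.ncard_pair hba.symm, h5]
  have h7 := eq_four h6 hdV
  rw [h7] at hV
  exact h.types_ne hgK hfK hkK hfg.symm hgk hfk ha hb hba.symm (isCircuit_swap_right hc) hV

/-- The fourteen planes of `AG(3,2)`, points being numbered by their binary digits. -/
def planes : Finset (Finset (Fin 8)) :=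
  {{0, 1, 2, 3}, {4, 5, 6, 7}, {0, 1, 4, 5}, {2, 3, 4, 5}, {0, 1, 6, 7}, {2, 3, 6, 7},
    {0, 2, 4, 6}, {1, 3, 4, 6}, {0, 2, 5, 7}, {1, 3, 5, 7}, {0, 3, 4, 7}, {1, 2, 4, 7},
    {0, 3, 5, 6}, {1, 2, 5, 6}}

lemma Four.of_inter (h : Four M C) (hU : M.IsCircuit U) (hUC : ¬ U ⊆ C) :
    2 ≤ (U \ C).ncard := by
  obtain ⟨x, hx, hxC⟩ := Set.not_subset.1 hUC
  obtain ⟨y, hy, hyC, hyx, -⟩ := h.two_of_mem hU hx hxC
  have : ({x, y} : Set α) ⊆ U \ C := by
    rintro t (rfl | rfl)
    · exact ⟨hx, hxC⟩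
    · exact ⟨hy, hyC⟩
  have h2 := Set.ncard_le_ncard this (Set.toFinite _)
  rwa [Set.ncard_pair hyx.symm] at h2

theorem Last.labels (h : Last M C K) : ∃ g : Fin 8 → α, Function.Injective g ∧
    M.E = Set.range g ∧ (∀ P ∈ planes, M.IsCircuit (g '' (P : Set (Fin 8)))) ∧
    ∀ U, M.IsCircuit U → ∃ P ∈ planes, U = g '' (P : Set (Fin 8)) := by
  have hF := h.toFour
  obtain ⟨x0, hx0⟩ : K.Nonempty := by
    rw [← Set.ncard_pos (Set.toFinite _), h.cardK]; norm_num
  obtain ⟨x1, hx1, hx10⟩ := Set.exists_ne_of_one_lt_ncard (s := K) (by rw [h.cardK]; norm_num) x0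
  obtain ⟨c1, hc1⟩ := hF.circ.nonempty
  obtain ⟨x2, hx2, x3, hx3, n20, n21, n30, n31, n23, hK⟩ :=
    exists_compl_pair h.cardK hx0 hx1 hx10.symm
  obtain ⟨c2, hc2, hc21, hA1⟩ := hF.partner hx10.symm (h.par x0 hx0 x1 hx1 hx10.symm) hc1
  obtain ⟨c3, hc3, hc31, hB1⟩ := hF.partner n20.symm (h.par x0 hx0 x2 hx2 n20.symm) hc1
  obtain ⟨c4, hc4, hc41, hG1⟩ := hF.partner n30.symm (h.par x0 hx0 x3 hx3 n30.symm) hc1
  have hc32 : c3 ≠ c2 := by
    rintro rfl
    exact h.types_ne hx0 hx1 hx2 hx10.symm n20.symm n21.symm hc1 hc3 hc31.symm hA1 hB1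
  have hc42 : c4 ≠ c2 := by
    rintro rfl
    exact h.types_ne hx0 hx1 hx3 hx10.symm n30.symm n31.symm hc1 hc4 hc41.symm hA1 hG1
  have hc43 : c4 ≠ c3 := by
    rintro rfl
    exact h.types_ne hx0 hx2 hx3 n20.symm n30.symm n23 hc1 hc4 hc41.symm hB1 hG1
  have hC : C = {c1, c2, c3, c4} := by
    refine (Set.eq_of_subset_of_ncard_le ?_ ?_ (Set.toFinite _)).symm
    · rintro t (rfl | rfl | rfl | rfl) <;> assumption
    · rw [Set.ncard_insert_of_notMem ?_ (Set.toFinite _),
        Set.ncard_insert_of_notMem ?_ (Set.toFinite _), Set.ncard_pair hc43.symm, hF.card]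
      · rintro (h4 | h4)
        · exact hc32 h4.symm
        · exact hc42 h4.symm
      · rintro (h4 | h4 | h4)
        · exact hc21 h4.symm
        · exact hc31 h4.symm
        · exact hc41 h4.symm
  have hCβ : C = {c1, c3, c2, c4} := by rw [hC, Set.insert_comm c2 c3]
  have hCγ : C = {c1, c4, c2, c3} := by
    rw [hC]
    ext t
    simp only [Set.mem_insert_iff, Set.mem_singleton_iff]
    tauto
  have e01 : x0 ≠ x1 := hx10.symm
  have p01 := h.par x0 hx0 x1 hx1 hx10.symm
  have p02 := h.par x0 hx0 x2 hx2 n20.symm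
  have p03 := h.par x0 hx0 x3 hx3 n30.symm
  have p12 := h.par x1 hx1 x2 hx2 n21.symm
  have p13 := h.par x1 hx1 x3 hx3 n31.symm
  have p23 := h.par x2 hx2 x3 hx3 n23
  have hA2 := hF.compl e01 p01 hC hc21.symm hc31.symm hc32.symm hA1
  have hB2 := hF.compl n20.symm p02 hCβ hc31.symm hc21.symm hc32 hB1
  have hG2 := hF.compl n30.symm p03 hCγ hc41.symm hc21.symm hc42 hG1
  -- the pair x1 x2
  have hG3 : M.IsCircuit {c1, c4, x1, x2} := by
    obtain ⟨c, hc, hcc, hcirc⟩ := hF.partner n21.symm p12 hc1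
    have hc' := hc
    rw [hC] at hc'
    rcases hc' with h4 | h4 | h4 | h4
    · exact absurd h4 hcc
    · rw [h4] at hcirc
      exact (h.types_ne hx1 hx0 hx2 hx10 n21.symm n20.symm hc1 hc2 hc21.symm
        (isCircuit_swap_right hA1) hcirc).elim
    · rw [h4] at hcirc
      exact (h.types_ne hx2 hx0 hx1 n20 n21 e01 hc1 hc3 hc31.symm
        (isCircuit_swap_right hB1) (isCircuit_swap_right hcirc)).elim
    · rw [Set.mem_singleton_iff] at h4
      rwa [h4] at hcirc
  have hG4 := hF.compl n21.symm p12 hCγ hc41.symm hc21.symm hc42 hG3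
  have hB3 : M.IsCircuit {c1, c3, x1, x3} := by
    obtain ⟨c, hc, hcc, hcirc⟩ := hF.partner n31.symm p13 hc1
    have hc' := hc
    rw [hC] at hc'
    rcases hc' with h4 | h4 | h4 | h4
    · exact absurd h4 hcc
    · rw [h4] at hcirc
      exact (h.types_ne hx1 hx0 hx3 hx10 n31.symm n30.symm hc1 hc2 hc21.symm
        (isCircuit_swap_right hA1) hcirc).elim
    · rwa [h4] at hcirc
    · rw [Set.mem_singleton_iff] at h4
      rw [h4] at hcirc
      exact (h.types_ne hx3 hx0 hx1 n30 n31 e01 hc1 hc4 hc41.symm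
        (isCircuit_swap_right hG1) (isCircuit_swap_right hcirc)).elim
  have hB4 := hF.compl n31.symm p13 hCβ hc31.symm hc21.symm hc32 hB3
  have hA3 : M.IsCircuit {c1, c2, x2, x3} := by
    obtain ⟨c, hc, hcc, hcirc⟩ := hF.partner n23 p23 hc1
    have hc' := hc
    rw [hC] at hc'
    rcases hc' with h4 | h4 | h4 | h4
    · exact absurd h4 hcc
    · rwa [h4] at hcirc
    · rw [h4] at hcirc
      exact (h.types_ne hx2 hx0 hx3 n20 n23 n30.symm hc1 hc3 hc31.symm
        (isCircuit_swap_right hB1) hcirc).elim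
    · rw [Set.mem_singleton_iff] at h4
      rw [h4] at hcirc
      exact (h.types_ne hx3 hx0 hx2 n30 n23.symm n20.symm hc1 hc4 hc41.symm
        (isCircuit_swap_right hG1) (isCircuit_swap_right hcirc)).elim
  have hA4 := hF.compl n23 p23 hC hc21.symm hc31.symm hc32.symm hA3
  -- circuits with two elements outside of C
  have hcl : ∀ U, M.IsCircuit U → ¬ U ⊆ C → (U = {c1, c2, x0, x1} ∨ U = {c3, c4, x0, x1} ∨
      U = {c1, c2, x2, x3} ∨ U = {c3, c4, x2, x3} ∨ U = {c1, c3, x0, x2} ∨ U = {c2, c4, x0, x2} ∨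
      U = {c1, c3, x1, x3} ∨ U = {c2, c4, x1, x3} ∨ U = {c1, c4, x0, x3} ∨ U = {c2, c3, x0, x3} ∨
      U = {c1, c4, x1, x2} ∨ U = {c2, c3, x1, x2}) ∨ U = K := by
    intro U hU hUC
    have h2 := hF.of_inter hU hUC
    have h3 := h.not_three hU
    have h4 : (U ∩ C).ncard + (U \ C).ncard = U.ncard :=
      Set.ncard_inter_add_ncard_sdiff_eq_ncard U C (Set.toFinite _)
    have h5 := hF.le U hU
    have hUK : U \ C ⊆ K := by
      rintro t ⟨ht, htC⟩
      have := hU.subset_ground ht
      rw [h.E] at this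
      exact this.resolve_left htC
    by_cases h6 : (U \ C).ncard = 2
    · left
      obtain ⟨u, v, huv, hd⟩ := Set.ncard_eq_two.1 h6
      have hu : u ∈ K := hUK (by rw [hd]; simp)
      have hv : v ∈ K := hUK (by rw [hd]; simp)
      have d01 : U \ C = {x0, x1} → U = {c1, c2, x0, x1} ∨ U = {c3, c4, x0, x1} := fun hd =>
        hF.classify e01 p01 hC hc21.symm hc43.symm hA1 hA2 hU hd
      have d23 : U \ C = {x2, x3} → U = {c1, c2, x2, x3} ∨ U = {c3, c4, x2, x3} := fun hd =>
        hF.classify n23 p23 hC hc21.symm hc43.symm hA3 hA4 hU hd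
      have d02 : U \ C = {x0, x2} → U = {c1, c3, x0, x2} ∨ U = {c2, c4, x0, x2} := fun hd =>
        hF.classify n20.symm p02 hCβ hc31.symm hc42.symm hB1 hB2 hU hd
      have d13 : U \ C = {x1, x3} → U = {c1, c3, x1, x3} ∨ U = {c2, c4, x1, x3} := fun hd =>
        hF.classify n31.symm p13 hCβ hc31.symm hc42.symm hB3 hB4 hU hd
      have d03 : U \ C = {x0, x3} → U = {c1, c4, x0, x3} ∨ U = {c2, c3, x0, x3} := fun hd =>
        hF.classify n30.symm p03 hCγ hc41.symm hc32.symm hG1 hG2 hU hd
      have d12 : U \ C = {x1, x2} → U = {c1, c4, x1, x2} ∨ U = {c2, c3, x1, x2} := fun hd =>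
        hF.classify n21.symm p12 hCγ hc41.symm hc32.symm hG3 hG4 hU hd
      have hall : (U \ C = {x0, x1} ∨ U \ C = {x0, x2} ∨ U \ C = {x0, x3} ∨ U \ C = {x1, x2} ∨
          U \ C = {x1, x3} ∨ U \ C = {x2, x3}) := by
        rw [hK] at hu hv
        simp only [Set.mem_insert_iff, Set.mem_singleton_iff] at hu hv
        rw [hd]
        rcases hu with rfl | rfl | rfl | rfl <;> rcases hv with rfl | rfl | rfl | rfl
        · exact absurd rfl huv
        · exact Or.inl rfl
        · exact Or.inr (Or.inl rfl)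
        · exact Or.inr (Or.inr (Or.inl rfl))
        · left; exact Set.pair_comm _ _
        · exact absurd rfl huv
        · exact Or.inr (Or.inr (Or.inr (Or.inl rfl)))
        · exact Or.inr (Or.inr (Or.inr (Or.inr (Or.inl rfl))))
        · right; left; exact Set.pair_comm _ _
        · right; right; right; left; exact Set.pair_comm _ _
        · exact absurd rfl huv
        · exact Or.inr (Or.inr (Or.inr (Or.inr (Or.inr rfl))))
        · right; right; left; exact Set.pair_comm _ _
        · right; right; right; right; left; exact Set.pair_comm _ _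
        · right; right; right; right; right; exact Set.pair_comm _ _
        · exact absurd rfl huv
      rcases hall with h7 | h7 | h7 | h7 | h7 | h7
      · rcases d01 h7 with h8 | h8 <;> simp [h8]
      · rcases d02 h7 with h8 | h8 <;> simp [h8]
      · rcases d03 h7 with h8 | h8 <;> simp [h8]
      · rcases d12 h7 with h8 | h8 <;> simp [h8]
      · rcases d13 h7 with h8 | h8 <;> simp [h8]
      · rcases d23 h7 with h8 | h8 <;> simp [h8]
    · right
      have h7 : (U \ C).ncard = 4 := by omega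
      have h8 : U \ C = K := Set.eq_of_subset_of_ncard_le hUK (by rw [h7, h.cardK])
        (Set.toFinite _)
      have h9 : (U ∩ C).ncard = 0 := by omega
      rw [Set.ncard_eq_zero (Set.toFinite _)] at h9
      rw [← h8]
      refine Set.Subset.antisymm (fun t ht => ⟨ht, fun htC => ?_⟩) Set.sdiff_subset
      exact absurd (show t ∈ U ∩ C from ⟨ht, htC⟩) (by simp [h9])
  -- K is a circuit
  have hcK : M.IsCircuit K := by
    by_contra hnot
    have hI : M.Indep K := by
      rw [Matroid.indep_iff_forall_subset_not_isCircuit (by rw [h.E]; exact Set.subset_union_right)]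
      intro U hUs hU
      have hUC : ¬ U ⊆ C := by
        intro hUC
        obtain ⟨t, ht⟩ := hU.nonempty
        exact h.disj t (hUs ht) (hUC ht)
      have h2 : (U ∩ C) = ∅ := by
        ext t
        simp only [Set.mem_inter_iff, Set.mem_empty_iff_false, iff_false, not_and]
        exact fun ht => h.disj t (hUs ht)
      have h4 : (U ∩ C).ncard + (U \ C).ncard = U.ncard :=
        Set.ncard_inter_add_ncard_sdiff_eq_ncard U C (Set.toFinite _)
      rw [h2, Set.ncard_empty] at h4
      have h5 := hF.le U hU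
      have h6 := hF.ge U hU
      have h7 := h.not_three hU
      have h8 : U = K := Set.eq_of_subset_of_ncard_le hUs (by rw [h.cardK]; omega)
        (Set.toFinite _)
      exact hnot (h8 ▸ hU)
    obtain ⟨D, hD, hDI⟩ := hI.exists_isCocircuit_inter_eq_mem (e := x3) hx3
    have hx3D : x3 ∈ D := by
      have : x3 ∈ D ∩ K := by rw [hDI]; rfl
      exact this.1
    have hnotD : ∀ t ∈ K, t ≠ x3 → t ∉ D := by
      intro t ht hta htD
      have : t ∈ D ∩ K := ⟨htD, ht⟩
      rw [hDI] at this
      exact hta this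
    have hx0D := hnotD x0 hx0 n30.symm
    have hx1D := hnotD x1 hx1 n31.symm
    have hx2D := hnotD x2 hx2 n23
    have hiff : ∀ a b x x', M.IsCircuit {a, b, x, x'} → x ∉ D → x' ∉ D → a ∈ D → b ∈ D := by
      intro a b x x' hc hx hx' haD
      obtain ⟨t, hta, htc, htD⟩ := exists_ne_mem_inter hc hD (by simp) haD
      rcases htc with h4 | h4 | h4 | h4
      · exact absurd h4 hta
      · rwa [h4] at htD
      · exact absurd (h4 ▸ htD) hx
      · rw [Set.mem_singleton_iff] at h4
        exact absurd (h4 ▸ htD) hx'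
    have h12 : c1 ∈ D ↔ c2 ∈ D := ⟨hiff _ _ _ _ hA1 hx0D hx1D,
      hiff _ _ _ _ (isCircuit_swap_left hA1) hx0D hx1D⟩
    have h34 : c3 ∈ D ↔ c4 ∈ D := ⟨hiff _ _ _ _ hA2 hx0D hx1D,
      hiff _ _ _ _ (isCircuit_swap_left hA2) hx0D hx1D⟩
    have h13 : c1 ∈ D ↔ c3 ∈ D := ⟨hiff _ _ _ _ hB1 hx0D hx2D,
      hiff _ _ _ _ (isCircuit_swap_left hB1) hx0D hx2D⟩
    have h14 : c1 ∈ D ∨ c4 ∈ D := by
      obtain ⟨t, hta, htc, htD⟩ := exists_ne_mem_inter hG1 hD (x := x3) (by simp) hx3D
      rcases htc with h4 | h4 | h4 | h4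
      · left; rwa [h4] at htD
      · right; rwa [h4] at htD
      · exact absurd (h4 ▸ htD) hx0D
      · exact absurd h4 hta
    have hc1D : c1 ∈ D := by
      rcases h14 with h4 | h4
      · exact h4
      · exact h13.2 (h34.2 h4)
    have hsub : insert x3 C ⊆ D := by
      rintro t (rfl | ht)
      · exact hx3D
      · rw [hC] at ht
        rcases ht with h4 | h4 | h4 | h4
        · rw [h4]; exact hc1D
        · rw [h4]; exact h12.1 hc1D
        · rw [h4]; exact h13.1 hc1D
        · rw [Set.mem_singleton_iff] at h4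
          rw [h4]; exact h34.1 (h13.1 hc1D)
    have h4 := Set.ncard_le_ncard hsub (Set.toFinite _)
    rw [Set.ncard_insert_of_notMem (h.disj x3 hx3) (Set.toFinite _), hF.card] at h4
    have := h.co D hD
    omega
  -- the labelling
  set g : Fin 8 → α := ![c1, c2, c3, c4, x0, x1, x2, x3] with hg
  have hrange : Set.range g = M.E := by
    rw [h.E, hC, hK, hg]
    ext t
    simp only [Matrix.range_cons, Matrix.range_empty, Set.mem_union, Set.mem_insert_iff,
      Set.mem_singleton_iff, Set.mem_empty_iff_false, or_false]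
    tauto
  have hinj : Function.Injective g := by
    have h8 : M.E.ncard = 8 := by
      rw [h.E, Set.ncard_union_eq ?_ (Set.toFinite _) (Set.toFinite _), hF.card, h.cardK]
      rw [Set.disjoint_left]
      exact fun x hxC hxK => h.disj x hxK hxC
    rw [← Set.injOn_univ]
    refine Set.injOn_of_ncard_image_eq ?_ (Set.toFinite _)
    rw [Set.image_univ, hrange, h8, Set.ncard_univ, Nat.card_eq_fintype_card, Fintype.card_fin]
  refine ⟨g, hinj, hrange.symm, ?_, ?_⟩
  · intro P hP
    unfold planes at hP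
    simp only [Finset.mem_insert, Finset.mem_singleton] at hP
    have hC' := hF.circ
    rw [hC] at hC'
    have hcK' := hcK
    rw [hK] at hcK'
    rcases hP with rfl | rfl | rfl | rfl | rfl | rfl | rfl | rfl | rfl | rfl | rfl | rfl | rfl | rfl
    all_goals simp only [Finset.coe_insert, Finset.coe_singleton, Set.image_insert_eq,
      Set.image_singleton]
    · exact hC'
    · exact hcK'
    · exact hA1
    · exact hA2
    · exact hA3
    · exact hA4
    · exact hB1
    · exact hB2
    · exact hB3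
    · exact hB4
    · exact hG1
    · exact hG2
    · exact hG3
    · exact hG4
  · intro U hU
    have himg : ∀ a b c d : Fin 8, ({g a, g b, g c, g d} : Set α) =
        g '' (({a, b, c, d} : Finset (Fin 8)) : Set (Fin 8)) := by
      intro a b c d
      simp only [Finset.coe_insert, Finset.coe_singleton, Set.image_insert_eq, Set.image_singleton]
    by_cases hUC : U ⊆ C
    · refine ⟨{0, 1, 2, 3}, by decide, ?_⟩
      rw [← himg, hU.eq_of_subset_isCircuit hF.circ hUC, hC]
      rfl
    · rcases hcl U hU hUC with (h1 | h1 | h1 | h1 | h1 | h1 | h1 | h1 | h1 | h1 | h1 | h1) | h1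
      · exact ⟨{0, 1, 4, 5}, by decide, by rw [← himg, h1]; rfl⟩
      · exact ⟨{2, 3, 4, 5}, by decide, by rw [← himg, h1]; rfl⟩
      · exact ⟨{0, 1, 6, 7}, by decide, by rw [← himg, h1]; rfl⟩
      · exact ⟨{2, 3, 6, 7}, by decide, by rw [← himg, h1]; rfl⟩
      · exact ⟨{0, 2, 4, 6}, by decide, by rw [← himg, h1]; rfl⟩
      · exact ⟨{1, 3, 4, 6}, by decide, by rw [← himg, h1]; rfl⟩
      · exact ⟨{0, 2, 5, 7}, by decide, by rw [← himg, h1]; rfl⟩
      · exact ⟨{1, 3, 5, 7}, by decide, by rw [← himg, h1]; rfl⟩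
      · exact ⟨{0, 3, 4, 7}, by decide, by rw [← himg, h1]; rfl⟩
      · exact ⟨{1, 2, 4, 7}, by decide, by rw [← himg, h1]; rfl⟩
      · exact ⟨{0, 3, 5, 6}, by decide, by rw [← himg, h1]; rfl⟩
      · exact ⟨{1, 2, 5, 6}, by decide, by rw [← himg, h1]; rfl⟩
      · exact ⟨{4, 5, 6, 7}, by decide, by rw [← himg, h1, hK]; rfl⟩

end Pool.Agent.Royle
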