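import Pool.Agent.Royle.Basic

/-!
# The spanning circuit lemma

If `C` is a spanning circuit of the loopless matroid `N`, then for all weights `lam, v ≥ 0` one has
`2 ∑ lam x * v x ≤ Δ * V`, where `V` bounds the `v`-weights of the circuits and `Δ` bounds the
`lam`-weights of the cocircuits `E \ cl (C \ {i, j})` and the numbers `2 * lam x`.
-/

set_option autoImplicit false
set_option linter.unusedSectionVars false

open Set
open scoped Matroid

namespace Pool.Agent.Royle

variable {α : Type*} [Fintype α] {N : Matroid α} {C D X Y Z U P : Set α} {e f g h i j k x y z : α}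
  {v w lam : α → ℝ}

/-- The cocircuit of a pair. -/
def Dc (N : Matroid α) (C : Set α) (i j : α) : Set α := N.E \ N.closure (C \ {i, j})

lemma Dc_symm (N : Matroid α) (C : Set α) (i j : α) : Dc N C i j = Dc N C j i := by
  unfold Dc; rw [Set.pair_comm]

lemma Dc_inter (hC : N.IsCircuit C) (hi : i ∈ C) (hj : j ∈ C) (hij : i ≠ j) :
    Dc N C i j ∩ C = {i, j} := by
  have key : ∀ i j, i ∈ C → j ∈ C → i ≠ j → i ∉ N.closure (C \ {i, j}) := by
    intro i j hi hj hij
    have hI := hC.sdiff_singleton_indep hj
    have := hI.notMem_closure_sdiff_of_mem (e := i) ⟨hi, hij⟩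
    have hs : (C \ {j}) \ {i} = C \ {i, j} := by
      ext a
      simp only [Set.mem_sdiff, Set.mem_insert_iff, Set.mem_singleton_iff]
      tauto
    rwa [hs] at this
  ext a
  constructor
  · rintro ⟨⟨-, h1⟩, h2⟩
    by_contra h3
    exact h1 (N.mem_closure_of_mem ⟨h2, h3⟩ (Set.sdiff_subset.trans hC.subset_ground))
  · rintro (rfl | rfl)
    · exact ⟨⟨hC.subset_ground hi, key _ _ hi hj hij⟩, hi⟩
    · refine ⟨⟨hC.subset_ground hj, ?_⟩, hj⟩
      rw [Set.pair_comm]
      exact key _ _ hj hi hij.symm

lemma Dc_exists_other (hZ : N.IsCircuit Z) (he : e ∈ Z) (heD : e ∈ Dc N C i j) :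
    ∃ y ∈ Z, y ≠ e ∧ y ∈ Dc N C i j := by
  by_contra hcon
  push Not at hcon
  refine heD.2 ?_
  have h1 : Z \ {e} ⊆ N.closure (C \ {i, j}) := by
    rintro a ⟨ha, hae⟩
    by_contra hcl
    exact hcon a ha hae ⟨hZ.subset_ground ha, hcl⟩
  have h2 := N.closure_subset_closure h1
  rw [N.closure_closure] at h2
  exact h2 (hZ.mem_closure_sdiff_singleton_of_mem he)

lemma Dc_exists (hC : N.IsCircuit C) (hsp : N.E ⊆ N.closure C) (hl : ∀ x, ¬ N.IsCircuit {x})
    (hx : x ∈ N.E) (hxC : x ∉ C) (hi : i ∈ C) : ∃ k ∈ C, k ≠ i ∧ x ∈ Dc N C i k := by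
  have hI := hC.sdiff_singleton_indep hi
  have hxcl : x ∈ N.closure (C \ {i}) := by
    rw [hC.closure_sdiff_singleton_eq]; exact hsp hx
  obtain ⟨U, hUs, hU, hxU⟩ := Matroid.exists_isCircuit_of_mem_closure hxcl (fun h => hxC h.1)
  have : ∃ k ∈ U, k ≠ x := by
    by_contra hcon
    push Not at hcon
    have : U = {x} := Set.Subset.antisymm (fun a ha => hcon a ha) (by simpa using hxU)
    exact hl x (this ▸ hU)
  obtain ⟨k, hkU, hkx⟩ := this
  have hkC : k ∈ C \ {i} := by
    rcases hUs hkU with h | h
    · exact absurd h hkx
    · exact h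
  refine ⟨k, hkC.1, hkC.2, hx, ?_⟩
  intro hcl
  obtain ⟨U', hU's, hU', hxU'⟩ := Matroid.exists_isCircuit_of_mem_closure hcl (fun h => hxC h.1)
  have hne : U ≠ U' := by
    rintro rfl
    rcases hU's hkU with h | h
    · exact hkx h
    · exact h.2 (by simp)
  obtain ⟨U'', hs, hU''⟩ := hU.elimination hU' hne x
  refine hU''.not_indep (hI.subset ?_)
  intro a ha
  obtain ⟨h1, h2⟩ := hs ha
  rcases h1 with h1 | h1
  · rcases hUs h1 with h | h
    · exact absurd h h2
    · exact h
  · rcases hU's h1 with h | h
    · exact absurd h h2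
    · exact ⟨h.1, fun h' => h.2 (by left; exact h')⟩

lemma Dc_closure_inter (hC : N.IsCircuit C) (hk : k ∈ C) :
    N.closure (C \ {i, k}) ∩ N.closure (C \ {j, k}) ⊆ N.closure (C \ {i, j, k}) := by
  have hI : N.Indep (C \ {i, k} ∪ C \ {j, k}) := by
    refine (hC.sdiff_singleton_indep hk).subset ?_
    rintro a (h | h)
    · exact ⟨h.1, fun h' => h.2 (by right; exact h')⟩
    · exact ⟨h.1, fun h' => h.2 (by right; exact h')⟩
  rw [← hI.closure_inter_eq_inter_closure]
  refine N.closure_subset_closure ?_
  rintro a ⟨h1, h2⟩
  refine ⟨h1.1, ?_⟩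
  rintro (h | h | h)
  · exact h1.2 (by left; exact h)
  · exact h2.2 (by left; exact h)
  · exact h1.2 (by right; exact h)

lemma Dc_trans (hC : N.IsCircuit C) (hk : k ∈ C) :
    Dc N C i j ⊆ Dc N C i k ∪ Dc N C j k := by
  intro a ha
  by_contra hcon
  rw [Set.mem_union, not_or] at hcon
  have h1 : a ∈ N.closure (C \ {i, k}) := by
    by_contra h; exact hcon.1 ⟨ha.1, h⟩
  have h2 : a ∈ N.closure (C \ {j, k}) := by
    by_contra h; exact hcon.2 ⟨ha.1, h⟩
  refine ha.2 (N.closure_subset_closure ?_ (Dc_closure_inter hC hk ⟨h1, h2⟩))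
  rintro b ⟨hb, hb'⟩
  refine ⟨hb, ?_⟩
  rintro (h | h)
  · exact hb' (by left; exact h)
  · exact hb' (by right; left; exact h)

lemma Dc_trans' (hC : N.IsCircuit C) (hk : k ∈ C) (h1 : x ∉ Dc N C i k)
    (h2 : x ∈ Dc N C i j) : x ∈ Dc N C k j := by
  rw [Dc_symm]
  exact (Dc_trans hC hk h2).resolve_left h1

lemma W_sub_ite (S : Set α) (ε : ℝ) (Z : Set α) [DecidablePred (· ∈ Z)] :
    W (fun x => if x ∈ Z then lam x - ε else lam x) S = W lam S - ε * ((S ∩ Z).ncard : ℝ) := by
  have h : (((S ∩ Z).ncard : ℝ)) * ε = W (fun _ => ε) (S ∩ Z) := (W_const ε _).symm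
  rw [mul_comm, h]
  have h2 : W lam S = W lam (S ∩ Z) + W lam (S \ Z) := (W_inter_add_diff S Z).symm
  have h3 := W_inter_add_diff (v := fun x => if x ∈ Z then lam x - ε else lam x) S Z
  have h4 : W (fun x => if x ∈ Z then lam x - ε else lam x) (S \ Z) = W lam (S \ Z) :=
    W_congr fun x hx => by simp [hx.2]
  have h5 : W (fun x => if x ∈ Z then lam x - ε else lam x) (S ∩ Z) + W (fun _ => ε) (S ∩ Z)
      = W lam (S ∩ Z) := by
    rw [← W_add]
    exact W_congr fun x hx => by simp [hx.2]
  linarith

lemma parallel_of_rank_one (hl : ∀ x, ¬ N.IsCircuit {x}) (hi : i ∈ N.E)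
    (hsp : N.E ⊆ N.closure {i}) (hx : x ∈ N.E) (hy : y ∈ N.E) (hxy : x ≠ y) :
    N.IsCircuit {x, y} := by
  have hnl : ∀ x ∈ N.E, x ∉ N.closure ∅ := by
    intro x hx hcl
    refine hl x ?_
    rw [Matroid.singleton_isCircuit]
    exact hcl
  have h1 : i ∈ N.closure {y} := by
    have := Matroid.closure_exchange (M := N) (e := y) (f := i) (X := ∅)
      ⟨by simpa using hsp hy, hnl y hy⟩
    simpa using this.1
  have h2 : x ∈ N.closure {y} := by
    have h3 : N.closure {i} ⊆ N.closure {y} := by
      have := N.closure_subset_closure (show ({i} : Set α) ⊆ N.closure {y} by simpa using h1)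
      rwa [N.closure_closure] at this
    exact h3 (hsp hx)
  obtain ⟨U, hUs, hU, hxU⟩ := Matroid.exists_isCircuit_of_mem_closure h2 (by simpa using hxy)
  have hyU : y ∈ U := by
    by_contra hyU
    have : U = {x} := by
      refine Set.Subset.antisymm (fun a ha => ?_) (by simpa using hxU)
      rcases hUs ha with h | h
      · exact h
      · exact absurd (h ▸ ha) hyU
    exact hl x (this ▸ hU)
  have : U = {x, y} := Set.Subset.antisymm hUs (by rintro a (rfl | rfl) <;> assumption)
  rwa [← this]

lemma lemD_rank_one {Δ V : ℝ} (hC : N.IsCircuit {i, j}) (hij : i ≠ j)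
    (hsp : N.E ⊆ N.closure {i, j})
    (hl : ∀ x, ¬ N.IsCircuit {x}) (hlam : ∀ x, 0 ≤ lam x) (hΔ : ∀ x ∈ N.E, 2 * lam x ≤ Δ)
    (hD : W lam N.E ≤ Δ) (hv : ∀ x, 0 ≤ v x)
    (hV : ∀ Z, N.IsCircuit Z → W v Z ≤ V) :
    2 * W (fun x => lam x * v x) N.E ≤ Δ * V := by
  have hi : i ∈ N.E := hC.subset_ground (by simp)
  have hj : j ∈ N.E := hC.subset_ground (by simp)
  have hspi : N.E ⊆ N.closure {i} := by
    have := hC.closure_sdiff_singleton_eq j
    have hs : ({i, j} : Set α) \ {j} = {i} := by
      ext a
      simp only [Set.mem_sdiff, Set.mem_insert_iff, Set.mem_singleton_iff]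
      constructor
      · rintro ⟨h | h, h'⟩
        · exact h
        · exact absurd h h'
      · rintro rfl
        exact ⟨Or.inl rfl, hij⟩
    rw [hs] at this
    rwa [this]
  have hpair : ∀ x ∈ N.E, ∀ y ∈ N.E, x ≠ y → v x + v y ≤ V := by
    intro x hx y hy hxy
    have := hV _ (parallel_of_rank_one hl hi hspi hx hy hxy)
    rwa [W_insert (by simpa using hxy), W_singleton] at this
  obtain ⟨m, hm, hmax⟩ := Set.exists_max_image N.E v (Set.toFinite _) ⟨i, hi⟩
  have hΔ0 : 0 ≤ Δ := by have := hΔ i hi; have := hlam i; linarith
  have hW0 : 0 ≤ W lam N.E := W_nonneg fun x _ => hlam x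
  by_cases h2 : 2 * v m ≤ V
  · have h3 : W (fun x => lam x * v x) N.E ≤ W (fun x => v m * lam x) N.E :=
      W_mono_fun fun x hx => by
        have := mul_le_mul_of_nonneg_left (hmax x hx) (hlam x); linarith
    rw [W_mul_left] at h3
    nlinarith [hv m]
  · push Not at h2
    have hother : ∃ x ∈ N.E, x ≠ m := by
      by_cases him : i = m
      · exact ⟨j, hj, fun h => hij (him.trans h.symm)⟩
      · exact ⟨i, hi, him⟩
    obtain ⟨x₀, hx₀, hx₀m⟩ := hother
    have hVm : v m ≤ V := by
      have := hpair x₀ hx₀ m hm hx₀m
      have := hv x₀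
      linarith
    have hs : W (fun x => lam x * v x) (N.E \ {m}) ≤ W (fun x => (V - v m) * lam x) (N.E \ {m}) :=
      W_mono_fun fun x hx => by
        have h4 := hpair x hx.1 m hm hx.2
        have := mul_le_mul_of_nonneg_left (show v x ≤ V - v m by linarith) (hlam x)
        linarith
    rw [W_mul_left] at hs
    have h5 := W_diff_add (v := fun x => lam x * v x) (S := {m}) (T := N.E) (by simpa using hm)
    have h6 := W_diff_add (v := lam) (S := {m}) (T := N.E) (by simpa using hm)
    rw [W_singleton] at h5 h6
    have h7 := hΔ m hm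
    have h8 : (V - v m) * W lam (N.E \ {m}) ≤ (V - v m) * (Δ - lam m) :=
      mul_le_mul_of_nonneg_left (by linarith) (by linarith)
    nlinarith

open Classical in
theorem lemD (v : α → ℝ) (hv : ∀ x, 0 ≤ v x) (V : ℝ) (n : ℕ) :
    ∀ (N : Matroid α) (C : Set α) (lam : α → ℝ) (Δ : ℝ), N.E.ncard ≤ n → N.IsCircuit C →
    N.E ⊆ N.closure C → (∀ x, ¬ N.IsCircuit {x}) → (∀ x, 0 ≤ lam x) →
    (∀ x ∈ N.E, 2 * lam x ≤ Δ) →
    (∀ i ∈ C, ∀ j ∈ C, i ≠ j → W lam (Dc N C i j) ≤ Δ) →
    (∀ Z, N.IsCircuit Z → W v Z ≤ V) →
    2 * W (fun x => lam x * v x) N.E ≤ Δ * V := by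
  induction n with
  | zero =>
    intro N C lam Δ hn hC
    have : N.E = ∅ := by
      rw [← Set.ncard_eq_zero (Set.toFinite _)]; omega
    obtain ⟨x, hx⟩ := hC.nonempty
    have h := hC.subset_ground hx
    simp [this] at h
  | succ n ih =>
    intro N C lam Δ hn hC hsp hl hlam hΔ hD hV
    -- C has at least two elements
    obtain ⟨i₀, hi₀⟩ := hC.nonempty
    have hCnt : ∃ j ∈ C, j ≠ i₀ := by
      by_contra hcon
      push Not at hcon
      have : C = {i₀} := Set.Subset.antisymm (fun a ha => hcon a ha) (by simpa using hi₀)
      exact hl i₀ (this ▸ hC)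
    obtain ⟨j₀, hj₀, hj₀i₀⟩ := hCnt
    by_cases hC2 : C = {i₀, j₀}
    · subst hC2
      refine lemD_rank_one hC hj₀i₀.symm hsp hl hlam hΔ ?_ hv hV
      have := hD i₀ hi₀ j₀ hj₀ hj₀i₀.symm
      have hs : Dc N {i₀, j₀} i₀ j₀ = N.E := by
        unfold Dc
        rw [Set.sdiff_self]
        have : N.closure (∅ : Set α) = ∅ := by
          rw [Set.eq_empty_iff_forall_notMem]
          intro x hx
          refine hl x ?_
          rw [Matroid.singleton_isCircuit]
          exact hx
        simp [this]
      rwa [hs] at this
    -- the case in which some weight is zero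
    have key : ∀ (lam : α → ℝ) (Δ : ℝ), (∀ x, 0 ≤ lam x) → (∀ x ∈ N.E, 2 * lam x ≤ Δ) →
        (∀ i ∈ C, ∀ j ∈ C, i ≠ j → W lam (Dc N C i j) ≤ Δ) → (∃ x ∈ N.E, lam x = 0) →
        2 * W (fun x => lam x * v x) N.E ≤ Δ * V := by
      clear hD hΔ hlam
      intro lam Δ hlam hΔ hD hzero
      have hWE : ∀ x ∈ N.E, lam x = 0 →
          W (fun x => lam x * v x) N.E = W (fun x => lam x * v x) (N.E \ {x}) := by
        intro x hx h0
        have := W_diff_add (v := fun x => lam x * v x) (S := {x}) (T := N.E) (by simpa using hx)
        rw [W_singleton, h0] at this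
        linarith
      have hncard : ∀ x ∈ N.E, (N.E \ {x}).ncard ≤ n := by
        intro x hx
        have := Set.ncard_sdiff_singleton_lt_of_mem hx (Set.toFinite _)
        omega
      by_cases hz : ∃ x ∈ N.E, x ∉ C ∧ lam x = 0
      · obtain ⟨x, hx, hxC, hx0⟩ := hz
        have hdisj : ∀ Y : Set α, Y ⊆ C → Disjoint Y {x} := by
          intro Y hY
          rw [Set.disjoint_singleton_right]
          exact fun h => hxC (hY h)
        rw [hWE x hx hx0]
        refine ih (N ＼ {x}) C lam Δ (hncard x hx) ?_ ?_ ?_ hlam ?_ ?_ ?_
        · rwa [← Matroid.circuit_iff_delete_of_disjoint (hdisj C subset_rfl)]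
        · rw [Matroid.delete_ground, Matroid.delete_closure_eq_of_disjoint _ (hdisj C subset_rfl)]
          exact Set.sdiff_subset_sdiff_left hsp
        · intro y hy
          exact hl y hy.of_delete
        · intro y hy
          exact hΔ y hy.1
        · intro i hi j hj hij
          refine (W_mono_set (fun x _ => hlam x) ?_).trans (hD i hi j hj hij)
          unfold Dc
          rw [Matroid.delete_ground,
            Matroid.delete_closure_eq_of_disjoint _ (hdisj _ Set.sdiff_subset)]
          rintro a ⟨⟨h1, h2⟩, h3⟩
          exact ⟨h1, fun h => h3 ⟨h, h2⟩⟩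
        · intro Z hZ
          exact hV Z hZ.of_delete
      push Not at hz
      obtain ⟨i, hiE, hi0⟩ := hzero
      have hiC : i ∈ C := by
        by_contra h
        exact hz i hiE h hi0
      rw [hWE i hiE hi0]
      -- there are at least three elements in C
      have hC3 : ∀ a b, C ≠ {a, b} := by
        intro a b hab
        apply hC2
        rw [hab] at hi₀ hj₀ ⊢
        rw [Set.mem_insert_iff, Set.mem_singleton_iff] at hi₀ hj₀
        rcases hi₀ with h1 | h1 <;> rcases hj₀ with h2 | h2
        · exact absurd (h2.trans h1.symm) hj₀i₀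
        · rw [h1, h2]
        · rw [h1, h2, Set.pair_comm]
        · exact absurd (h2.trans h1.symm) hj₀i₀
      have hCnt : C.Nontrivial := ⟨i₀, hi₀, j₀, hj₀, hj₀i₀.symm⟩
      by_cases hpar : ∃ y ∈ N.E, y ∉ C ∧ y ∈ N.closure {i}
      · obtain ⟨y, hyE, hyC, hycl⟩ := hpar
        have hyi : y ≠ i := fun h => hyC (h ▸ hiC)
        have hpair : N.IsCircuit {y, i} := by
          obtain ⟨U, hUs, hU, hyU⟩ := Matroid.exists_isCircuit_of_mem_closure hycl
            (by simpa using hyi)
          have hiU : i ∈ U := by
            by_contra hiU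
            have : U = {y} := by
              refine Set.Subset.antisymm (fun a ha => ?_) (by simpa using hyU)
              rcases hUs ha with h | h
              · exact h
              · exact absurd (h ▸ ha) hiU
            exact hl y (this ▸ hU)
          have : U = {y, i} := Set.Subset.antisymm hUs (by rintro a (rfl | rfl) <;> assumption)
          rwa [← this]
        have hicl : i ∈ N.closure {y} := by
          have h := hpair.mem_closure_sdiff_singleton_of_mem (e := i) (by simp)
          refine N.closure_subset_closure ?_ h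
          rintro a ⟨h1 | h1, h2⟩
          · exact h1
          · exact absurd h1 h2
        have hC'eq : N.IsCircuit (insert y (C \ {i})) := by
          obtain ⟨c, hcC, hci⟩ := hCnt.exists_ne i
          have hcy : c ∉ ({y, i} : Set α) := by
            rintro (h | h)
            · exact hyC (h ▸ hcC)
            · exact hci h
          obtain ⟨U, hUs, hU, hcU⟩ := hC.strong_elimination hpair hiC (by simp) hcC hcy
          have hUsub : U ⊆ insert y (C \ {i}) := by
            intro a ha
            obtain ⟨h1, h2⟩ := hUs ha
            rcases h1 with h1 | h1 | h1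
            · exact Or.inr ⟨h1, h2⟩
            · exact Or.inl h1
            · exact absurd h1 h2
          have hyU : y ∈ U := by
            by_contra hyU
            have hsub : U ⊆ C \ {i} := by
              intro a ha
              rcases hUsub ha with h | h
              · exact absurd (h ▸ ha) hyU
              · exact h
            have : U = C := hU.eq_of_subset_isCircuit hC (hsub.trans Set.sdiff_subset)
            rw [this] at hsub
            exact (hsub hiC).2 rfl
          have : U = insert y (C \ {i}) := by
            refine hUsub.antisymm ?_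
            rintro a (rfl | ⟨haC, hai⟩)
            · exact hyU
            by_contra haU
            have hiU : i ∉ U := fun h => (hUs h).2 rfl
            have hcyi : c ∉ ({y, i} : Set α) := hcy
            obtain ⟨U₂, hU₂s, hU₂, hcU₂⟩ := hU.strong_elimination hpair hyU (by simp) hcU hcyi
            have hsub : U₂ ⊆ C \ {a} := by
              intro b hb
              obtain ⟨h1, h2⟩ := hU₂s hb
              rcases h1 with h1 | h1 | h1
              · rcases hUsub h1 with h | h
                · exact absurd h h2
                · exact ⟨h.1, fun h' => haU (h' ▸ h1)⟩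
              · exact absurd h1 h2
              · exact ⟨h1 ▸ hiC, fun h' => hai (h'.symm.trans h1)⟩
            have : U₂ = C := hU₂.eq_of_subset_isCircuit hC (hsub.trans Set.sdiff_subset)
            rw [this] at hsub
            exact (hsub haC).2 rfl
          rwa [← this]
        have hdisj : ∀ Y : Set α, Y ⊆ insert y (C \ {i}) → Disjoint Y {i} := by
          intro Y hY
          rw [Set.disjoint_singleton_right]
          intro h
          rcases hY h with h | h
          · exact hyi h.symm
          · exact h.2 rfl
        have hsubset : ∀ Y : Set α, Y ⊆ C \ {i} →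
            N.closure (insert i Y) ⊆ N.closure (insert y Y) := by
          intro Y hY
          have h1 : insert i Y ⊆ N.closure (insert y Y) := by
            rintro a (rfl | ha)
            · exact N.closure_subset_closure (by simp) hicl
            · refine N.mem_closure_of_mem (Or.inr ha) ?_
              rintro b (rfl | hb)
              · exact hyE
              · exact hC.subset_ground (hY hb).1
          have := N.closure_subset_closure h1
          rwa [N.closure_closure] at this
        refine ih (N ＼ {i}) (insert y (C \ {i})) lam Δ (hncard i hiE) ?_ ?_ ?_ hlam ?_ ?_ ?_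
        · rwa [← Matroid.circuit_iff_delete_of_disjoint (hdisj _ subset_rfl)]
        · rw [Matroid.delete_ground, Matroid.delete_closure_eq_of_disjoint _ (hdisj _ subset_rfl)]
          refine Set.sdiff_subset_sdiff_left (hsp.trans ?_)
          have := hsubset (C \ {i}) subset_rfl
          rwa [Set.insert_sdiff_singleton, Set.insert_eq_of_mem hiC] at this
        · intro z hz
          exact hl z hz.of_delete
        · intro z hz
          exact hΔ z hz.1
        · have hle : ∀ Y Y' : Set α, Disjoint Y {i} → N.closure Y' ⊆ N.closure Y →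
              ((N ＼ {i}).E \ (N ＼ {i}).closure Y) ⊆ N.E \ N.closure Y' := by
            intro Y Y' hdY hYY'
            rw [Matroid.delete_ground, Matroid.delete_closure_eq_of_disjoint _ hdY]
            rintro a ⟨⟨h1, h2⟩, h3⟩
            exact ⟨h1, fun h => h3 ⟨hYY' h, h2⟩⟩
          have hmain : ∀ a b, a ∈ insert y (C \ {i}) → b ∈ insert y (C \ {i}) → a ≠ b → a ≠ y →
              W lam (Dc (N ＼ {i}) (insert y (C \ {i})) a b) ≤ Δ := by
            intro a b ha hb hab hay
            have haC : a ∈ C \ {i} := ha.resolve_left hay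
            by_cases hby : b = y
            · refine (W_mono_set (fun x _ => hlam x) ?_).trans (hD i hiC a haC.1 (Ne.symm haC.2))
              refine hle _ _ (hdisj _ Set.sdiff_subset) ?_
              refine N.closure_subset_closure ?_
              rintro c ⟨hc, hc'⟩
              refine ⟨Or.inr ⟨hc, fun h => hc' (by left; exact h)⟩, ?_⟩
              rintro (h | h)
              · exact hc' (by right; exact h)
              · rw [hby] at h
                exact hyC (h ▸ hc)
            · have hbC : b ∈ C \ {i} := hb.resolve_left hby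
              refine (W_mono_set (fun x _ => hlam x) ?_).trans (hD a haC.1 b hbC.1 hab)
              refine hle _ _ (hdisj _ Set.sdiff_subset) ?_
              have h1 : C \ {a, b} = insert i ((C \ {i}) \ {a, b}) := by
                ext c
                constructor
                · rintro ⟨hc, hc'⟩
                  by_cases hci : c = i
                  · left; exact hci
                  · right; exact ⟨⟨hc, hci⟩, hc'⟩
                · rintro (rfl | hc)
                  · refine ⟨hiC, ?_⟩
                    rintro (h | h)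
                    · exact haC.2 h.symm
                    · exact hbC.2 h.symm
                  · exact ⟨hc.1.1, hc.2⟩
              have h2 : insert y (C \ {i}) \ {a, b} = insert y ((C \ {i}) \ {a, b}) := by
                ext c
                constructor
                · rintro ⟨hc | hc, hc'⟩
                  · left; exact hc
                  · right; exact ⟨hc, hc'⟩
                · rintro (rfl | hc)
                  · refine ⟨Or.inl rfl, ?_⟩
                    rintro (h | h)
                    · exact hay h.symm
                    · exact hby h.symm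
                  · exact ⟨Or.inr hc.1, hc.2⟩
              rw [h1, h2]
              exact hsubset _ Set.sdiff_subset
          intro a ha b hb hab
          by_cases hay : a = y
          · rw [Dc_symm]
            exact hmain b a hb ha hab.symm (fun h => hab (hay.trans h.symm))
          · exact hmain a b ha hb hab hay
        · intro Z hZ
          exact hV Z hZ.of_delete
      · push Not at hpar
        refine ih (N ／ {i}) (C \ {i}) lam Δ (hncard i hiE) ?_ ?_ ?_ hlam ?_ ?_ ?_
        · exact hC.contractElem_isCircuit hCnt hiC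
        · rw [Matroid.contract_ground, Matroid.contract_closure_eq, Set.sdiff_union_self]
          refine Set.sdiff_subset_sdiff_left (hsp.trans (N.closure_subset_closure ?_))
          exact Set.subset_union_left
        · intro y hy
          rw [Matroid.singleton_isCircuit, Matroid.contract_isLoop_iff_mem_closure] at hy
          have hyE : y ∈ N.E := N.mem_ground_of_mem_closure hy.1
          by_cases hyC : y ∈ C
          · -- {y, i} would be dependent
            have hI : N.Indep {y, i} := by
              have : ({y, i} : Set α) ⊂ C := by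
                refine ⟨by rintro a (rfl | rfl) <;> assumption, fun hs => ?_⟩
                exact hC3 y i (Set.Subset.antisymm hs (by rintro a (rfl | rfl) <;> assumption))
              exact hC.ssubset_indep this
            have := hI.notMem_closure_sdiff_of_mem (e := y) (by simp)
            have hs : ({y, i} : Set α) \ {y} = {i} := by
              ext a
              simp only [Set.mem_sdiff, Set.mem_insert_iff, Set.mem_singleton_iff]
              constructor
              · rintro ⟨h | h, h'⟩
                · exact absurd h h'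
                · exact h
              · rintro rfl
                exact ⟨Or.inr rfl, fun h => hy.2 h.symm⟩
            rw [hs] at this
            exact this hy.1
          · exact hpar y hyE hyC hy.1
        · intro y hy
          exact hΔ y hy.1
        · intro a ha b hb hab
          refine (W_mono_set (fun x _ => hlam x) ?_).trans (hD a ha.1 b hb.1 hab)
          unfold Dc
          rw [Matroid.contract_ground, Matroid.contract_closure_eq]
          have h1 : (C \ {i}) \ {a, b} ∪ {i} = C \ {a, b} := by
            ext c
            constructor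
            · rintro (hc | hc)
              · exact ⟨hc.1.1, hc.2⟩
              · rw [Set.mem_singleton_iff] at hc
                subst hc
                refine ⟨hiC, ?_⟩
                rintro (h | h)
                · exact ha.2 h.symm
                · exact hb.2 h.symm
            · rintro ⟨hc, hc'⟩
              by_cases hci : c = i
              · right; exact hci
              · left; exact ⟨⟨hc, hci⟩, hc'⟩
          rw [h1]
          rintro c ⟨⟨h1, h2⟩, h3⟩
          exact ⟨h1, fun h => h3 ⟨h, h2⟩⟩
        · intro Z hZ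
          obtain ⟨Z', hZ', h1, -⟩ := exists_circuit_of_contract hZ
          exact (W_mono_set (fun x _ => hv x) h1).trans (hV Z' hZ')
    -- the case of a dominating element outside of C
    have key2 : ∀ (lam : α → ℝ) (Δ : ℝ), (∀ x, 0 ≤ lam x) → (∀ x ∈ N.E, 2 * lam x ≤ Δ) →
        (∀ i ∈ C, ∀ j ∈ C, i ≠ j → W lam (Dc N C i j) ≤ Δ) →
        (∃ x ∈ N.E, x ∉ C ∧ 2 * lam x = Δ) →
        2 * W (fun x => lam x * v x) N.E ≤ Δ * V := by
      clear hD hΔ hlam
      intro lam Δ hlam hΔ hD hdom
      obtain ⟨e, heE, heC, he⟩ := hdom
      obtain ⟨Z, hZs, hZ, heZ⟩ := Matroid.exists_isCircuit_of_mem_closure (hsp heE) heC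
      obtain ⟨x₀, hx₀Z, hmin⟩ := Set.exists_min_image Z lam (Set.toFinite _) ⟨e, heZ⟩
      set ε : ℝ := lam x₀ with hε
      have hε0 : 0 ≤ ε := hlam x₀
      set lam' : α → ℝ := fun x => if x ∈ Z then lam x - ε else lam x with hlam'
      have hlam'0 : ∀ x, 0 ≤ lam' x := by
        intro x
        simp only [hlam']
        split_ifs with hx
        · have := hmin x hx; linarith
        · exact hlam x
      have hlam'e : lam' e = lam e - ε := by simp [hlam', heZ]
      have hD' : ∀ i ∈ C, ∀ j ∈ C, i ≠ j → W lam' (Dc N C i j) ≤ Δ - 2 * ε := by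
        have hDe : ∀ i ∈ C, ∀ j ∈ C, i ≠ j → e ∈ Dc N C i j →
            W lam' (Dc N C i j) ≤ Δ - 2 * ε := by
          intro i hi j hj hij heD
          obtain ⟨y, hyZ, hye, hyD⟩ := Dc_exists_other hZ heZ heD
          rw [hlam', W_sub_ite]
          have h1 := hD i hi j hj hij
          have h2 : (2 : ℝ) ≤ ((Dc N C i j ∩ Z).ncard : ℝ) := by
            have hsub : ({e, y} : Set α) ⊆ Dc N C i j ∩ Z := by
              rintro a (rfl | rfl)
              · exact ⟨heD, heZ⟩
              · exact ⟨hyD, hyZ⟩
            have h3 := Set.ncard_le_ncard hsub (Set.toFinite _)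
            rw [Set.ncard_pair hye.symm] at h3
            exact_mod_cast h3
          nlinarith
        intro i hi j hj hij
        by_cases heD : e ∈ Dc N C i j
        · exact hDe i hi j hj hij heD
        obtain ⟨k, hk, hki, hek⟩ := Dc_exists hC hsp hl heE heC hi
        have hkj : k ≠ j := fun h => heD (h ▸ hek)
        have hekj : e ∈ Dc N C j k := Dc_trans' hC hj heD hek
        have h1 := hDe i hi k hk hki.symm hek
        have h2 := hDe j hj k hk hkj.symm hekj
        have hsub : Dc N C i j ⊆ (Dc N C i k \ {e}) ∪ (Dc N C j k \ {e}) := by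
          intro a ha
          have hae : a ≠ e := fun h => heD (h ▸ ha)
          rcases Dc_trans hC hk ha with h | h
          · left; exact ⟨h, hae⟩
          · right; exact ⟨h, hae⟩
        have h3 : W lam' (Dc N C i j) ≤ W lam' (Dc N C i k \ {e}) + W lam' (Dc N C j k \ {e}) := by
          refine (W_mono_set (fun x _ => hlam'0 x) hsub).trans ?_
          rw [← W_diff_add (v := lam') (S := Dc N C i k \ {e})
            (T := (Dc N C i k \ {e}) ∪ (Dc N C j k \ {e})) Set.subset_union_left]
          have : W lam' (((Dc N C i k \ {e}) ∪ (Dc N C j k \ {e})) \ (Dc N C i k \ {e})) ≤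
              W lam' (Dc N C j k \ {e}) := by
            refine W_mono_set (fun x _ => hlam'0 x) ?_
            rintro a ⟨h | h, h'⟩
            · exact absurd h h'
            · exact h
          linarith
        have h4 := W_diff_add (v := lam') (S := {e}) (T := Dc N C i k) (by simpa using hek)
        have h5 := W_diff_add (v := lam') (S := {e}) (T := Dc N C j k) (by simpa using hekj)
        rw [W_singleton] at h4 h5
        linarith
      have hΔ' : ∀ x ∈ N.E, 2 * lam' x ≤ Δ - 2 * ε := by
        intro x hx
        by_cases hxe : x = e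
        · rw [hxe, hlam'e]; linarith
        -- find a pair separated by both x and e
        have hpair : ∃ i ∈ C, ∃ j ∈ C, i ≠ j ∧ x ∈ Dc N C i j ∧ e ∈ Dc N C i j := by
          by_cases hxC : x ∈ C
          · obtain ⟨k, hk, hkx, hek⟩ := Dc_exists hC hsp hl heE heC hxC
            refine ⟨x, hxC, k, hk, hkx.symm, ?_, hek⟩
            have : x ∈ Dc N C x k ∩ C := by rw [Dc_inter hC hxC hk hkx.symm]; simp
            exact this.1
          · obtain ⟨k, hk, hki, hek⟩ := Dc_exists hC hsp hl heE heC hi₀
            by_cases hxk : x ∈ Dc N C i₀ k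
            · exact ⟨i₀, hi₀, k, hk, hki.symm, hxk, hek⟩
            obtain ⟨m, hm, hmi, hxm⟩ := Dc_exists hC hsp hl hx hxC hi₀
            have hmk : m ≠ k := fun h => hxk (h ▸ hxm)
            have hxkm : x ∈ Dc N C k m := Dc_trans' hC hk hxk hxm
            rcases Dc_trans hC hm hek with h | h
            · exact ⟨i₀, hi₀, m, hm, hmi.symm, hxm, h⟩
            · exact ⟨k, hk, m, hm, hmk.symm, hxkm, h⟩
        obtain ⟨i, hi, j, hj, hij, hxD, heD⟩ := hpair
        have h1 := hD' i hi j hj hij
        have h2 : lam' x + lam' e ≤ W lam' (Dc N C i j) := by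
          have h3 : W lam' {x, e} = lam' x + lam' e := by
            rw [W_insert (by simpa using hxe), W_singleton]
          rw [← h3]
          exact W_mono_set (fun x _ => hlam'0 x) (by rintro a (rfl | rfl) <;> assumption)
        rw [hlam'e] at h2
        linarith
      have hkey := key lam' (Δ - 2 * ε) hlam'0 hΔ' hD' ⟨x₀, hZ.subset_ground hx₀Z, by
        simp [hlam', hx₀Z, hε]⟩
      have hWZ := hV Z hZ
      have hsum : W (fun x => lam x * v x) N.E = W (fun x => lam' x * v x) N.E + ε * W v Z := by
        have h1 : W (fun x => lam x * v x) N.E =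
            W (fun x => lam x * v x) (N.E ∩ Z) + W (fun x => lam x * v x) (N.E \ Z) :=
          (W_inter_add_diff _ _).symm
        have h2 : W (fun x => lam' x * v x) N.E =
            W (fun x => lam' x * v x) (N.E ∩ Z) + W (fun x => lam' x * v x) (N.E \ Z) :=
          (W_inter_add_diff _ _).symm
        have h3 : W (fun x => lam' x * v x) (N.E \ Z) = W (fun x => lam x * v x) (N.E \ Z) :=
          W_congr fun x hx => by simp [hlam', hx.2]
        have h4 : W (fun x => lam' x * v x) (N.E ∩ Z) + W (fun x => ε * v x) (N.E ∩ Z) =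
            W (fun x => lam x * v x) (N.E ∩ Z) := by
          rw [← W_add]
          refine W_congr fun x hx => ?_
          simp only [hlam', hx.2, if_true]
          ring
        rw [W_mul_left, Set.inter_eq_self_of_subset_right hZ.subset_ground] at h4
        rw [Set.inter_eq_self_of_subset_right hZ.subset_ground] at h1 h2
        linarith
      rw [hsum]
      nlinarith
    -- the general case
    set gf : α → ℝ := fun x => if x ∈ C then lam x else Δ / 2 - lam x with hgf
    obtain ⟨x₀, hx₀E, hmin⟩ := Set.exists_min_image N.E gf (Set.toFinite _)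
      ⟨i₀, hC.subset_ground hi₀⟩
    set ε : ℝ := gf x₀ with hε
    have hε0 : 0 ≤ ε := by
      simp only [hε, hgf]
      split_ifs with h
      · exact hlam x₀
      · have := hΔ x₀ hx₀E; linarith
    have hεC : ∀ x ∈ C, ε ≤ lam x := by
      intro x hx
      have := hmin x (hC.subset_ground hx)
      simpa [hgf, hx] using this
    have hεC' : ∀ x ∈ N.E, x ∉ C → ε ≤ Δ / 2 - lam x := by
      intro x hx hxC
      have := hmin x hx
      simpa [hgf, hxC] using this
    set lam' : α → ℝ := fun x => if x ∈ C then lam x - ε else lam x with hlam'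
    have hlam'0 : ∀ x, 0 ≤ lam' x := by
      intro x
      simp only [hlam']
      split_ifs with hx
      · have := hεC x hx; linarith
      · exact hlam x
    have hD' : ∀ i ∈ C, ∀ j ∈ C, i ≠ j → W lam' (Dc N C i j) ≤ Δ - 2 * ε := by
      intro i hi j hj hij
      rw [hlam', W_sub_ite, Dc_inter hC hi hj hij, Set.ncard_pair hij]
      have := hD i hi j hj hij
      push_cast
      linarith
    have hΔ' : ∀ x ∈ N.E, 2 * lam' x ≤ Δ - 2 * ε := by
      intro x hx
      simp only [hlam']
      split_ifs with hxC
      · have := hΔ x hx; linarith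
      · have := hεC' x hx hxC; linarith
    have hkey : 2 * W (fun x => lam' x * v x) N.E ≤ (Δ - 2 * ε) * V := by
      by_cases hx₀C : x₀ ∈ C
      · exact key lam' _ hlam'0 hΔ' hD' ⟨x₀, hx₀E, by simp [hlam', hx₀C, hε, hgf]⟩
      · refine key2 lam' _ hlam'0 hΔ' hD' ⟨x₀, hx₀E, hx₀C, ?_⟩
        simp only [hlam', hx₀C, if_false, hε, hgf]
        ring
    have hWC := hV C hC
    have hsum : W (fun x => lam x * v x) N.E = W (fun x => lam' x * v x) N.E + ε * W v C := by
      have h1 : W (fun x => lam x * v x) N.E =
          W (fun x => lam x * v x) (N.E ∩ C) + W (fun x => lam x * v x) (N.E \ C) :=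
        (W_inter_add_diff _ _).symm
      have h2 : W (fun x => lam' x * v x) N.E =
          W (fun x => lam' x * v x) (N.E ∩ C) + W (fun x => lam' x * v x) (N.E \ C) :=
        (W_inter_add_diff _ _).symm
      have h3 : W (fun x => lam' x * v x) (N.E \ C) = W (fun x => lam x * v x) (N.E \ C) :=
        W_congr fun x hx => by simp [hlam', hx.2]
      have h4 : W (fun x => lam' x * v x) (N.E ∩ C) + W (fun x => ε * v x) (N.E ∩ C) =
          W (fun x => lam x * v x) (N.E ∩ C) := by
        rw [← W_add]
        refine W_congr fun x hx => ?_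
        simp only [hlam', hx.2, if_true]
        ring
      rw [W_mul_left, Set.inter_eq_self_of_subset_right hC.subset_ground] at h4
      rw [Set.inter_eq_self_of_subset_right hC.subset_ground] at h1 h2
      linarith
    rw [hsum]
    nlinarith

end Pool.Agent.Royle
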