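import Pool.Agent.Royle.Basic

/-!
# The rooted theorem

If `R` is a matroid with a root `e` and weights `v ≥ 0` such that every circuit `Z` through `e`
has `v (Z \ e) ≤ 1`, then some cocircuit `D` through `e` has `|D \ e| ≥ v (S)`, where `S` is the
set of elements in a common circuit with `e`; moreover one gains `1 - v (Z \ e)` for any given
circuit `Z` through `e`.
-/

set_option autoImplicit false

open Set
open scoped Matroid

namespace Pool.Agent.Royle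

variable {α : Type*} [Fintype α] {M N R : Matroid α} {C D X Y Z U : Set α} {e f g x y z : α}
  {v : α → ℝ}

lemma exists_cocircuit_mem (hZ : R.IsCircuit Z) (he : e ∈ Z) (hne : (Z \ {e}).Nonempty) :
    ∃ D, R.IsCocircuit D ∧ e ∈ D ∧ 1 ≤ (D \ {e}).ncard := by
  obtain ⟨f, hf, hfe⟩ := hne
  obtain ⟨D, hD, hDZ⟩ := exists_cocircuit_pair hZ he hf (fun h => hfe (by simp [h]))
  have h1 : e ∈ D ∩ Z := by rw [hDZ]; simp
  have h2 : f ∈ D ∩ Z := by rw [hDZ]; simp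
  refine ⟨D, hD, h1.1, ?_⟩
  rw [Nat.one_le_iff_ne_zero, Ne, Set.ncard_eq_zero (Set.toFinite _)]
  exact Set.Nonempty.ne_empty ⟨f, h2.1, hfe⟩

theorem rt_plus_aux (n : ℕ) : ∀ (R : Matroid α) (e : α) (v : α → ℝ), R.E.ncard ≤ n →
    RConn R e → (∀ x, 0 ≤ v x) →
    (∀ Z, R.IsCircuit Z → e ∈ Z → W v (Z \ {e}) ≤ 1) →
    ∀ Z, R.IsCircuit Z → e ∈ Z → (Z \ {e}).Nonempty →
    ∃ D, R.IsCocircuit D ∧ e ∈ D ∧ 1 + W v (R.E \ Z) ≤ ((D \ {e}).ncard : ℝ) := by
  induction n with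
  | zero =>
    intro R e v hn _ _ _ Z hZ he _
    have : R.E = ∅ := by
      rw [← Set.ncard_eq_zero (Set.toFinite _)]; omega
    have h := hZ.subset_ground he
    simp [this] at h
  | succ n ih =>
    intro R e v hn hR hv0 hv Z hZ he hne
    by_cases hK : R.E \ Z = ∅
    · obtain ⟨D, hD, heD, h1⟩ := exists_cocircuit_mem hZ he hne
      refine ⟨D, hD, heD, ?_⟩
      rw [hK, W_empty, add_zero]
      exact_mod_cast h1
    obtain ⟨x, hxE, hxZ⟩ := Set.nonempty_iff_ne_empty.2 hK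
    obtain ⟨R', hE, hR', hC', hD'⟩ := hR.exists_minor (Z \ {e}) (by simp)
    have hxe : x ≠ e := fun h => hxZ (h ▸ he)
    have hxE' : x ∈ R'.E := by
      rw [hE]; exact ⟨hxE, fun h => hxZ h.1⟩
    obtain ⟨Z₁, hZ₁, heZ₁, hxZ₁⟩ := hR' x hxE' hxe
    have hlt : R'.E.ncard < R.E.ncard := by
      refine Set.ncard_lt_ncard ?_ (Set.toFinite _)
      rw [hE]
      refine ⟨Set.sdiff_subset, fun hsub => ?_⟩
      obtain ⟨f, hf⟩ := hne
      exact (hsub (hZ.subset_ground hf.1)).2 hf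
    have hv' : ∀ Z, R'.IsCircuit Z → e ∈ Z → W v (Z \ {e}) ≤ 1 := by
      intro Z' hZ' heZ'
      obtain ⟨Z'', h1, h2, h3⟩ := hC' Z' hZ'
      exact (W_mono_set (fun x _ => hv0 x) (Set.sdiff_subset_sdiff_left h2)).trans (hv Z'' h1 (h2 heZ'))
    obtain ⟨D, hD, heD, hDW⟩ := ih R' e v (by omega) hR' hv0 hv' Z₁ hZ₁ heZ₁ ⟨x, hxZ₁, hxe⟩
    obtain ⟨D', h1, h2, h3⟩ := hD' D hD
    refine ⟨D', h1, h2 heD, ?_⟩
    -- D' contains an element of Z \ {e}
    obtain ⟨y, hye, hyZ, hyD'⟩ := exists_ne_mem_inter hZ h1 he (h2 heD)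
    have hyD : y ∉ D := by
      intro hyD
      have := hD.subset_ground hyD
      rw [hE] at this
      exact this.2 ⟨hyZ, hye⟩
    have hcard : (D \ {e}).ncard + 1 ≤ (D' \ {e}).ncard := by
      have hsub : insert y (D \ {e}) ⊆ D' \ {e} := by
        rintro a (rfl | ha)
        · exact ⟨hyD', hye⟩
        · exact ⟨h2 ha.1, ha.2⟩
      have := Set.ncard_le_ncard hsub (Set.toFinite _)
      rwa [Set.ncard_insert_of_notMem (fun h => hyD h.1) (Set.toFinite _)] at this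
    have hcard' : ((D \ {e}).ncard : ℝ) + 1 ≤ ((D' \ {e}).ncard : ℝ) := by exact_mod_cast hcard
    have hW1 : W v (R'.E \ Z₁) + W v (Z₁ \ {e}) = W v (R.E \ Z) := by
      rw [← W_union]
      · congr 1
        ext a
        simp only [hE, Set.mem_union, Set.mem_sdiff, Set.mem_singleton_iff]
        constructor
        · rintro (⟨⟨h1, h2⟩, h3⟩ | ⟨h1, h2⟩)
          · refine ⟨h1, fun h => h2 ⟨h, fun h' => h3 (h' ▸ heZ₁)⟩⟩
          · have := hZ₁.subset_ground h1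
            rw [hE] at this
            exact ⟨this.1, fun h => this.2 ⟨h, h2⟩⟩
        · rintro ⟨h1, h2⟩
          by_cases haZ₁ : a ∈ Z₁
          · exact Or.inr ⟨haZ₁, fun h' => h2 (h' ▸ he)⟩
          · exact Or.inl ⟨⟨h1, fun h => h2 h.1⟩, haZ₁⟩
      · rw [Set.disjoint_left]
        rintro a ⟨_, h⟩ ⟨h', _⟩
        exact h h'
    have := hv' Z₁ hZ₁ heZ₁
    linarith

/-- The set of elements (other than `e`) lying in a common circuit with `e`. -/
def S (R : Matroid α) (e : α) : Set α := {x | x ≠ e ∧ Cn R e x}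

lemma S_subset_ground : S R e ⊆ R.E := fun _ hx => hx.2.mem_right

lemma mem_S_of_circuit (hZ : R.IsCircuit Z) (he : e ∈ Z) (hx : x ∈ Z) (hxe : x ≠ e) :
    x ∈ S R e := ⟨hxe, Z, hZ, he, hx⟩

lemma mem_S_trans (hx : x ∈ S R e) (h : Cn R x y) (hy : y ≠ e) : y ∈ S R e :=
  ⟨hy, hx.2.trans h⟩

/-- **Rooted theorem**. -/
theorem rt_plus (hv0 : ∀ x, 0 ≤ v x)
    (hv : ∀ Z, R.IsCircuit Z → e ∈ Z → W v (Z \ {e}) ≤ 1)
    (hZ : R.IsCircuit Z) (he : e ∈ Z) (hne : (Z \ {e}).Nonempty) :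
    ∃ D, R.IsCocircuit D ∧ e ∈ D ∧ 1 + W v (S R e \ Z) ≤ ((D \ {e}).ncard : ℝ) := by
  set T : Set α := insert e (S R e) with hT
  have hTE : T ⊆ R.E := by
    rintro a (rfl | ha)
    · exact hZ.subset_ground he
    · exact S_subset_ground ha
  have hcirc : ∀ Z, R.IsCircuit Z → e ∈ Z → Z ⊆ T := by
    intro Z hZ he a ha
    by_cases hae : a = e
    · left; exact hae
    · right; exact mem_S_of_circuit hZ he ha hae
  have hN : ∀ Z, (R ↾ T).IsCircuit Z ↔ R.IsCircuit Z ∧ Z ⊆ T := fun Z =>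
    Matroid.restrict_isCircuit_iff hTE
  have hRC : RConn (R ↾ T) e := by
    intro f hf hfe
    rcases hf with h | h
    · exact absurd h hfe
    · obtain ⟨Z', hZ', h1, h2⟩ := h.2
      exact ⟨Z', (hN Z').2 ⟨hZ', hcirc Z' hZ' h1⟩, h1, h2⟩
  obtain ⟨D, hD, heD, hDW⟩ := rt_plus_aux _ (R ↾ T) e v le_rfl hRC hv0
    (fun Z' hZ' he' => hv Z' ((hN Z').1 hZ').1 he') Z ((hN Z).2 ⟨hZ, hcirc Z hZ he⟩) he hne
  rw [← Matroid.delete_compl hTE] at hD
  obtain ⟨D', h1, h2, h3⟩ := exists_cocircuit_of_delete hD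
  refine ⟨D', h1, h2 heD, ?_⟩
  have hc : ((D \ {e}).ncard : ℝ) ≤ ((D' \ {e}).ncard : ℝ) := by
    exact_mod_cast Set.ncard_le_ncard (Set.sdiff_subset_sdiff_left h2) (Set.toFinite _)
  have hW : W v (S R e \ Z) ≤ W v ((R ↾ T).E \ Z) := by
    refine W_mono_set (fun x _ => hv0 x) (Set.sdiff_subset_sdiff_left ?_)
    exact Set.subset_insert _ _
  linarith

/-- An extremal rooted matroid. -/
structure Ext (R : Matroid α) (e : α) (v : α → ℝ) : Prop where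
  nonneg : ∀ x, 0 ≤ v x
  pos : ∀ x ∈ S R e, 0 < v x
  circ : ∀ Z, R.IsCircuit Z → e ∈ Z → W v (Z \ {e}) ≤ 1
  cocirc : ∀ D, R.IsCocircuit D → e ∈ D → ((D \ {e}).ncard : ℝ) ≤ W v (S R e)

lemma Ext.circ_eq (h : Ext R e v) (hZ : R.IsCircuit Z) (he : e ∈ Z) (hne : (Z \ {e}).Nonempty) :
    W v (Z \ {e}) = 1 := by
  refine le_antisymm (h.circ Z hZ he) ?_
  obtain ⟨D, hD, heD, hDW⟩ := rt_plus h.nonneg h.circ hZ he hne
  have h1 := h.cocirc D hD heD
  have h2 := W_inter_add_diff (v := v) (S R e) Z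
  have h3 : S R e ∩ Z = Z \ {e} := by
    ext a
    constructor
    · rintro ⟨h1, h2⟩
      exact ⟨h2, h1.1⟩
    · rintro ⟨h1, h2⟩
      exact ⟨mem_S_of_circuit hZ he h1 h2, h1⟩
  rw [h3] at h2
  linarith

end Pool.Agent.Royle
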