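import Pool.Agent.Royle.Fat

/-!
# Sizes of the parallel classes of a fat polygon
-/

set_option autoImplicit false
set_option linter.unusedSectionVars false

open Set
open scoped Matroid

namespace Pool.Agent.Royle

variable {α : Type*} [Fintype α] {M N R : Matroid α} {C D X Y Z U P q : Set α}
  {a b e f g h i j k x y z : α} {v w lam : α → ℝ} {d : ℕ}

lemma par_trans (h1 : N.IsCircuit {a, f}) (h2 : N.IsCircuit {b, f}) (hab : a ≠ b) (haf : a ≠ f)
    (_hbf : b ≠ f) : N.IsCircuit {a, b} := by
  have ha2 : a ∉ ({b, f} : Set α) := by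
    rintro (h | h)
    · exact hab h
    · exact haf h
  obtain ⟨U, hUs, hU, haU⟩ := h1.strong_elimination h2 (e := f) (f := a) (by simp) (by simp)
    (by simp) ha2
  have hsub : U ⊆ {a, b} := by
    intro t ht
    obtain ⟨h3, h4⟩ := hUs ht
    rcases h3 with (h | h) | (h | h)
    · left; exact h
    · exact absurd h h4
    · right; exact h
    · exact absurd h h4
  have hbU : b ∈ U := by
    by_contra hbU
    have hUa : U ⊆ {a, f} := by
      intro t ht
      rcases hsub ht with h | h
      · left; exact h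
      · exact absurd (h ▸ ht) hbU
    have := hU.eq_of_subset_isCircuit h1 hUa
    have hfU : f ∈ U := by rw [this]; simp
    exact (hUs hfU).2 rfl
  have : U = {a, b} := hsub.antisymm (by rintro t (rfl | rfl) <;> assumption)
  rwa [← this]

/-- replacing an element of a circuit by a parallel element -/
lemma circuit_replace (hP : N.IsCircuit P) (hyP : y ∈ P) (hxy : N.IsCircuit {x, y})
    (hx : x ∉ P) : N.IsCircuit (insert x (P \ {y})) := by
  have hxy' : x ≠ y := fun h => hx (h ▸ hyP)
  obtain ⟨U, hUs, hU, hxU⟩ := hxy.strong_elimination hP (e := y) (f := x) (by simp) hyP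
    (by simp) hx
  have hsub : U ⊆ insert x (P \ {y}) := by
    intro t ht
    obtain ⟨h3, h4⟩ := hUs ht
    rcases h3 with (h | h) | h
    · left; exact h
    · exact absurd h h4
    · right; exact ⟨h, h4⟩
  have : U = insert x (P \ {y}) := by
    refine hsub.antisymm ?_
    rintro t (rfl | ⟨htP, hty⟩)
    · exact hxU
    by_contra htU
    have hyU : y ∉ U := fun h => (hUs h).2 rfl
    obtain ⟨U₂, hU₂s, hU₂, hyU₂⟩ := hxy.strong_elimination hU (e := x) (f := y) (by simp) hxU
      (by simp) hyU
    have h5 : U₂ ⊆ P := by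
      intro s hs
      obtain ⟨h3, h4⟩ := hU₂s hs
      rcases h3 with (h | h) | h
      · exact absurd h h4
      · rw [h]; exact hyP
      · rcases hsub h with h' | h'
        · exact absurd h' h4
        · exact h'.1
    have h6 := hU₂.eq_of_subset_isCircuit hP h5
    have htU₂ : t ∈ U₂ := by rw [h6]; exact htP
    rcases (hU₂s htU₂).1 with (h | h) | h
    · exact hx (h ▸ htP)
    · exact hty h
    · exact htU h
  rwa [← this]

lemma S_diff_pair : S (Q M C i j) i \ {i, j} = Sp M C i j := by
  ext a
  constructor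
  · rintro ⟨h1, h2⟩
    exact ⟨h1, fun h => h2 (by right; exact h)⟩
  · rintro ⟨h1, h2⟩
    refine ⟨h1, ?_⟩
    rintro (h | h)
    · exact h1.1 h
    · exact h2 h

/-- The parallel class of `f` in the component of `y` relative to the pair `i, j`. -/
def FF (M : Matroid α) (C : Set α) (y i j f : α) : Set α :=
  {x | x ∈ K M C y ∧ (x = f ∨ (x ≠ f ∧ (Q M C i j).IsCircuit {x, f}))}

lemma FF_par (ha : a ∈ FF M C y i j f) (hb : b ∈ FF M C y i j f) (hab : a ≠ b) :
    (Q M C i j).IsCircuit {a, b} := by
  obtain ⟨-, ha⟩ := ha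
  obtain ⟨-, hb⟩ := hb
  rcases ha with ha | ⟨ha', ha⟩
  · rcases hb with hb | ⟨hb', hb⟩
    · exact absurd (ha.trans hb.symm) hab
    · rw [Set.pair_comm, ha]; exact hb
  · rcases hb with hb | ⟨hb', hb⟩
    · rw [hb]; exact ha
    · exact par_trans ha hb hab ha' hb'

open Classical in
theorem Setup'.ncard_FF_le (h : Setup' M C d Y) (hy : y ∈ Y) (hF : Fat M C d y i j) :
    ((FF M C y i j f).ncard : ℝ) ≤ W (wt M C) (K M C y) := by
  set v2 : α → ℝ := fun x => if x ∈ K M C y then (if x ∈ FF M C y i j f then 1 else 0)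
    else wt' M C x with hv2
  have hv0 : ∀ x, 0 ≤ v2 x := by
    intro x
    simp only [hv2]
    split_ifs
    · norm_num
    · exact le_rfl
    · exact wt'_nonneg
  have hFK : FF M C y i j f ⊆ K M C y := fun x hx => hx.1
  have hKcase : ∀ T : Set α, T ⊆ K M C y → W v2 T = ((T ∩ FF M C y i j f).ncard : ℝ) := by
    intro T hT
    rw [← W_inter_add_diff T (FF M C y i j f), ← W_one]
    have e1 : W v2 (T ∩ FF M C y i j f) = W (fun _ => 1) (T ∩ FF M C y i j f) := by
      refine W_congr fun x hx => ?_
      simp [hv2, hT hx.1, hx.2]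
    have e2 : W v2 (T \ FF M C y i j f) = 0 := by
      rw [W_const_of (c := 0)]
      · simp
      · intro x hx
        simp [hv2, hT hx.1, hx.2]
    rw [e1, e2, add_zero]
  obtain ⟨D, hD, hiD, hDW⟩ := rt_plus (v := v2) hv0 (by
      intro Z hZ hiZ
      rcases Q_circuit h.circ hF.hi hF.hj hF.hij.symm hZ hiZ with hZ' | ⟨hjZ, hP⟩
      · have : Z \ {i} = {j} := by
          rw [hZ']
          ext a
          simp only [Set.mem_sdiff, Set.mem_insert_iff, Set.mem_singleton_iff]
          constructor
          · rintro ⟨h | h, h'⟩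
            · exact absurd h h'
            · exact h
          · rintro rfl
            exact ⟨Or.inr rfl, hF.hij.symm⟩
        have hjK : j ∉ K M C y := fun h' => K_notMem h' hF.hj
        rw [this, W_singleton]
        simp only [hv2, hjK, if_false]
        rw [wt'_of_mem hF.hj]
      · obtain ⟨t, ht⟩ := hP.nonempty
        by_cases htK : t ∈ K M C y
        · have hZK : Z \ {i} ⊆ K M C y := h.circ_in_class hP ht htK
          rw [hKcase _ hZK]
          have : ((Z \ {i}) ∩ FF M C y i j f).ncard ≤ 1 := by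
            rw [Set.ncard_le_one (Set.toFinite _)]
            rintro a ⟨ha, haF⟩ b ⟨hb, hbF⟩
            by_contra hab
            have h1 := FF_par haF hbF hab
            have h2 := h1.eq_of_subset_isCircuit hZ (by
              rintro s (rfl | rfl)
              · exact ha.1
              · exact hb.1)
            rw [← h2] at hiZ
            rcases hiZ with h' | h'
            · exact ha.2 h'.symm
            · exact hb.2 h'.symm
          exact_mod_cast this
        · have hZK : ∀ s ∈ Z \ {i}, s ∉ K M C y := by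
            intro s hs hsK
            exact htK (h.circ_in_class hP hs hsK ht)
          have : W v2 (Z \ {i}) = W (wt' M C) (Z \ {i}) := by
            refine W_congr fun s hs => ?_
            simp only [hv2, hZK s hs, if_false]
          rw [this]
          exact h.W_circ_le hF.hi hF.hj hF.hij Z hZ hiZ)
    (Q_pair h.circ hF.hi hF.hj) (by simp) ⟨j, by simp, hF.hij.symm⟩
  have h1 := h.cocirc_le hD hiD
  rw [S_diff_pair] at hDW
  have hKSp : K M C y ⊆ Sp M C i j :=
    h.K_subset_Sp hF.hi hF.hj (h.P_NT hy).1 hF.sep (h.mem y hy).2.2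
  have h2 := W_diff_add (v := v2) hKSp
  have h3 := W_diff_add (v := wt M C) hKSp
  have h4 : W v2 (Sp M C i j \ K M C y) = W (wt M C) (Sp M C i j \ K M C y) := by
    refine W_congr fun x hx => ?_
    simp only [hv2, hx.2, if_false]
    exact wt'_of_notMem (Sp_notMem hx.1)
  have h5 := hKcase _ (subset_refl (K M C y))
  have h6 : K M C y ∩ FF M C y i j f = FF M C y i j f := Set.inter_eq_self_of_subset_right hFK
  rw [h6] at h5
  have h7 := hF.tight
  linarith

/-- every class has the same size -/
theorem Setup'.sizes (h : Setup' M C d Y) (hy : y ∈ Y) (hF : Fat M C d y i j)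
    (hf : f ∈ best M C (K M C y)) :
    (FF M C y i j f).ncard * (best M C (K M C y)).ncard = (K M C y).ncard := by
  classical
  set P := best M C (K M C y) with hP
  have hle : ∀ f, (FF M C y i j f).ncard * P.ncard ≤ (K M C y).ncard := by
    intro f
    have h1 := h.ncard_FF_le hy hF (f := f)
    have h2 := h.W_K hy
    have h3 : (0 : ℝ) ≤ (P.ncard : ℝ) := by positivity
    have h4 := mul_le_mul_of_nonneg_right h1 h3
    rw [h2] at h4
    exact_mod_cast h4
  have hPf : P.toFinite.toFinset = P.toFinite.toFinset := rfl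
  have hcard : P.toFinite.toFinset.card = P.ncard := (Set.ncard_eq_toFinset_card P).symm
  have hunion : (K M C y).ncard ≤ ∑ f ∈ P.toFinite.toFinset, (FF M C y i j f).ncard := by
    have h1 : K M C y ⊆ ⋃ f ∈ P, FF M C y i j f := by
      intro x hx
      by_cases hxP : x ∈ P
      · exact Set.mem_biUnion hxP ⟨hx, Or.inl rfl⟩
      · obtain ⟨f, hfP, hc⟩ := hF.par x hx hxP
        exact Set.mem_biUnion hfP ⟨hx, Or.inr ⟨fun h' => hxP (h' ▸ hfP), hc⟩⟩
    refine (Set.ncard_le_ncard h1 (Set.toFinite _)).trans ?_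
    have h2 : (⋃ f ∈ P, FF M C y i j f) =
        ((P.toFinite.toFinset.biUnion fun f => (FF M C y i j f).toFinite.toFinset : Finset α) :
          Set α) := by
      ext x
      simp
    rw [h2, Set.ncard_coe_finset]
    refine Finset.card_biUnion_le.trans ?_
    refine le_of_eq (Finset.sum_congr rfl fun f _ => ?_)
    rw [Set.ncard_eq_toFinset_card]
  by_contra hne
  have hlt : (FF M C y i j f).ncard * P.ncard < (K M C y).ncard := lt_of_le_of_ne (hle f) hne
  have hsum : ∑ f ∈ P.toFinite.toFinset, (FF M C y i j f).ncard * P.ncard <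
      ∑ _f ∈ P.toFinite.toFinset, (K M C y).ncard :=
    Finset.sum_lt_sum (fun f _ => hle f) ⟨f, by simpa using hf, hlt⟩
  rw [← Finset.sum_mul, Finset.sum_const, hcard, smul_eq_mul] at hsum
  have := Nat.mul_le_mul_right P.ncard hunion
  rw [mul_comm] at hsum
  nlinarith

/-- no loops in components with an ear of size at least two -/
lemma Setup'.not_loop (h : Setup' M C d Y) (hy : y ∈ Y)
    (hp : 2 ≤ (best M C (K M C y)).ncard) (hx : x ∈ K M C y) : ¬ (M ／ C).IsCircuit {x} := by
  have hyK : Cn (M ／ C) y x := hx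
  refine not_loop_of_class ?_ hyK
  obtain ⟨z, hz, hzy⟩ := Set.exists_ne_of_one_lt_ncard (s := best M C (K M C y)) (by omega) y
  exact ⟨z, hzy, h.P_sub hy hz⟩

lemma Setup'.ncard_FF_ge (h : Setup' M C d Y) (hy : y ∈ Y) (hF : Fat M C d y i j)
    (hp : 2 ≤ (best M C (K M C y)).ncard) (hf : f ∈ best M C (K M C y)) :
    2 ≤ (FF M C y i j f).ncard := by
  by_contra hlt
  have h1 := h.sizes hy hF hf
  have hK : (K M C y).ncard ≤ (best M C (K M C y)).ncard := by
    have : (FF M C y i j f).ncard ≤ 1 := by omega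
    rw [← h1]
    calc _ ≤ 1 * (best M C (K M C y)).ncard := Nat.mul_le_mul_right _ this
      _ = _ := one_mul _
  have hKP : best M C (K M C y) = K M C y :=
    Set.eq_of_subset_of_ncard_le (h.P_sub hy) hK (Set.toFinite _)
  obtain ⟨g, hg, hgf⟩ := Set.exists_ne_of_one_lt_ncard (s := best M C (K M C y)) (by omega) f
  obtain ⟨D, hD, hDP⟩ := exists_cocircuit_pair (h.P_NT hy).1 hf hg hgf.symm
  have hfD : f ∈ D ∩ best M C (K M C y) := by rw [hDP]; simp
  have hDK : D ⊆ K M C y := by
    intro t ht
    by_cases htf : t = f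
    · rw [htf]; exact h.P_sub hy hf
    · have h3 := cn_of_cocircuit hD hfD.1 ht (Ne.symm htf)
      have h4 : t ∈ K M C f := h3
      rwa [K_eq (h.P_sub hy hf)] at h4
  rw [hKP] at hDP
  rw [Set.inter_eq_self_of_subset_left hDK] at hDP
  have h5 := h.cosimple D (cocircuit_contract_iff.1 hD).1
  rw [hDP, Set.ncard_pair hgf.symm] at h5
  omega

/-- elements of a class are parallel in `M ／ C` -/
lemma Setup'.par_contract (h : Setup' M C d Y) (hy : y ∈ Y) (hF : Fat M C d y i j)
    (hp : 2 ≤ (best M C (K M C y)).ncard) (ha : a ∈ K M C y) (hb : b ∈ K M C y) (_hab : a ≠ b)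
    (hc : (Q M C i j).IsCircuit {a, b}) : (M ／ C).IsCircuit {a, b} := by
  have haij : a ∉ ({i, j} : Set α) := by
    rintro (h' | h')
    · exact K_notMem ha (h' ▸ hF.hi)
    · exact K_notMem ha (h' ▸ hF.hj)
  obtain ⟨T, hT, haT, hTs⟩ := exists_circuit_contract (X := {i, j}) hc (by simp) haij
  rw [Q_contract hF.hi hF.hj] at hT
  have hbT : b ∈ T := by
    by_contra hbT
    have : T = {a} := by
      refine Set.Subset.antisymm (fun t ht => ?_) (by simpa using haT)
      rcases (hTs ht).1 with h' | h'
      · exact h'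
      · exact absurd (h' ▸ ht) hbT
    rw [this] at hT
    exact h.not_loop hy hp ha hT
  have : T = {a, b} := Set.Subset.antisymm (fun t ht => (hTs ht).1)
    (by rintro t (rfl | rfl) <;> assumption)
  rwa [← this]

lemma Sep.not_isCircuit (hsep : Sep M C P i j) (hP : ∀ a ∈ P, a ∉ C) (hi : i ∈ C)
    (hne : P.Nonempty) : ¬ M.IsCircuit P := by
  intro hc
  obtain ⟨x, hx⟩ := hne
  obtain ⟨T, hT, hxT, hTs⟩ := exists_circuit_contract (X := C \ {i, j}) hc hx
    (fun h' => hP x hx h'.1)
  have hTP : T ⊆ insert i P := fun a ha => Or.inr (hTs ha).1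
  have hTeq : T = insert i P := hT.eq_of_subset_isCircuit hsep hTP
  have hiT : i ∈ T := by rw [hTeq]; simp
  exact hP i (hTs hiT).1 hi

end Pool.Agent.Royle
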